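import Pool.Agent.Lib_helper57.PX.QCon

/-! # Q1 and its consistency version true, relative to an oracle (MP_5c38ab_lc) -/

set_option autoImplicit false

namespace Pool.Agent.TCA

open Pool.Agent.PX

/-- Q1 and its consistency version are true relative to `O`: base theories exist, and for every base
theory `B` and every `S` in the class there is `T` in the class such that neither the sentences
`Σ^b_1RFN_T(n)` nor the sentences `Con_T(n)` have `S`-proofs of polynomial length. -/
def BothTrue (O : Lang) : Prop :=
  (∃ B, BaseTheory O B) ∧ ∀ B, BaseTheory O B → ∀ (p : Cmd) (k : ℕ), InT O B p k →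
    ∃ (q : Cmd) (m : ℕ), InT O B q m ∧
      ¬ PolyBounded (Ax O p k) (RFN q m) ∧ ¬ PolyBounded (Ax O p k) (Con q m)

/-- Q1 is true relative to `O`, with exponential lower bounds: base theories exist, and for every base
theory `B` and every `S` in the class there is `T` in the class such that the sentences
`Σ^b_1RFN_T(n)` do not have `S`-proofs of polynomial length; for infinitely many `n` all their
`S`-proofs have length greater than `2 ^ (n ^ (1/7) - 1)` (`n < d ^ 7` for the number `d` of binary
digits of the length). -/
def Q1TrueExp (O : Lang) : Prop :=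
  (∃ B, BaseTheory O B) ∧ ∀ B, BaseTheory O B → ∀ (p : Cmd) (k : ℕ), InT O B p k →
    ∃ (q : Cmd) (m : ℕ), InT O B q m ∧ ¬ PolyBounded (Ax O p k) (RFN q m) ∧
      ∀ n₀, ∃ n, n₀ ≤ n ∧ ∀ l, ProofOf (Ax O p k) (RFN q m n) l →
        n < (Nat.size (pEnc l).length) ^ 7

end Pool.Agent.TCA
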