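import Pool.Agent.Lib_helper94.TCA.TBuild

/-!
# Q1 and CON true relative to a closed oracle with a sparse right part
-/

set_option autoImplicit false

namespace Pool.Agent.TCA

open Pool.Agent.CK Pool.Agent.RF Pool.Agent.CKP Pool.Agent.RO Pool.Agent.ADV Filter
open Pool.Agent.AEC (Adm IsClo par par_congr Loc fixO fixO_eq)
open Pool.Agent.TC (LLn)
open Pool.Agent.FS (pfxT pfxT_inj t1F t1F_refute)

/-- there is a short proof in `S` of `RFN_T(N)` or of `Con_T(N)` -/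
def Sh2 (S T : Th) (a N : ℕ) (O : Lang) : Prop :=
  ShF S (N ^ a + a) (RFN T N) O ∨ ShF S (N ^ a + a) (Con T N) O

theorem sh2_q {S T : Th} {a N : ℕ} {O : Lang} (h : Sh2 S T a N O) :
    ∃ Q : Finset (List Bool), Q.card ≤ LLn S a N * LLn S a N ∧
      (∀ x ∈ Q, x.length < LLn S a N) ∧
      ∀ O' : Lang, (∀ x ∈ Q, O' x = O x) → Sh2 S T a N O' := by
  rcases h with h | h
  · obtain ⟨Q, h1, h2, h3⟩ := shF_q h
    exact ⟨Q, h1, h2, fun O' hO' => Or.inl (h3 O' hO')⟩
  · obtain ⟨Q, h1, h2, h3⟩ := shF_q h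
    exact ⟨Q, h1, h2, fun O' hO' => Or.inr (h3 O' hO')⟩

theorem sh2_congr {S T : Th} {a N M : ℕ} {O O' : Lang} (hM : LLn S a N ≤ M + 1)
    (h : ∀ x : List Bool, x.length ≤ M → O' x = O x) (hO : Sh2 S T a N O) : Sh2 S T a N O' := by
  obtain ⟨Q, -, h1, h2⟩ := sh2_q hO
  exact h2 O' fun x hx => h x (by
    have := h1 x hx
    omega)

/-- a theory with a false axiom about the stage -/
theorem fin_false2 {O : Lang} {B : Fm → Prop} (hB : BaseD O B) {S T : Th} (hS : InT O B S)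
    (hT : ∀ σ, B σ → Ax O T σ) {l i a : ℕ} {y : List Bool} (h8 : 8 ≤ l)
    (hax : Ax O T (t1F l (pfxT T i))) (hp : (pfxT T i).length ≤ l)
    (hy : y.length + 1 = 2 ^ (l + 1)) (hb : O (true :: (pfxT T i ++ y)) = true)
    (hsh : Sh2 S T a (2 ^ (3 * l + 13) - 2) O) : False := by
  obtain ⟨l', hl', hlen⟩ := t1F_refute (O := O) (A := Ax O T) hax
    (fun a b hab => hT _ (hB.leD a b hab)) (fun x hx => hT _ (hB.orcD x hx)) hp hy hb
  have hn : (pEnc (l' ++ [falsum])).length + 4000 ≤ 2 ^ (3 * l + 13) - 2 := by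
    have h1 : 2 ^ (3 * l + 13) = 8192 * 2 ^ (3 * l) := by
      rw [show 3 * l + 13 = 13 + 3 * l by ring, pow_add]; norm_num
    have h2 : 2 ^ l ≤ 2 ^ (3 * l) := Nat.pow_le_pow_right (by norm_num) (by omega)
    have h3 := Nat.one_le_two_pow (n := l)
    have h5 : 2 ^ 8 ≤ 2 ^ l := Nat.pow_le_pow_right (by norm_num) (by omega)
    rw [h1]
    omega
  obtain ⟨hc, hr⟩ := proof_false hl' hn
  rcases hsh with ⟨l1, h, -⟩ | ⟨l1, h, -⟩
  · have h1 : ¬ (RFN T (2 ^ (3 * l + 13) - 2)).True O := fun hh =>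
      hr ((holds_RFN O (fun _ => 0) T _).mp (hh _))
    exact hS.cons (prv_bot ⟨l1, h⟩ (prv_mono hS.ext (hB.refRFN T _ h1)))
  · have h1 : ¬ (Con T (2 ^ (3 * l + 13) - 2)).True O := fun hh =>
      hc ((holds_Con O (fun _ => 0) T _).mp (hh _))
    exact hS.cons (prv_bot ⟨l1, h⟩ (prv_mono hS.ext (hB.refCon T _ h1)))

/-- the parameters of the construction -/
structure PPar where
  /-- the extension scheme -/
  ext : List Bool → Finset (List Bool)
  /-- the scheme is admissible -/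
  hext : Adm ext
  /-- the given oracle -/
  R : Lang
  /-- the numbers of the theories -/
  num : Th → ℕ
  /-- the numbers are different -/
  hnum : Function.Injective num
  /-- the enumeration of the pairs -/
  cl : ℕ → Th × Th
  /-- the exponents of the numbers of new strings -/
  E : ℕ → ℕ
  /-- the levels -/
  l : ℕ → ℕ

namespace PPar

variable (P : PPar)

/-- the theory `S` of the stage -/
def S (s : ℕ) : Th := (P.cl (Nat.unpair s).1).1

/-- the theory `T` of the stage -/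
def T (s : ℕ) : Th := (P.cl (Nat.unpair s).1).2

/-- the prefix of the stage -/
def pf (s : ℕ) : List Bool := pfxT (P.T s) (P.num (P.S s))

/-- the goal of the stage -/
def Sh (s : ℕ) (O : Lang) : Prop :=
  Sh2 (P.S s) (P.T s) (Nat.unpair s).2 (2 ^ (3 * P.l s + 13) - 2) O

/-- the oracle with the finite set `F` -/
noncomputable def OF (F : Finset (List Bool)) : Lang := Clo P.ext P.R (LF F)

/-- the bound for the questions -/
def L (s : ℕ) : ℕ := LLn (P.S s) (Nat.unpair s).2 (2 ^ (3 * P.l s + 13) - 2)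

/-- the conditions -/
structure Ok (α : ℕ → ℕ) : Prop where
  mono : StrictMono P.l
  eight : ∀ s, 8 ≤ P.l s
  pre : ∀ s, (P.pf s).length ≤ P.l s
  size : ∀ s, P.L s * P.L s < 2 ^ (2 ^ (P.l s + 1) - 1)
  card : ∀ s, P.L s * P.L s + 1 ≤ (2 ^ (P.l s + 1) - 1 + 2) ^ P.E s
  next : ∀ s, P.L s < P.l (s + 1)
  few : ∀ s n, 2 ^ (P.l s + 1) - 1 ≤ n → TPar.tot P.E (s + 1) n ≤ α n

/-- the set can be added -/
def Cand (s : ℕ) (F Δ : Finset (List Bool)) : Prop :=
  Δ.Nonempty ∧ Δ.card ≤ P.L s * P.L s + 1 ∧ (∀ x ∈ Δ, ∃ y : List Bool, x = P.pf s ++ y ∧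
    y.length + 1 = 2 ^ (P.l s + 1)) ∧ P.Sh s (P.OF (F ∪ Δ))

/-- the pair is treated at stage `s` -/
def Go (s : ℕ) (F : Finset (List Bool)) : Prop :=
  (∀ y, P.pf s ++ y ∉ F) ∧ ∃ Δ, P.Cand s F Δ

open Classical in
/-- one stage -/
noncomputable def step (s : ℕ) (F : Finset (List Bool)) : Finset (List Bool) :=
  if h : P.Go s F then F ∪ h.2.choose else F

/-- the finite sets -/
noncomputable def F : ℕ → Finset (List Bool)
  | 0 => ∅
  | s + 1 => P.step s (F s)

open Classical in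
/-- the set -/
noncomputable def W : Lang := fun x => decide (∃ s, x ∈ P.F s)

/-- the oracle -/
noncomputable def O : Lang := Clo P.ext P.R P.W

/-- the string is added at stage `s` -/
def Add (s : ℕ) (x : List Bool) : Prop := x ∈ P.F (s + 1) ∧ x ∉ P.F s

end PPar

theorem lln_pb (S : Th) (a : ℕ) : SEQ_PB (fun N => LLn S a N) := by
  have h1 : SEQ_PB (fun N => N ^ a + a) := SEQ_add (SEQ_pow SEQ_id _) (SEQ_const _)
  exact SEQ_add (SEQ_add h1 (SEQ_pow (SEQ_add h1 (SEQ_const 2)) _)) (SEQ_const 1)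

theorem pexists_E (S : Th) (a b : ℕ) : ∃ E : ℕ, ∀ᶠ l : ℕ in atTop, 8 ≤ l ∧ b ≤ l ∧
    LLn S a (2 ^ (3 * l + 13) - 2) * LLn S a (2 ^ (3 * l + 13) - 2) < 2 ^ (2 ^ (l + 1) - 1) ∧
    LLn S a (2 ^ (3 * l + 13) - 2) * LLn S a (2 ^ (3 * l + 13) - 2) + 1 ≤
      (2 ^ (l + 1) - 1 + 2) ^ E := by
  obtain ⟨e, he⟩ := lln_pb S a
  have h0 : ∀ l : ℕ, LLn S a (2 ^ (3 * l + 13) - 2) ≤ 2 ^ (13 * e * (l + 1)) := by
    intro l
    refine (he _).trans ?_
    have h1 : 2 ^ 1 ≤ 2 ^ (3 * l + 13) := Nat.pow_le_pow_right (by norm_num) (by omega)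
    have h2 : 2 ^ (3 * l + 13) - 2 + 2 = 2 ^ (3 * l + 13) := by omega
    rw [h2, ← pow_mul]
    refine Nat.pow_le_pow_right (by norm_num) ?_
    have h3 : 13 * e * (l + 1) = (13 * l + 13) * e := by ring
    rw [h3]
    exact Nat.mul_le_mul_right _ (by omega)
  have h5 : ∀ l : ℕ, LLn S a (2 ^ (3 * l + 13) - 2) * LLn S a (2 ^ (3 * l + 13) - 2) ≤
      2 ^ (26 * e * (l + 1)) := by
    intro l
    refine (Nat.mul_le_mul (h0 l) (h0 l)).trans (le_of_eq ?_)
    rw [← pow_add]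
    congr 1
    ring
  refine ⟨26 * e + 1, ?_⟩
  have h6 : ∀ᶠ l : ℕ in atTop, 26 * e * (l + 1) + 1 < 2 ^ l :=
    SEQ_lt (SEQ_add (SEQ_mul (SEQ_const (26 * e)) (SEQ_add SEQ_id (SEQ_const 1))) (SEQ_const 1))
  filter_upwards [h6, eventually_ge_atTop 8, eventually_ge_atTop b] with l h6 h7 h8
  refine ⟨h7, h8, (h5 l).trans_lt (Nat.pow_lt_pow_right (by norm_num) ?_), ?_⟩
  · have h9 : 2 ^ (l + 1) = 2 * 2 ^ l := by ring
    omega
  · have h9 := Nat.one_le_two_pow (n := l + 1)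
    have h10 : 2 ^ (26 * e * (l + 1)) ≤ (2 ^ (l + 1) - 1 + 2) ^ (26 * e) := by
      rw [mul_comm, pow_mul]
      exact Nat.pow_le_pow_left (by omega) _
    rw [pow_succ (2 ^ (l + 1) - 1 + 2) (26 * e)]
    have h11 : 1 ≤ (2 ^ (l + 1) - 1 + 2) ^ (26 * e) := Nat.one_le_pow _ _ (by omega)
    have h12 := h5 l
    have h13 : (2 ^ (l + 1) - 1 + 2) ^ (26 * e) * 2 ≤
        (2 ^ (l + 1) - 1 + 2) ^ (26 * e) * (2 ^ (l + 1) - 1 + 2) :=
      Nat.mul_le_mul_left _ (by omega)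
    omega

theorem pexists_par {ext : List Bool → Finset (List Bool)} (hext : Adm ext) (R : Lang)
    (num : Th → ℕ) (hnum : Function.Injective num) (cl : ℕ → Th × Th) {α : ℕ → ℕ}
    (hα : SuperPoly α) :
    ∃ P : PPar, P.Ok α ∧ P.ext = ext ∧ P.R = R ∧ P.num = num ∧ P.cl = cl := by
  have h0 := fun s : ℕ => pexists_E (cl (Nat.unpair s).1).1 (Nat.unpair s).2
    (pfxT (cl (Nat.unpair s).1).2 (num (cl (Nat.unpair s).1).1)).length
  choose E hE using h0
  have hlt : Tendsto (fun l : ℕ => 2 ^ (l + 1) - 1) atTop atTop := by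
    refine tendsto_atTop_mono (fun l => ?_) tendsto_id
    have h1 : l + 1 < 2 ^ (l + 1) := Nat.lt_two_pow_self
    show l ≤ _
    omega
  obtain ⟨l, h1, h2⟩ := SEQ_gen (P := fun s l => (8 ≤ l ∧
      (pfxT (cl (Nat.unpair s).1).2 (num (cl (Nat.unpair s).1).1)).length ≤ l ∧
      LLn (cl (Nat.unpair s).1).1 (Nat.unpair s).2 (2 ^ (3 * l + 13) - 2) *
        LLn (cl (Nat.unpair s).1).1 (Nat.unpair s).2 (2 ^ (3 * l + 13) - 2) <
        2 ^ (2 ^ (l + 1) - 1) ∧
      LLn (cl (Nat.unpair s).1).1 (Nat.unpair s).2 (2 ^ (3 * l + 13) - 2) *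
        LLn (cl (Nat.unpair s).1).1 (Nat.unpair s).2 (2 ^ (3 * l + 13) - 2) + 1 ≤
        (2 ^ (l + 1) - 1 + 2) ^ E s) ∧
      ∀ n, 2 ^ (l + 1) - 1 ≤ n → TPar.tot E (s + 1) n ≤ α n)
    (fun s => (hE s).and (hlt.eventually (superPoly_seq hα (seq_tot E (s + 1)))))
    (fun s l => LLn (cl (Nat.unpair s).1).1 (Nat.unpair s).2 (2 ^ (3 * l + 13) - 2))
  exact ⟨⟨ext, hext, R, num, hnum, cl, E, l⟩, ⟨h1, fun s => (h2 s).1.1.1,
    fun s => (h2 s).1.1.2.1, fun s => (h2 s).1.1.2.2.1, fun s => (h2 s).1.1.2.2.2,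
    fun s => (h2 s).2, fun s => (h2 s).1.2⟩, rfl, rfl, rfl, rfl⟩

section

variable (P : PPar)

theorem pF_succ (s : ℕ) : P.F (s + 1) = P.step s (P.F s) := rfl

theorem pF_sub (s : ℕ) : P.F s ⊆ P.F (s + 1) := by
  rw [pF_succ]
  unfold PPar.step
  split_ifs
  · exact Finset.subset_union_left
  · exact Finset.Subset.refl _

theorem pF_mono {s t : ℕ} (h : s ≤ t) : P.F s ⊆ P.F t := by
  induction t, h using Nat.le_induction with
  | base => exact Finset.Subset.refl _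
  | succ t _ ih => exact ih.trans (pF_sub P t)

theorem padd_spec {s : ℕ} {x : List Bool} (h : P.Add s x) :
    (∀ y, P.pf s ++ y ∉ P.F s) ∧ ∃ Δ, P.F (s + 1) = P.F s ∪ Δ ∧ x ∈ Δ ∧ P.Cand s (P.F s) Δ := by
  classical
  obtain ⟨h1, h2⟩ := h
  rw [pF_succ] at h1 ⊢
  unfold PPar.step at h1 ⊢
  split_ifs at h1 ⊢ with hg
  · rcases Finset.mem_union.1 h1 with h3 | h3
    · exact absurd h3 h2
    · exact ⟨hg.1, _, rfl, h3, hg.2.choose_spec⟩
  · exact absurd h1 h2

theorem pexists_add {x : List Bool} (h : P.W x = true) : ∃ s, P.Add s x := by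
  classical
  have h1 : ∃ s, x ∈ P.F s := of_decide_eq_true h
  have h2 := Nat.find_spec h1
  rcases hk : Nat.find h1 with _ | k
  · rw [hk] at h2
    exact absurd h2 (by simp [PPar.F])
  · rw [hk] at h2
    exact ⟨k, h2, Nat.find_min h1 (by omega)⟩

theorem pW_of_mem {s : ℕ} {x : List Bool} (h : x ∈ P.F s) : P.W x = true := by
  classical
  exact decide_eq_true (p := ∃ s, x ∈ P.F s) ⟨s, h⟩

variable {P} {α : ℕ → ℕ} (hP : P.Ok α)

include hP

/-- late strings are long -/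
theorem pmem_F_of_short {s : ℕ} {x : List Bool} (h : P.W x = true)
    (hx : x.length + 1 < 2 ^ (P.l s + 1)) : x ∈ P.F s := by
  obtain ⟨t, ht⟩ := pexists_add P h
  obtain ⟨-, Δ, -, hxΔ, -, -, hΔ, -⟩ := padd_spec P ht
  obtain ⟨y, hy, hc⟩ := hΔ x hxΔ
  have h1 : y.length ≤ x.length := by rw [hy, List.length_append]; omega
  have h2 : t < s := by
    by_contra hcon
    have h3 : 2 ^ (P.l s + 1) ≤ 2 ^ (P.l t + 1) :=
      Nat.pow_le_pow_right (by norm_num) (by
        have := hP.mono.monotone (Nat.not_lt.1 hcon)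
        omega)
    omega
  exact pF_mono P (Nat.succ_le_of_lt h2) ht.1

theorem pagree_W {s N : ℕ} (hN : N < 2 ^ (P.l s + 1)) {x : List Bool} (hx : x.length ≤ N) :
    P.OF (P.F s) x = P.O x := by
  refine agree_clo P.hext (clo_isClo P.hext _ _) (clo_isClo P.hext _ _) (m := N) ?_ hx
  intro y hy
  show decide (y ∈ P.F s) = P.W y
  rw [Bool.eq_iff_iff, decide_eq_true_eq]
  exact ⟨pW_of_mem P, fun h => pmem_F_of_short hP h (by omega)⟩

theorem psh_W (s : ℕ) : P.Sh s (P.OF (P.F (s + 1))) ↔ P.Sh s P.O := by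
  have h1 := hP.next s
  have h2 : P.l (s + 1) + 1 < 2 ^ (P.l (s + 1) + 1) := Nat.lt_two_pow_self
  have h3 : ∀ x : List Bool, x.length ≤ P.l (s + 1) → P.OF (P.F (s + 1)) x = P.O x :=
    fun x hx => pagree_W hP (N := P.l (s + 1)) (by omega) hx
  exact ⟨sh2_congr (M := P.l (s + 1)) (show P.L s ≤ _ by omega) (fun x hx => (h3 x hx).symm),
    sh2_congr (M := P.l (s + 1)) (show P.L s ≤ _ by omega) h3⟩

/-- a pair that is never treated successfully -/
theorem pnot_sh {s : ℕ} (hm : ∀ y, P.W (P.pf s ++ y) = false) : ¬ P.Sh s P.O := by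
  classical
  intro hsh
  have hfr : ∀ z, P.pf s ++ z ∉ P.F s := fun z hz => by
    have h2 := pW_of_mem P hz
    rw [hm] at h2
    exact Bool.false_ne_true h2
  have hno : ¬ P.Go s (P.F s) := by
    intro hgo
    obtain ⟨⟨x, hx⟩, -, hform, -⟩ := hgo.2.choose_spec
    obtain ⟨y, rfl, -⟩ := hform x hx
    have h1 : P.pf s ++ y ∈ P.F (s + 1) := by
      rw [pF_succ]
      unfold PPar.step
      rw [dif_pos hgo]
      exact Finset.mem_union_right _ hx
    have h2 := pW_of_mem P h1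
    rw [hm] at h2
    exact Bool.false_ne_true h2
  have hF : P.F (s + 1) = P.F s := by
    rw [pF_succ]
    unfold PPar.step
    rw [dif_neg hno]
  rw [← psh_W hP, hF] at hsh
  obtain ⟨Q, hQ, -, hQ2⟩ := sh2_q hsh
  have hC : ((strs (2 ^ (P.l s + 1) - 1)).image (fun y => P.pf s ++ y)).card =
      2 ^ (2 ^ (P.l s + 1) - 1) := by
    rw [Finset.card_image_of_injective _ (fun a b hab => List.append_cancel_left hab), card_strs]
  obtain ⟨Δ, hΔ, hne, hcard, hbl⟩ := exists_blind P.hext Q _ (by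
    rw [hC]
    exact hQ.trans_lt (hP.size s))
  have hform : ∀ x ∈ Δ, ∃ y : List Bool, x = P.pf s ++ y ∧
      y.length + 1 = 2 ^ (P.l s + 1) := by
    intro x hx
    obtain ⟨y, hy, rfl⟩ := Finset.mem_image.1 (hΔ hx)
    refine ⟨_, rfl, ?_⟩
    rw [mem_strs.1 hy]
    have := Nat.one_le_two_pow (n := P.l s + 1)
    omega
  refine hno ⟨hfr, Δ, hne, hcard.trans (Nat.succ_le_succ hQ), hform, hQ2 _ (fun x hx => ?_)⟩
  have hdis : Disjoint (P.F s) Δ := by
    rw [Finset.disjoint_right]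
    intro y hy
    obtain ⟨z, rfl, -⟩ := hform y hy
    exact hfr z
  have h1 := xor_clo P.hext (clo_isClo P.hext P.R (LF (P.F s ∪ Δ)))
    (clo_isClo P.hext P.R (LF (P.F s))) (clo_isClo P.hext (fun _ => false) (LF Δ))
    (m := x.length) (fun y _ => LF_union hdis y) x.length x le_rfl le_rfl
  rw [show Clo P.ext (fun _ => false) (LF Δ) x = false from hbl x hx] at h1
  exact eq_of_xor_false h1

theorem pcard (s : ℕ) : (P.F (s + 1)).card ≤ (P.F s).card + (2 ^ (P.l s + 1) - 1 + 2) ^ P.E s := by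
  classical
  rw [pF_succ]
  unfold PPar.step
  split_ifs with hg
  · refine (Finset.card_union_le _ _).trans (Nat.add_le_add_left ?_ _)
    exact hg.2.choose_spec.2.1.trans (hP.card s)
  · exact Nat.le_add_right _ _

theorem pfew : Pool.Agent.FS.Few α P.W := by
  classical
  have hlt : ∀ s, P.l s ≤ 2 ^ (P.l s + 1) - 1 := by
    intro s
    have h1 : P.l s + 1 < 2 ^ (P.l s + 1) := Nat.lt_two_pow_self
    omega
  have hex : ∀ n, ∃ s, n < 2 ^ (P.l s + 1) - 1 := fun n => ⟨n + 1, by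
    have h1 := hP.mono.id_le (n + 1)
    have h2 := hlt (n + 1)
    show n < _
    have h3 : n + 1 ≤ P.l (n + 1) := h1
    omega⟩
  intro n
  have h0 := Nat.find_spec (hex n)
  have h1 : ∀ s, s < Nat.find (hex n) → 2 ^ (P.l s + 1) - 1 ≤ n := fun s hs =>
    Nat.not_lt.1 (Nat.find_min (hex n) hs)
  have h2 : {x : List Bool | x.length ≤ n ∧ P.W x = true} ⊆
      ((P.F (Nat.find (hex n)) : Finset (List Bool)) : Set (List Bool)) := by
    rintro x ⟨hx, hW⟩
    exact Finset.mem_coe.2 (pmem_F_of_short hP hW (by omega))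
  refine (Set.ncard_le_ncard h2 (Finset.finite_toSet _)).trans ?_
  rw [Set.ncard_coe_finset]
  have h3 : ∀ s, (∀ i, i < s → 2 ^ (P.l i + 1) - 1 ≤ n) → (P.F s).card ≤ TPar.tot P.E s n := by
    intro s
    induction s with
    | zero => intro _; exact Nat.zero_le _
    | succ s ih =>
      intro hs
      refine (pcard hP s).trans ?_
      have h4 := ih (fun i hi => hs i (by omega))
      have h5 : (2 ^ (P.l s + 1) - 1 + 2) ^ P.E s ≤ (n + 2) ^ P.E s :=
        Nat.pow_le_pow_left (by have := hs s (Nat.lt_succ_self s); omega) _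
      unfold TPar.tot at h4 ⊢
      rw [Finset.sum_range_succ]
      omega
  have h4 := h3 _ h1
  rcases Nat.eq_zero_or_pos (Nat.find (hex n)) with h7 | h7
  · have h8 : TPar.tot P.E (Nat.find (hex n)) n = 0 := by
      rw [h7]
      rfl
    omega
  · have h8 := hP.few (Nat.find (hex n) - 1) n (h1 _ (by omega))
    have h10 : Nat.find (hex n) - 1 + 1 = Nat.find (hex n) := by omega
    rw [h10] at h8
    omega

end

/-- **Q1 and CON are true relative to some closed oracle with a sparse right part.** -/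
theorem clo_both {ext : List Bool → Finset (List Bool)} (hext : Adm ext) (R : Lang)
    {α : ℕ → ℕ} (hα : SuperPoly α) :
    ∃ H O : Lang, Pool.Agent.FS.Few α H ∧ IsClo ext R H O ∧
      (∃ B, BaseD O B ∧ ∀ σ, S12 σ → B σ) ∧
      ∀ B, BaseD O B → ∀ S, InT O B S → ∃ T, InT O B T ∧
        ¬ PolyBounded O S (RFN T) ∧ ¬ PolyBounded O S (Con T) := by
  have hc : Countable Cmd := Function.Injective.countable cEnc_inj
  obtain ⟨num, hnum⟩ := exists_injective_nat Th
  have : Nonempty (Th × Th) := ⟨((Cmd.skip, 0), (Cmd.skip, 0))⟩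
  obtain ⟨cl, hcl⟩ := exists_surjective_nat (Th × Th)
  obtain ⟨P, hP, rfl, rfl, rfl, rfl⟩ := pexists_par hext R num hnum cl hα
  refine ⟨P.W, P.O, pfew hP, clo_isClo P.hext P.R P.W, base_all _, fun B hB S hS => ?_⟩
  have hright : ∀ x, P.O (true :: x) = P.W x := (clo_isClo P.hext P.R P.W).right
  obtain ⟨T, hTh, hax⟩ := Pool.Agent.FS.exists_T hB (P.num S)
  have hextT : ∀ σ, B σ → Ax P.O T σ := fun σ hσ => (hax σ).mpr (Or.inl hσ)
  -- the pair is never treated successfully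
  have hno : ∀ y, P.W (pfxT T (P.num S) ++ y) = false := by
    intro y
    by_contra hcon
    have hW : P.W (pfxT T (P.num S) ++ y) = true := by simpa using hcon
    obtain ⟨s, hs⟩ := pexists_add P hW
    obtain ⟨-, Δ, h2, hx, -, -, hform, h4⟩ := padd_spec P hs
    obtain ⟨y', hy', h3⟩ := hform _ hx
    obtain ⟨h6, h7, h8⟩ := pfxT_inj hy'
    have h9 := hnum h7
    subst h8
    rw [← h2, psh_W hP] at h4
    have h5 : Sh2 S T (Nat.unpair s).2 (2 ^ (3 * P.l s + 13) - 2) P.O := by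
      have h10 : Sh2 (P.S s) (P.T s) (Nat.unpair s).2 (2 ^ (3 * P.l s + 13) - 2) P.O := h4
      rwa [← h6, show P.S s = S from h9.symm] at h10
    refine fin_false2 hB hS hextT (hP.eight s) ((hax _).2 (Or.inr ⟨P.l s, hP.eight s, rfl⟩))
      ?_ h3 ?_ h5
    · have h10 := hP.pre s
      have h11 : P.pf s = pfxT T (P.num S) := by
        show pfxT (P.T s) (P.num (P.S s)) = _
        rw [← h6, show P.S s = S from h9.symm]
      rwa [h11] at h10
    · rw [hright]
      exact hW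
  have htrue : ∀ σ, Ax P.O T σ → σ.True P.O := by
    intro σ hσ
    rcases (hax σ).mp hσ with h | ⟨l, h8, rfl⟩
    · exact hB.isTrue σ h
    · refine Pool.Agent.FS.t1F_true (fun y _ hy => ?_)
      rw [hright, hno] at hy
      exact Bool.false_ne_true hy
  have key : ∀ c0 : ℕ, ∃ s, (Nat.unpair s).2 = c0 ∧ ¬ Sh2 S T c0 (2 ^ (3 * P.l s + 13) - 2) P.O := by
    intro c0
    obtain ⟨m, hm⟩ := hcl (S, T)
    have hu : Nat.unpair (Nat.pair m c0) = (m, c0) := Nat.unpair_pair _ _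
    have h1 : P.S (Nat.pair m c0) = S := by
      show (P.cl (Nat.unpair (Nat.pair m c0)).1).1 = S
      rw [hu, hm]
    have h2 : P.T (Nat.pair m c0) = T := by
      show (P.cl (Nat.unpair (Nat.pair m c0)).1).2 = T
      rw [hu, hm]
    have h3 : P.pf (Nat.pair m c0) = pfxT T (P.num S) := by
      show pfxT (P.T _) (P.num (P.S _)) = _
      rw [h1, h2]
    refine ⟨Nat.pair m c0, by rw [hu], ?_⟩
    have h4 := pnot_sh hP (s := Nat.pair m c0) (by rw [h3]; exact hno)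
    have h5 : P.Sh (Nat.pair m c0) P.O ↔
        Sh2 S T c0 (2 ^ (3 * P.l (Nat.pair m c0) + 13) - 2) P.O := by
      show Sh2 _ _ _ _ _ ↔ _
      rw [h1, h2, hu]
    rwa [h5] at h4
  refine ⟨T, ⟨hTh, hextT, ?_, ?_⟩, ?_, ?_⟩
  · intro σ hσ
    rcases (hax σ).mp hσ with h | ⟨l, -, rfl⟩
    · exact hB.closed σ h
    · exact Pool.Agent.FS.t1F_closed _ _
  · intro h
    have h1 := sound htrue h (fun _ => 0)
    exact h1 rfl
  · rintro ⟨c0, hc0⟩
    obtain ⟨s, -, h⟩ := key c0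
    exact h (Or.inl (hc0 _))
  · rintro ⟨c0, hc0⟩
    obtain ⟨s, -, h⟩ := key c0
    exact h (Or.inr (hc0 _))

end Pool.Agent.TCA
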