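import Pool.Agent.Lib_helper94.TCA.TBuild

/-!
# Q1 is true and the variant with consistency is false, in a closed oracle
-/

set_option autoImplicit false

namespace Pool.Agent.TCA

open Pool.Agent.CK Pool.Agent.RF Pool.Agent.CKP Pool.Agent.RO Pool.Agent.ADV Filter
open Pool.Agent.AEC (Adm IsClo par par_congr Loc fixO fixO_eq)
open Pool.Agent.TC (ad ad_len ad_inj ins addD ins_inj conE conE_good conE_ref conE_ok
  conE_at witF_len e1 of_mu mu_of witF witF_true not_rfn exists_TW)
open Pool.Agent.FS (cod pfxT pfxT_inj)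

/-- The oracle of a construction: CON is false, and for every `S` in the class there is `T` in the
class such that no stage of the pair has reached its goal. -/
theorem mixed_core {P : TPar} {F : ℕ → Finset (List Bool)}
    {D : ℕ → Finset (List Bool × List Bool)} (hP : P.Ok) (hF0 : F 0 = ∅)
    (hF : ∀ s, P.Out s (F s) (F (s + 1)) (D s))
    (hlen : ∀ u : List Bool, Nat.size (val (pEnc [witF u])) ≤ NN P.c u.length ∧
      Nat.size e1 ≤ NN P.c u.length ∧ Nat.size (val u) ≤ NN P.c u.length ∧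
      Nat.size (zz u.length) ≤ NN P.c u.length) {B : Fm → Prop} (hB : Base (P.O (YF F)) B) :
    (∃ S, InT (P.O (YF F)) B S ∧ ∀ T, InT (P.O (YF F)) B T →
      EasyProofs (P.O (YF F)) S (RF.Con T)) ∧
    ∀ S, InT (P.O (YF F)) B S → ∃ T, InT (P.O (YF F)) B T ∧
      ∀ s, P.S s = S → P.T s = T → ¬ P.Sh s (P.O (YF F)) := by
  have hnum := P.hnum
  have hg := xg_big hP
  have hG : ∀ e, GF e → e.Good := fun e he => he.1
  have hTly : Tly GF P.g (P.O (YF F)) := OX_tally P.hext hG (YF F) P.R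
  refine ⟨?_, ?_⟩
  · obtain ⟨S, hS, hax⟩ := xexists_S (G := GF) hG hTly hg hB
    refine ⟨S, hS, fun T hT => ?_⟩
    have h1 := xeasy_test (G := GF) hTly hg hax (conE T) ⟨conE_good T, conE_ref T⟩ (conE_ok hT)
    rwa [conE_at] at h1
  intro S hS
  obtain ⟨T, hTh, hax⟩ := exists_TW hB (P.num S)
  have hextT : ∀ σ, B σ → Ax (P.O (YF F)) T σ := fun σ hσ => (hax σ).mpr (Or.inl hσ)
  -- stages of the pair
  have hst : ∀ s, P.S s = S → P.T s = T → P.pf s = pfxT T (P.num S) := by
    intro s h1 h2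
    show pfxT (P.T s) (P.num (P.S s)) = _
    rw [h1, h2]
  have hst' : ∀ (s : ℕ) (u v : List Bool), ins (P.pf s) u = ins (pfxT T (P.num S)) v →
      P.S s = S ∧ P.T s = T ∧ u = v := by
    intro s u v h
    obtain ⟨h1, h2, h3⟩ := pfxT_inj (List.cons.inj h).2
    exact ⟨hnum h2, h1, h3⟩
  -- there is no flag without witness
  have hnoB : ∀ s, P.S s = S → P.T s = T → ∀ u : List Bool, u.length = P.nn s →
      ad (ins (P.pf s) u) [] ∈ F (s + 1) → (∀ d ∈ D s, d.1 ≠ u) →
      ¬ P.Sh s (P.O (LF (F (s + 1)))) := by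
    intro s hs1 hs2 u hu hfl hno hSh
    rw [← xsh_iff hP hF0 hF] at hSh
    have hz : ins (P.pf s) u = true :: (pfxT T (P.num S) ++ u) := by
      rw [hst s hs1 hs2]
      rfl
    have hM : ¬ MuT (P.O (YF F)) e1 (val (ins (P.pf s) u)) (zz (ins (P.pf s) u).length) := by
      intro hM
      rcases of_mu hM with h1 | ⟨y, hy, h1⟩
      · rw [xO_ad, YF_iff.2 ⟨s + 1, hfl⟩] at h1
        exact Bool.noConfusion h1
      · rw [xO_ad] at h1
        obtain ⟨t, h2, h3⟩ := xexists_stage hF0 h1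
        rcases xout_new (hF t) h2 h3 with ⟨d, hd, h4 | h4⟩ | ⟨v, hv, h4, -⟩
        · exact hy (ad_inj h4).2
        · obtain ⟨h5, h6⟩ := ad_inj h4
          rw [hst s hs1 hs2] at h5
          obtain ⟨h7, h8, h9⟩ := hst' t _ _ h5.symm
          have h10 := ((hF t).2.1 d hd).1
          have h11 : P.nn t = P.nn s := by rw [← h10, h9, hu]
          have h12 := hP.mono.injective h11
          subst h12
          exact hno d hd h9
        · exact hy (ad_inj h4).2
    obtain ⟨l, hl, -⟩ := hSh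
    rw [hs1, hs2] at hl
    unfold TPar.N at hl
    have hzl : (ins (P.pf s) u).length = P.nn s + ((P.pf s).length + 1) := by
      unfold ins
      rw [List.length_cons, List.length_append, hu]
      omega
    obtain ⟨g1, g2, g3, g4⟩ := hlen (ins (P.pf s) u)
    rw [← hzl] at hl
    have hR : ¬ RfnT (P.O (YF F)) T (NN P.c (ins (P.pf s) u).length) := by
      refine not_rfn ((hax _).2 (Or.inr ⟨u, ?_⟩)) hM g1 g2 g3 g4
      rw [hz]
    have h1 : ¬ (RFN T (NN P.c (ins (P.pf s) u).length)).True (P.O (YF F)) := fun hh =>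
      hR ((holds_RFN _ (fun _ => 0) T _).mp (hh _))
    exact hS.cons (prv_bot ⟨l, hl⟩ (prv_mono hS.ext (hB.refRFN T _ h1)))
  -- the axioms are true
  have htrue : ∀ σ, Ax (P.O (YF F)) T σ → σ.True (P.O (YF F)) := by
    intro σ hσ
    rcases (hax σ).mp hσ with h | ⟨u, rfl⟩
    · exact hB.isTrue σ h
    refine witF_true ?_
    show MuT _ e1 (val (ins (pfxT T (P.num S)) u)) (zz (ins (pfxT T (P.num S)) u).length)
    cases hO : P.O (YF F) (true :: ad (ins (pfxT T (P.num S)) u) []) with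
    | false => exact mu_of (y := []) (Nat.zero_le _) (Or.inl ⟨rfl, hO⟩)
    | true =>
      rw [xO_ad] at hO
      obtain ⟨t, h2, h3⟩ := xexists_stage hF0 hO
      rcases xout_new (hF t) h2 h3 with ⟨d, hd, h4 | h4⟩ | ⟨v, hv, h4, h5, h6⟩
      · obtain ⟨h5, -⟩ := ad_inj h4
        obtain ⟨h7, h8, h9⟩ := hst' t _ _ h5.symm
        obtain ⟨h10, h11⟩ := (hF t).2.1 d hd
        have h12 : ad (ins (P.pf t) d.1) d.2 ∈ F (t + 1) := by
          refine xout_sub (hF t) (Finset.mem_union_right _ ?_)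
          exact Finset.mem_union_right _ (Finset.mem_image.2 ⟨d, hd, rfl⟩)
        refine mu_of (y := d.2) ?_ (Or.inr ⟨?_, ?_⟩)
        · unfold ins
          rw [List.length_cons, List.length_append, ← h9]
          omega
        · intro h13
          have := hP.two t
          rw [h13] at h11
          simp at h11
          omega
        · rw [xO_ad, h5]
          exact YF_iff.2 ⟨t + 1, h12⟩
      · have h5 := (ad_inj h4).2
        have h6 := ((hF t).2.1 d hd).2
        have := hP.two t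
        rw [← h5] at h6
        simp at h6
        omega
      · obtain ⟨h7, -⟩ := ad_inj h4
        obtain ⟨h8, h9, h10⟩ := hst' t _ _ h7.symm
        refine absurd h6 (hnoB t h8 h9 v hv ?_ h5)
        rw [← h4]
        exact h2
  refine ⟨T, ⟨hTh, hextT, ?_, ?_⟩, ?_⟩
  · intro σ hσ
    rcases (hax σ).mp hσ with h | ⟨u, rfl⟩
    · exact hB.closed σ h
    · exact closed_mu _ _ _
  · intro h
    have h1 := sound htrue h (fun _ => 0)
    exact h1 rfl
  · intro s h1 h2 h3
    rw [xsh_iff hP hF0 hF] at h3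
    obtain ⟨-, -, ⟨-, h4⟩ | ⟨U, ⟨u, hu'⟩, -, h5, h6, h7⟩⟩ := hF s
    · exact h4 h3
    · refine hnoB s h1 h2 u (h5 u hu').1 ?_ (h5 u hu').2 h7
      rw [h6]
      exact Finset.mem_union_right _ (Finset.mem_image.2 ⟨u, hu', rfl⟩)

/-- **The third case**, relative to an oracle that is closed under the extension scheme and has a
sparse right part. -/
theorem clo_mixed {ext : List Bool → Finset (List Bool)} (hext : Adm ext) (R : Lang)
    {α : ℕ → ℕ} (hα : SuperPoly α) :
    ∃ H O : Lang, Pool.Agent.FS.Few α H ∧ IsClo ext R H O ∧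
      (∃ B, BaseD O B ∧ ∀ σ, S12 σ → B σ) ∧
      ∀ B, Base O B →
        (∃ S, InT O B S ∧ ∀ T, InT O B T → EasyProofs O S (RF.Con T)) ∧
        ∀ S, InT O B S → ∃ T, InT O B T ∧ ¬ PolyBounded O S (RFN T) := by
  have hc : Countable Cmd := Function.Injective.countable cEnc_inj
  obtain ⟨num, hnum⟩ := exists_injective_nat Th
  have : Nonempty (Th × Th) := ⟨((Cmd.skip, 0), (Cmd.skip, 0))⟩
  obtain ⟨cl, hcl⟩ := exists_surjective_nat (Th × Th)
  obtain ⟨c, hlen⟩ := witF_len
  obtain ⟨P, hP, hs, rfl, rfl, rfl, rfl, rfl, hM⟩ := xexists_par hext R num hnum cl c hα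
  obtain ⟨F, D, hF0, hF⟩ := xexists_F hP
  refine ⟨_, P.O (YF F), xfew_all hP hF0 hF hs, OX_clo P.hext (fun e he => he.1) (YF F) P.R,
    base_all _, fun B hB => ?_⟩
  obtain ⟨h1, h2⟩ := mixed_core hP hF0 hF hlen hB
  refine ⟨h1, fun S hS => ?_⟩
  obtain ⟨T, hT, h3⟩ := h2 S hS
  refine ⟨T, hT, ?_⟩
  rintro ⟨c0, hc0⟩
  obtain ⟨m, hm⟩ := hcl (S, T)
  have hu : Nat.unpair (Nat.pair m c0) = (m, c0) := Nat.unpair_pair _ _
  have g1 : P.S (Nat.pair m c0) = S := by
    show (P.cl (Nat.unpair (Nat.pair m c0)).1).1 = S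
    rw [hu, hm]
  have g2 : P.T (Nat.pair m c0) = T := by
    show (P.cl (Nat.unpair (Nat.pair m c0)).1).2 = T
    rw [hu, hm]
  refine h3 _ g1 g2 ?_
  show ShF _ _ _ _
  rw [g1, g2, hM, hu]
  exact hc0 _

end Pool.Agent.TCA
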