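import Pool.Agent.Lib_helper94.TCA.TMain
import Pool.Agent.Lib_helper78.RO.F.GRO

/-!
# Q1 true with exponential lower bounds, CON false, in a closed oracle
-/

set_option autoImplicit false

namespace Pool.Agent.TCA

open Pool.Agent.CK Pool.Agent.RF Pool.Agent.CKP Pool.Agent.RO Pool.Agent.ADV Filter
open Pool.Agent.AEC (Adm IsClo par par_congr Loc fixO fixO_eq)
open Pool.Agent.TC (witF_len e1 witF)
open Pool.Agent.FS (pfxT pfxT_inj)

/-- the length of the instances -/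
def nX (t : ℕ) : ℕ := 2 ^ (4 * t)

/-- the number of levels -/
def kX (t : ℕ) : ℕ := 3 * t - (ix (nX t) + 2)

/-- the bound for the proofs -/
def mX (κ t : ℕ) : ℕ := 2 ^ (2 ^ (3 * t) / (2 * κ + 3))

theorem ix_nX {t : ℕ} (ht : 2 ≤ t) : ix (nX t) + 2 ≤ 3 * t := by
  have h1 : Nat.log 2 (nX t) = 4 * t := Nat.log_pow (by norm_num) _
  unfold ix
  rw [h1]
  have h2 : Nat.log 2 (4 * t) < t + 3 := by
    refine Nat.log_lt_of_lt_pow (by omega) ?_
    have h3 : t < 2 ^ t := Nat.lt_two_pow_self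
    rw [pow_add]
    omega
  rcases Nat.lt_or_ge t 5 with h5 | h5
  · interval_cases t <;> norm_num [Nat.log]
  · omega

theorem lev_nX {t : ℕ} (ht : 2 ≤ t) : ix (nX t) + 1 + kX t + 1 = 3 * t := by
  have := ix_nX ht
  unfold kX
  omega

theorem lev_nX' {t : ℕ} (ht : 2 ≤ t) : ix (nX t) + 1 + kX t = 3 * t - 1 := by
  have := lev_nX ht
  omega

theorem kX_le {t : ℕ} (ht : 2 ≤ t) : kX t + 1 ≤ 3 * t := by
  have := lev_nX ht
  omega

/-- the questions are short -/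
theorem len_mX {S : Th} {t : ℕ} (ht : 2 * S.2 + 3 ≤ t) : LLm S (mX S.2 t) ≤ 2 ^ 2 ^ (3 * t) := by
  set κ := S.2 with hκ
  set d := 2 * κ + 3 with hd
  set v := 2 ^ (3 * t) / d with hv
  have h1 : v * d ≤ 2 ^ (3 * t) := Nat.div_mul_le_self _ _
  have hv1 : 1 ≤ v := by
    rw [hv, Nat.le_div_iff_mul_le (by omega)]
    have h2 : t < 2 ^ t := Nat.lt_two_pow_self
    have h3 : 2 ^ t ≤ 2 ^ (3 * t) := Nat.pow_le_pow_right (by norm_num) (by omega)
    omega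
  have hM : mX κ t = 2 ^ v := rfl
  have h2 : 2 ≤ 2 ^ v := by
    calc 2 = 2 ^ 1 := rfl
      _ ≤ 2 ^ v := Nat.pow_le_pow_right (by norm_num) hv1
  unfold LLm
  rw [← hκ, hM]
  have h3 : (2 ^ v + 2) ^ κ ≤ 2 ^ (2 * v * κ) := by
    rw [pow_mul]
    refine Nat.pow_le_pow_left ?_ κ
    rw [two_mul, pow_add]
    nlinarith
  have h4 : 2 ^ v ≤ 2 ^ (v + 2 * v * κ) := Nat.pow_le_pow_right (by norm_num) (by omega)
  have h5 : 2 ^ (2 * v * κ) ≤ 2 ^ (v + 2 * v * κ) :=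
    Nat.pow_le_pow_right (by norm_num) (by omega)
  have h6 : 2 ^ (v + 2 * v * κ + 2) ≤ 2 ^ 2 ^ (3 * t) := by
    refine Nat.pow_le_pow_right (by norm_num) ?_
    have h7 : v * d = 2 * v * κ + 3 * v := by rw [hd]; ring
    omega
  have h7 : 2 ^ (v + 2 * v * κ + 2) = 4 * 2 ^ (v + 2 * v * κ) := by rw [pow_add]; ring
  have h8 := Nat.one_le_two_pow (n := v + 2 * v * κ)
  omega

theorem xexp_ev (S : Th) (c b A : ℕ) : ∀ᶠ t : ℕ in atTop, 2 ≤ t ∧
    LLm S (mX S.2 t) ≤ 2 ^ 2 ^ (ix (nX t) + 1 + kX t + 1) ∧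
    (LLm S (mX S.2 t) * LLm S (mX S.2 t) +
      A * (2 ^ 2 ^ (ix (nX t) + 1 + kX t) * 2 ^ 2 ^ (ix (nX t) + 1 + kX t)) + 1) *
      2 ^ (A * (kX t + 1)) < 2 ^ nX t ∧
    NN c (nX t + b) < (Nat.log 2 (mX S.2 t) + 1) ^ 7 := by
  have e1 : ∀ᶠ t : ℕ in atTop, A + 2 + A * (3 * t) < 2 ^ t :=
    SEQ_lt (SEQ_add (SEQ_const (A + 2)) (SEQ_mul (SEQ_const A) (SEQ_mul (SEQ_const 3) SEQ_id)))
  have e2 : ∀ᶠ t : ℕ in atTop, 32 * (c * (2 * S.2 + 3) ^ 7) < 2 ^ t := SEQ_lt (SEQ_const _)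
  filter_upwards [e1, e2, eventually_ge_atTop (2 * S.2 + 3), eventually_ge_atTop 2,
    eventually_ge_atTop (b + 2)] with t h1 h2 h3 h4 h5
  have hL := len_mX (S := S) h3
  refine ⟨h4, by rw [lev_nX h4]; exact hL, ?_, ?_⟩
  · have g1 : 2 ^ 2 ^ (ix (nX t) + 1 + kX t) * 2 ^ 2 ^ (ix (nX t) + 1 + kX t) =
        2 ^ 2 ^ (3 * t) := by
      rw [← pow_add, ← two_mul, ← pow_succ', lev_nX h4]
    rw [g1]
    set w := 2 ^ (3 * t) with hw
    have g2 : LLm S (mX S.2 t) * LLm S (mX S.2 t) ≤ 2 ^ (2 * w) := by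
      rw [two_mul, pow_add]
      exact Nat.mul_le_mul hL hL
    have g3 : A * 2 ^ w ≤ 2 ^ (A + 2 * w) := by
      rw [pow_add]
      refine Nat.mul_le_mul (Nat.lt_two_pow_self).le ?_
      exact Nat.pow_le_pow_right (by norm_num) (by omega)
    have g4 : 2 ^ (2 * w) ≤ 2 ^ (A + 2 * w) := Nat.pow_le_pow_right (by norm_num) (by omega)
    have g5 : LLm S (mX S.2 t) * LLm S (mX S.2 t) + A * 2 ^ w + 1 ≤ 2 ^ (A + 2 * w + 2) := by
      have g6 : 2 ^ (A + 2 * w + 2) = 4 * 2 ^ (A + 2 * w) := by rw [pow_add _ _ 2]; ring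
      have g7 := Nat.one_le_two_pow (n := A + 2 * w)
      omega
    refine (Nat.mul_le_mul_right _ g5).trans_lt ?_
    rw [← pow_add]
    refine Nat.pow_lt_pow_right (by norm_num) ?_
    have g6 : A * (kX t + 1) ≤ A * (3 * t) := Nat.mul_le_mul_left _ (kX_le h4)
    have g7 : nX t = 2 ^ t * w := by
      rw [hw, nX, ← pow_add]
      congr 1
      omega
    have g8 : 2 ^ 2 ≤ 2 ^ t := Nat.pow_le_pow_right (by norm_num) h4
    have g9 : 2 ^ t ≤ w := Nat.pow_le_pow_right (by norm_num) (by omega)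
    have g10 : 4 * w ≤ 2 ^ t * w := Nat.mul_le_mul_right _ g8
    rw [g7]
    omega
  · have hlog : Nat.log 2 (mX S.2 t) = 2 ^ (3 * t) / (2 * S.2 + 3) :=
      Nat.log_pow (by norm_num) _
    rw [hlog]
    set d := 2 * S.2 + 3 with hd
    have hd0 : 0 < d := by omega
    have g1 : 2 ^ (3 * t) ≤ (2 ^ (3 * t) / d + 1) * d := by
      have := Nat.div_add_mod (2 ^ (3 * t)) d
      have h7 := Nat.mod_lt (2 ^ (3 * t)) hd0
      nlinarith
    have g2 : (2 ^ (3 * t)) ^ 7 ≤ (2 ^ (3 * t) / d + 1) ^ 7 * d ^ 7 := by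
      rw [← mul_pow]
      exact Nat.pow_le_pow_left g1 7
    have g3 : nX t + b + 2 ≤ 2 * nX t := by
      have h6 : t < 2 ^ t := Nat.lt_two_pow_self
      have h7 : 2 ^ t ≤ nX t := Nat.pow_le_pow_right (by norm_num) (by omega)
      omega
    have g4 : NN c (nX t + b) ≤ 32 * c * (2 ^ (20 * t)) := by
      unfold NN
      calc c * (nX t + b + 2) ^ 5 ≤ c * (2 * nX t) ^ 5 :=
            Nat.mul_le_mul_left _ (Nat.pow_le_pow_left g3 5)
        _ = 32 * c * (nX t) ^ 5 := by ring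
        _ = 32 * c * 2 ^ (20 * t) := by
            unfold nX
            rw [← pow_mul]
            congr 2
            ring
    have g5 : (2 ^ (3 * t)) ^ 7 = 2 ^ t * 2 ^ (20 * t) := by
      rw [← pow_mul, ← pow_add]
      congr 1
      ring
    have g6 : 0 < 2 ^ (20 * t) := by positivity
    have g7 : 0 < d ^ 7 := by positivity
    by_contra hcon
    rw [not_lt] at hcon
    have g8 : 2 ^ t * 2 ^ (20 * t) ≤ 32 * (c * d ^ 7) * 2 ^ (20 * t) := by
      calc 2 ^ t * 2 ^ (20 * t) = (2 ^ (3 * t)) ^ 7 := g5.symm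
        _ ≤ (2 ^ (3 * t) / d + 1) ^ 7 * d ^ 7 := g2
        _ ≤ NN c (nX t + b) * d ^ 7 := Nat.mul_le_mul_right _ hcon
        _ ≤ 32 * c * 2 ^ (20 * t) * d ^ 7 := Nat.mul_le_mul_right _ g4
        _ = 32 * (c * d ^ 7) * 2 ^ (20 * t) := by ring
    have g9 := Nat.le_of_mul_le_mul_right g8 g6
    omega

theorem eexists_par {ext : List Bool → Finset (List Bool)} (hext : Adm ext) (R : Lang)
    (num : Th → ℕ) (hnum : Function.Injective num) (cl : ℕ → Th × Th) (c : ℕ) :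
    ∃ P : TPar, P.Ok ∧ P.ext = ext ∧ P.R = R ∧ P.num = num ∧ P.cl = cl ∧ P.c = c ∧
      ∀ s, P.N s < (Nat.log 2 (P.M s) + 1) ^ 7 := by
  obtain ⟨tt, h1, h2⟩ := SEQ_gen (P := fun s t => 2 ≤ t ∧
    LLm (cl (Nat.unpair s).1).1 (mX (cl (Nat.unpair s).1).1.2 t) ≤
      2 ^ 2 ^ (ix (nX t) + 1 + kX t + 1) ∧
    (LLm (cl (Nat.unpair s).1).1 (mX (cl (Nat.unpair s).1).1.2 t) *
        LLm (cl (Nat.unpair s).1).1 (mX (cl (Nat.unpair s).1).1.2 t) +
      (s + 1) * (2 ^ 2 ^ (ix (nX t) + 1 + kX t) * 2 ^ 2 ^ (ix (nX t) + 1 + kX t)) + 1) *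
      2 ^ ((s + 1) * (kX t + 1)) < 2 ^ nX t ∧
    NN c (nX t + ((pfxT (cl (Nat.unpair s).1).2 (num (cl (Nat.unpair s).1).1)).length + 1)) <
      (Nat.log 2 (mX (cl (Nat.unpair s).1).1.2 t) + 1) ^ 7)
    (fun s => xexp_ev _ _ _ _)
    (fun s t => 2 ^ 2 ^ (3 * t))
  refine ⟨⟨ext, hext, R, num, hnum, cl, c, fun s => kX (tt s), fun _ => 0, fun s => nX (tt s),
    fun s => mX (cl (Nat.unpair s).1).1.2 (tt s)⟩,
    ⟨?_, fun s => ?_, fun s => (h2 s).1.2.1, fun s => (h2 s).1.2.2.1, fun s => ?_⟩,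
    rfl, rfl, rfl, rfl, rfl, fun s => (h2 s).1.2.2.2⟩
  · intro i j hij
    show 2 ^ (4 * tt i) < 2 ^ (4 * tt j)
    have := h1 hij
    exact Nat.pow_lt_pow_right (by norm_num) (by omega)
  · show 2 ≤ 2 ^ (4 * tt s)
    have := (h2 s).1.1
    calc 2 = 2 ^ 1 := rfl
      _ ≤ 2 ^ (4 * tt s) := Nat.pow_le_pow_right (by norm_num) (by omega)
  · show 2 ^ 2 ^ (ix (nX (tt s)) + 1 + kX (tt s) + 1) < 2 ^ (4 * tt (s + 1))
    rw [lev_nX (h2 s).1.1]
    refine (h2 s).2.trans_le ?_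
    have h3 : 4 * tt (s + 1) < 2 ^ (4 * tt (s + 1)) := Nat.lt_two_pow_self
    omega

/-- **Q1 is true with exponential lower bounds and CON is false**, relative to an oracle that is
closed under the extension scheme. -/
theorem clo_mixedExp {ext : List Bool → Finset (List Bool)} (hext : Adm ext) (R : Lang) :
    ∃ H O : Lang, IsClo ext R H O ∧ (∃ B, BaseD O B ∧ ∀ σ, S12 σ → B σ) ∧
      ∀ B, Base O B →
        (∃ S, InT O B S ∧ ∀ T, InT O B T → EasyProofs O S (RF.Con T)) ∧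
        ∀ S, InT O B S → ∃ T, InT O B T ∧ ¬ PolyBounded O S (RFN T) ∧
          ∀ m, ∃ n, m ≤ n ∧ ∀ l : List Fm, IsProof (Ax O S) (l ++ [RFN T n]) →
            n < (Nat.size (pEnc (l ++ [RFN T n])).length) ^ 7 := by
  have hc : Countable Cmd := Function.Injective.countable cEnc_inj
  obtain ⟨num, hnum⟩ := exists_injective_nat Th
  have : Nonempty (Th × Th) := ⟨((Cmd.skip, 0), (Cmd.skip, 0))⟩
  obtain ⟨cl, hcl⟩ := exists_surjective_nat (Th × Th)
  obtain ⟨c0, hlen0⟩ := witF_len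
  have hNN : ∀ m, NN c0 m ≤ NN (c0 + 1) m := fun m => Nat.mul_le_mul_right _ (Nat.le_succ c0)
  have hlen : ∀ u : List Bool, Nat.size (val (pEnc [witF u])) ≤ NN (c0 + 1) u.length ∧
      Nat.size e1 ≤ NN (c0 + 1) u.length ∧ Nat.size (val u) ≤ NN (c0 + 1) u.length ∧
      Nat.size (zz u.length) ≤ NN (c0 + 1) u.length := fun u =>
    ⟨(hlen0 u).1.trans (hNN _), (hlen0 u).2.1.trans (hNN _), (hlen0 u).2.2.1.trans (hNN _),
      (hlen0 u).2.2.2.trans (hNN _)⟩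
  obtain ⟨P, hP, rfl, rfl, rfl, rfl, hcc, hN⟩ := eexists_par hext R num hnum cl (c0 + 1)
  obtain ⟨F, D, hF0, hF⟩ := xexists_F hP
  refine ⟨_, P.O (YF F), OX_clo P.hext (fun e he => he.1) (YF F) P.R,
    base_all _, fun B hB => ?_⟩
  obtain ⟨h1, h2⟩ := mixed_core hP hF0 hF (by rw [hcc]; exact hlen) hB
  refine ⟨h1, fun S hS => ?_⟩
  obtain ⟨T, hT, h3⟩ := h2 S hS
  have key : ∀ m, ∃ n, m ≤ n ∧ ∀ l : List Fm, IsProof (Ax (P.O (YF F)) S) (l ++ [RFN T n]) →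
      n < (Nat.size (pEnc (l ++ [RFN T n])).length) ^ 7 := by
    intro m'
    obtain ⟨m, hm⟩ := hcl (S, T)
    have hu : Nat.unpair (Nat.pair m m') = (m, m') := Nat.unpair_pair _ _
    set s := Nat.pair m m' with hs
    have g1 : P.S s = S := by
      show (P.cl (Nat.unpair s).1).1 = S
      rw [hu, hm]
    have g2 : P.T s = T := by
      show (P.cl (Nat.unpair s).1).2 = T
      rw [hu, hm]
    refine ⟨P.N s, ?_, fun l hl => ?_⟩
    · have g3 : m' ≤ s := Nat.right_le_pair _ _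
      have g4 : s ≤ P.nn s := hP.mono.id_le s
      have g5 : P.nn s ≤ P.N s := by
        show _ ≤ P.c * (P.nn s + ((P.pf s).length + 1) + 2) ^ 5
        rw [hcc]
        have g6 : P.nn s ≤ (P.nn s + ((P.pf s).length + 1) + 2) ^ 5 := by
          refine le_trans ?_ (Nat.le_self_pow (by norm_num) _)
          omega
        exact g6.trans (Nat.le_mul_of_pos_left _ (Nat.succ_pos _))
      omega
    · have g3 : ¬ (pEnc (l ++ [RFN T (P.N s)])).length ≤ P.M s := by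
        intro g4
        refine h3 s g1 g2 ?_
        show ShF _ _ _ _
        rw [g1, g2]
        exact ⟨l, hl, g4⟩
      refine (hN s).trans_le (Nat.pow_le_pow_left ?_ 7)
      rcases Nat.eq_zero_or_pos (P.M s) with g5 | g5
      · rw [g5]
        have g6 : 0 < Nat.size (pEnc (l ++ [RFN T (P.N s)])).length := Nat.size_pos.2 (by omega)
        rw [Nat.log_zero_right]
        omega
      · have g6 : 2 ^ Nat.log 2 (P.M s) ≤ P.M s := Nat.pow_log_le_self 2 (by omega)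
        have g7 : Nat.log 2 (P.M s) < Nat.size (pEnc (l ++ [RFN T (P.N s)])).length :=
          Nat.lt_size.2 (by omega)
        omega
  exact ⟨T, hT, not_bounded key, key⟩

end Pool.Agent.TCA
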