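import Pool.Agent.Lib_helper94.TCA.QTrue
import Pool.Agent.Lib_helper94.TCA.PBuild
import Pool.Agent.Lib_helper94.TCA.TMain
import Pool.Agent.Lib_helper94.TCA.XExp
import Pool.Agent.Lib_helper94.TCA.Defs
import Pool.Agent.Lib_helper57.PX.AffThm
import Pool.Agent.Lib_helper57.PX.IsoC

/-! # The worlds with Q1 true, relative to oracles closed under multilinear extensions -/

set_option autoImplicit false

namespace Pool.Agent.TCA

open Pool.Agent.CK Pool.Agent.RF Pool.Agent.RO Pool.Agent.ADV Pool.Agent.CKP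
open Pool.Agent.AEC (Adm IsClo par)

/-- `R` is in `P^O` for closed oracles above `R` or above `P ⊕ R` -/
theorem clo_inP {ext : List Bool → Finset (List Bool)} {R H O : CK.Lang} (h : IsClo ext R H O) :
    CK.InP O R := by
  have h6 : PTime O (fun x : List Bool => O (false :: false :: x)) :=
    PTime.ask (PTime.cons (PTime.const false) (PTime.cons (PTime.const false) PTime.id))
  have h7 : (fun x : List Bool => O (false :: false :: x)) = R := by
    funext x
    exact h.left x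
  rw [h7] at h6
  exact inP_of h6

theorem clo_inP2 {ext : List Bool → Finset (List Bool)} {P R H O : CK.Lang}
    (h : IsClo ext (CK.join P R) H O) : CK.InP O R := by
  have h6 : PTime O (fun x : List Bool => O (false :: false :: true :: x)) :=
    PTime.ask (PTime.cons (PTime.const false) (PTime.cons (PTime.const false)
      (PTime.cons (PTime.const true) PTime.id)))
  have h7 : (fun x : List Bool => O (false :: false :: true :: x)) = R := by
    funext x
    rw [h.left]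
    rfl
  rw [h7] at h6
  exact inP_of h6

/-- Q1 and CON are true relative to `O` -/
def BothOld (O : CK.Lang) : Prop := (∃ B, PLS.BaseTheory O B) ∧
  ∀ B, PLS.BaseTheory O B → ∀ S, InT O B S → ∃ T, InT O B T ∧
    ¬ RF.PolyBounded O S (RF.RFN T) ∧ ¬ RF.PolyBounded O S (RF.Con T)

theorem bothTrue_iff (O : CK.Lang) : BothOld O ↔ BothTrue O := by
  unfold BothOld BothTrue
  rw [PX.exB, PX.allB]
  simp only [PX.base_oB]
  refine and_congr Iff.rfl (forall_congr' fun B => imp_congr Iff.rfl ?_)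
  rw [PX.allTh]
  refine forall_congr' fun p => forall_congr' fun k => imp_congr (PX.inT_iff O B p k) ?_
  rw [PX.exTh]
  exact exists_congr fun q => exists_congr fun m => and_congr (PX.inT_iff O B q m)
    (and_congr (not_congr (PX.polyBounded_iff O p k _ _ (PX.rfn_eq q m)))
      (not_congr (PX.polyBounded_iff O p k _ _ (PX.con_eq q m))))

/-- Q1 is true relative to `O` with exponential lower bounds -/
def Q1Exp (O : CK.Lang) : Prop := (∃ B, PLS.BaseTheory O B) ∧
  ∀ B, PLS.BaseTheory O B → ∀ S, InT O B S → ∃ T, InT O B T ∧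
    ¬ RF.PolyBounded O S (RF.RFN T) ∧ ∀ m, ∃ n, m ≤ n ∧ ∀ l : List RF.Fm,
      RF.IsProof (RF.Ax O S) (l ++ [RF.RFN T n]) →
        n < (Nat.size (RF.pEnc (l ++ [RF.RFN T n])).length) ^ 7

theorem q1TrueExp_iff (O : CK.Lang) : Q1Exp O ↔ Q1TrueExp O := by
  unfold Q1Exp Q1TrueExp
  rw [PX.exB, PX.allB]
  simp only [PX.base_oB]
  refine and_congr Iff.rfl (forall_congr' fun B => imp_congr Iff.rfl ?_)
  rw [PX.allTh]
  refine forall_congr' fun p => forall_congr' fun k => imp_congr (PX.inT_iff O B p k) ?_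
  rw [PX.exTh]
  refine exists_congr fun q => exists_congr fun m => and_congr (PX.inT_iff O B q m)
    (and_congr (not_congr (PX.polyBounded_iff O p k _ _ (PX.rfn_eq q m)))
      (forall_congr' fun n₀ => exists_congr fun n => and_congr Iff.rfl ?_))
  rw [← PX.rfn_eq]
  exact PX.allProofs_iff (PX.ax_iff O p k) (PX.RFN q m n)
    (fun x => n < (Nat.size x.length) ^ 7)

/-- strong trapdoor permutations relative to `O` -/
def Crypto (β : ℕ → ℕ) (O : CK.Lang) : Prop :=
  ∃ G F K, PX.TrapdoorPermutations O G F K ∧ PX.Secure O G F (fun n => 2 ^ (n / β n))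

theorem crypto_of {β : ℕ → ℕ} {O : CK.Lang} {G F K : List Bool → List Bool}
    (h1 : TD.TrapdoorPermutations O G F K) (h2 : TD.Secure O G F (fun n => 2 ^ (n / β n))) :
    Crypto β O :=
  ⟨G, F, K, (PX.tdp_iff O G F K).1 h1, (PX.secure_iff O G F _).1 h2⟩

section

variable (pt : List Bool → (n : ℕ) × (k : ℕ) × (Fin n → GaloisField 2 k) ×
      (GaloisField 2 k →ₗ[ZMod 2] ZMod 2)) (hpt : ∀ u, (pt u).1 ≤ u.length)

/-- `O` contains its multilinear extensions -/
def SelfE (O : CK.Lang) : Prop := ∀ u, O (false :: true :: u) = decide ((pt u).2.2.2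
        (PX.mlx (fun s : Fin (pt u).1 → Bool => O (List.ofFn s)) (pt u).2.2.1) = 1)

include hpt

/-- Q1 and CON true with exponential lower bounds -/
theorem affExp (R : CK.Lang) :
    ∃ O : CK.Lang, CK.InP O R ∧ SelfE pt O ∧ PLS.BothTrueExp O := by
  obtain ⟨ext, hext, hpar⟩ := AFF.exists_mlx pt hpt
  obtain ⟨H, O, hO, ⟨B₀, g3, g3'⟩, g4⟩ := clo_true hext R
  refine ⟨O, clo_inP hO, fun u => ?_, ⟨B₀, g3, g3'⟩, fun B hB => g4 B hB.1⟩
  rw [hO.mid]
  exact hpar O u

/-- Q1 and CON true, with trapdoor permutations -/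
theorem affBoth (R : CK.Lang) (β : ℕ → ℕ)
    (hβ : Filter.Tendsto β Filter.atTop Filter.atTop) :
    ∃ O : CK.Lang, CK.InP O R ∧ SelfE pt O ∧ BothOld O ∧ Crypto β O := by
  obtain ⟨ext, hext, hpar⟩ := AFF.exists_mlx pt hpt
  obtain ⟨P, G, F, K, α, hα, hP⟩ := tdpE hext R β hβ
  obtain ⟨H, O, hH, hO, ⟨B₀, g3, g3'⟩, g4⟩ := clo_both hext (CK.join P R) hα
  obtain ⟨h1, h2⟩ := hP H O hH hO
  refine ⟨O, clo_inP2 hO, fun u => ?_, ⟨⟨B₀, g3, g3'⟩, fun B hB => g4 B hB.1⟩, crypto_of h1 h2⟩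
  rw [hO.mid]
  exact hpar O u

/-- Q1 true and CON false, with trapdoor permutations -/
theorem affMixed (R : CK.Lang) (β : ℕ → ℕ)
    (hβ : Filter.Tendsto β Filter.atTop Filter.atTop) :
    ∃ O : CK.Lang, CK.InP O R ∧ SelfE pt O ∧ PLS.Q1True O ∧ PLS.ConFalse O ∧ Crypto β O := by
  obtain ⟨ext, hext, hpar⟩ := AFF.exists_mlx pt hpt
  obtain ⟨P, G, F, K, α, hα, hP⟩ := tdpE hext R β hβ
  obtain ⟨H, O, hH, hO, ⟨B₀, g3, g3'⟩, g4⟩ := clo_mixed hext (CK.join P R) hα
  obtain ⟨h1, h2⟩ := hP H O hH hO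
  refine ⟨O, clo_inP2 hO, fun u => ?_, ⟨⟨B₀, g3, g3'⟩, fun B hB => (g4 B hB.1.toBase).2⟩,
    ⟨⟨B₀, g3, g3'⟩, fun B hB => (g4 B hB.1.toBase).1⟩, crypto_of h1 h2⟩
  rw [hO.mid]
  exact hpar O u

/-- Q1 true with exponential lower bounds and CON false -/
theorem affMixedExp (R : CK.Lang) :
    ∃ O : CK.Lang, CK.InP O R ∧ SelfE pt O ∧ Q1Exp O ∧ PLS.ConFalse O := by
  obtain ⟨ext, hext, hpar⟩ := AFF.exists_mlx pt hpt
  obtain ⟨H, O, hO, ⟨B₀, g3, g3'⟩, g4⟩ := clo_mixedExp hext R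
  refine ⟨O, clo_inP hO, fun u => ?_, ⟨⟨B₀, g3, g3'⟩, fun B hB => (g4 B hB.1.toBase).2⟩,
    ⟨⟨B₀, g3, g3'⟩, fun B hB => (g4 B hB.1.toBase).1⟩⟩
  rw [hO.mid]
  exact hpar O u

end

end Pool.Agent.TCA
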