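import Pool.Agent.Lib_helper78.AEC.Clo

/-!
# Closed oracles: existence, linearity and the kernel of finitely many questions
-/

set_option autoImplicit false

namespace Pool.Agent.TCA

open Pool.Agent.CK Pool.Agent.AEC

/-- the parity is additive -/
theorem par_insert {F : Finset (List Bool)} {a : List Bool} (ha : a ∉ F) (O : Lang) :
    par (insert a F) O = xor (O a) (par F O) := by
  unfold par
  rw [Finset.filter_insert]
  cases h : O a
  · rw [if_neg Bool.false_ne_true, Bool.false_xor]
  · rw [if_pos rfl, Finset.card_insert_of_notMem (fun h' => ha (Finset.mem_filter.1 h').1),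
      decide_eq_decide.2 Nat.odd_add_one, Bool.true_xor]
    exact decide_not

theorem par_xor (F : Finset (List Bool)) (O O' : Lang) :
    par F (fun x => xor (O x) (O' x)) = xor (par F O) (par F O') := by
  induction F using Finset.induction_on with
  | empty => rfl
  | insert a F ha ih =>
    rw [par_insert ha, par_insert ha, par_insert ha, ih]
    cases O a <;> cases O' a <;> cases par F O <;> cases par F O' <;> rfl

/-- the operator -/
noncomputable def opC (ext : List Bool → Finset (List Bool)) (R H O : Lang) : Lang
  | [] => false
  | [false] => false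
  | false :: false :: s => R s
  | false :: true :: w => par (ext w) O
  | true :: x => H x

theorem opC_loc {ext : List Bool → Finset (List Bool)} (hext : Adm ext) (R H : Lang) :
    Loc (opC ext R H) := by
  intro x O O' h
  match x with
  | [] => rfl
  | [false] => rfl
  | false :: false :: s => rfl
  | false :: true :: w =>
    refine par_congr fun s hs => h s ?_
    have := hext w s hs
    simp only [List.length_cons]
    omega
  | true :: x => rfl

/-- the closed oracle with the parts `R` and `H` -/
noncomputable def Clo (ext : List Bool → Finset (List Bool)) (R H : Lang) : Lang :=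
  fixO (opC ext R H)

section

variable {ext : List Bool → Finset (List Bool)}

theorem clo_isClo (hext : Adm ext) (R H : Lang) : IsClo ext R H (Clo ext R H) where
  nil := fixO_eq (opC_loc hext R H) []
  one := fixO_eq (opC_loc hext R H) [false]
  left s := fixO_eq (opC_loc hext R H) (false :: false :: s)
  mid w := fixO_eq (opC_loc hext R H) (false :: true :: w)
  right x := fixO_eq (opC_loc hext R H) (true :: x)

/-- **The difference of two closed oracles with the same part `R`** is the closed oracle of the
difference. -/
theorem xor_clo (hext : Adm ext) {R H H' HD O O' D : Lang} (h1 : IsClo ext R H O)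
    (h2 : IsClo ext R H' O') (h3 : IsClo ext (fun _ => false) HD D) {m : ℕ}
    (h : ∀ x : List Bool, x.length < m → xor (H x) (H' x) = HD x) (k : ℕ) :
    ∀ x : List Bool, x.length ≤ k → x.length ≤ m → xor (O x) (O' x) = D x := by
  induction k with
  | zero =>
    intro x hx _
    have e : x = [] := List.eq_nil_of_length_eq_zero (Nat.le_zero.1 hx)
    subst e
    rw [h1.nil, h2.nil, h3.nil]
    rfl
  | succ k ih =>
    intro x hx hm
    match x with
    | [] =>
      rw [h1.nil, h2.nil, h3.nil]
      rfl
    | [false] =>
      rw [h1.one, h2.one, h3.one]
      rfl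
    | false :: false :: s =>
      rw [h1.left, h2.left, h3.left]
      exact Bool.xor_self _
    | false :: true :: w =>
      rw [h1.mid, h2.mid, h3.mid, ← par_xor]
      refine par_congr fun s hs => ?_
      have h4 := hext w s hs
      simp only [List.length_cons] at hx hm
      exact ih s (by omega) (by omega)
    | true :: x =>
      rw [h1.right, h2.right, h3.right]
      simp only [List.length_cons] at hm
      exact h x (by omega)

theorem agree_clo (hext : Adm ext) {R H H' O O' : Lang} (h1 : IsClo ext R H O)
    (h2 : IsClo ext R H' O') {m : ℕ} (h : ∀ x : List Bool, x.length < m → H x = H' x)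
    {x : List Bool} (hx : x.length ≤ m) : O x = O' x := by
  have h3 := xor_clo hext h1 h2 (clo_isClo hext _ (fun _ => false)) (m := m)
    (fun x hx => by rw [h x hx, Bool.xor_self]) m x hx hx
  have h4 := xor_clo hext h1 h1 (clo_isClo hext _ (fun _ => false)) (m := m)
    (fun x hx => by rw [Bool.xor_self]) m x hx hx
  rw [Bool.xor_self] at h4
  rw [← h4] at h3
  revert h3
  cases O x <;> cases O' x <;> decide

/-- the language of a finite set -/
def LF (F : Finset (List Bool)) : Lang := fun x => decide (x ∈ F)

/-- the question `x` does not see the change `Δ` of the part `H` -/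
def Blind (ext : List Bool → Finset (List Bool)) (Δ : Finset (List Bool)) (x : List Bool) : Prop :=
  Clo ext (fun _ => false) (LF Δ) x = false

theorem LF_symmDiff (A B : Finset (List Bool)) (x : List Bool) :
    xor (LF A x) (LF B x) = LF (symmDiff A B) x := by
  unfold LF
  by_cases h1 : x ∈ A <;> by_cases h2 : x ∈ B <;> simp [Finset.mem_symmDiff, h1, h2]

/-- **The kernel of the questions `Q`**: among more candidates than questions there is a nonempty
set of candidates that the questions do not see. -/
theorem exists_blind (hext : Adm ext) (Q C : Finset (List Bool)) (h : Q.card < C.card) :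
    ∃ Δ ⊆ C, Δ.Nonempty ∧ Δ.card ≤ Q.card + 1 ∧ ∀ x ∈ Q, Blind ext Δ x := by
  classical
  obtain ⟨C', hC', hcard⟩ := Finset.exists_subset_card_eq (Nat.succ_le_of_lt h)
  obtain ⟨A, hA, B, hB, hne, hAB⟩ := Finset.exists_ne_map_eq_of_card_lt_of_maps_to
    (s := C'.powerset) (t := Q.powerset)
    (f := fun Δ => Q.filter fun x => Clo ext (fun _ => false) (LF Δ) x = true)
    (by
      rw [Finset.card_powerset, Finset.card_powerset, hcard]
      exact Nat.pow_lt_pow_right (by norm_num) (Nat.lt_succ_self _))
    (fun Δ _ => Finset.mem_coe.2 (Finset.mem_powerset.2 (Finset.filter_subset _ _)))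
  rw [Finset.mem_powerset] at hA hB
  have hsub : symmDiff A B ⊆ C' := by
    intro x hx
    rcases Finset.mem_symmDiff.1 hx with hx | hx
    · exact hA hx.1
    · exact hB hx.1
  refine ⟨symmDiff A B, hsub.trans hC', ?_, ?_, fun x hx => ?_⟩
  · rw [Finset.nonempty_iff_ne_empty]
    intro he
    exact hne (symmDiff_eq_bot.1 he)
  · exact (Finset.card_le_card hsub).trans hcard.le
  · have h1 := xor_clo hext (clo_isClo hext (fun _ => false) (LF A))
      (clo_isClo hext (fun _ => false) (LF B)) (clo_isClo hext (fun _ => false)
      (LF (symmDiff A B))) (m := x.length) (fun y _ => LF_symmDiff A B y) x.length x le_rfl le_rfl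
    unfold Blind
    rw [← h1]
    have h2 := congrArg (fun F => x ∈ F) hAB
    simp only [Finset.mem_filter, hx, true_and, eq_iff_iff] at h2
    revert h2
    cases Clo ext (fun _ => false) (LF A) x <;> cases Clo ext (fun _ => false) (LF B) x <;> simp

end

end Pool.Agent.TCA
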