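import Pool.Agent.Lib_helper94.TCA.Lin
import Pool.Agent.Lib_helper78.FS.Game
import Pool.Agent.Lib_helper78.RO.F.LOC

/-!
# The sparse set for closed oracles, Q1 true with exponential bounds
-/

set_option autoImplicit false

namespace Pool.Agent.TCA

open Pool.Agent.CK Pool.Agent.RF Pool.Agent.CKP Pool.Agent.RO Pool.Agent.AEC Pool.Agent.FS

/-- the parameters of the construction -/
structure QPar where
  /-- the extension scheme -/
  ext : List Bool → Finset (List Bool)
  /-- the scheme is admissible -/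
  hext : Adm ext
  /-- the given oracle -/
  R : Lang
  /-- the numbers of the theories -/
  num : Th → ℕ
  /-- the enumeration of the pairs -/
  cl : ℕ → Th × Th
  /-- the first stages -/
  g : ℕ → ℕ

variable (P : QPar)

/-- the pair treated at stage `s` -/
def qks (s : ℕ) : ℕ := (Nat.unpair s).1

/-- the prefix of the pair with number `m` -/
def QPar.pf (m : ℕ) : List Bool := pfxT (P.cl m).2 (P.num (P.cl m).1)

/-- the oracle with the finite set `F` -/
noncomputable def QPar.OF (F : Finset (List Bool)) : Lang := Clo P.ext P.R (LF F)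

/-- the set can be added -/
def QPar.Cand (s : ℕ) (F Δ : Finset (List Bool)) : Prop :=
  Δ.Nonempty ∧ (∀ x ∈ Δ, ∃ y : List Bool, x = P.pf (qks s) ++ y ∧
    y.length + 1 = 2 ^ (st s + 1)) ∧
    AccS (P.OF (F ∪ Δ)) (P.cl (qks s)).1 (P.cl (qks s)).2 s

/-- the pair is treated at stage `s` -/
def QPar.Go (s : ℕ) (F : Finset (List Bool)) : Prop :=
  P.g (qks s) ≤ s ∧ (∀ y, P.pf (qks s) ++ y ∉ F) ∧ ∃ Δ, P.Cand s F Δ

open Classical in
/-- one stage -/
noncomputable def QPar.step (s : ℕ) (F : Finset (List Bool)) : Finset (List Bool) :=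
  if h : P.Go s F then F ∪ h.2.2.choose else F

/-- the finite sets -/
noncomputable def QPar.F : ℕ → Finset (List Bool)
  | 0 => ∅
  | s + 1 => P.step s (QPar.F s)

open Classical in
/-- the set -/
noncomputable def QPar.W : Lang := fun x => decide (∃ s, x ∈ P.F s)

/-- the oracle -/
noncomputable def QPar.O : Lang := Clo P.ext P.R P.W

theorem qF_succ (s : ℕ) : P.F (s + 1) = P.step s (P.F s) := rfl

theorem qF_sub (s : ℕ) : P.F s ⊆ P.F (s + 1) := by
  rw [qF_succ]
  unfold QPar.step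
  split_ifs
  · exact Finset.subset_union_left
  · exact Finset.Subset.refl _

theorem qF_mono {s t : ℕ} (h : s ≤ t) : P.F s ⊆ P.F t := by
  induction t, h using Nat.le_induction with
  | base => exact Finset.Subset.refl _
  | succ t _ ih => exact ih.trans (qF_sub P t)

/-- the string is added at stage `s` -/
def QPar.Add (s : ℕ) (x : List Bool) : Prop := x ∈ P.F (s + 1) ∧ x ∉ P.F s

theorem qadd_spec {s : ℕ} {x : List Bool} (h : P.Add s x) :
    P.g (qks s) ≤ s ∧ (∀ y, P.pf (qks s) ++ y ∉ P.F s) ∧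
      ∃ Δ, P.F (s + 1) = P.F s ∪ Δ ∧ x ∈ Δ ∧ P.Cand s (P.F s) Δ := by
  classical
  obtain ⟨h1, h2⟩ := h
  rw [qF_succ] at h1 ⊢
  unfold QPar.step at h1 ⊢
  split_ifs at h1 ⊢ with hg
  · rcases Finset.mem_union.1 h1 with h3 | h3
    · exact absurd h3 h2
    · exact ⟨hg.1, hg.2.1, _, rfl, h3, hg.2.2.choose_spec⟩
  · exact absurd h1 h2

theorem qexists_add {x : List Bool} (h : P.W x = true) : ∃ s, P.Add s x := by
  classical
  have h1 : ∃ s, x ∈ P.F s := of_decide_eq_true h
  have h2 := Nat.find_spec h1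
  rcases hk : Nat.find h1 with _ | k
  · rw [hk] at h2
    exact absurd h2 (by simp [QPar.F])
  · rw [hk] at h2
    exact ⟨k, h2, Nat.find_min h1 (by omega)⟩

theorem qW_of_mem {s : ℕ} {x : List Bool} (h : x ∈ P.F s) : P.W x = true := by
  classical
  exact decide_eq_true (p := ∃ s, x ∈ P.F s) ⟨s, h⟩

/-- late strings are long -/
theorem qmem_F_of_short {s : ℕ} {x : List Bool} (h : P.W x = true)
    (hx : x.length + 1 < 2 ^ (st s + 1)) : x ∈ P.F s := by
  obtain ⟨t, ht⟩ := qexists_add P h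
  obtain ⟨-, -, Δ, -, hxΔ, -, hΔ, -⟩ := qadd_spec P ht
  obtain ⟨y, hy, hc⟩ := hΔ x hxΔ
  have h1 : y.length ≤ x.length := by rw [hy, List.length_append]; omega
  have h2 : t < s := by
    by_contra hcon
    have h3 : 2 ^ (st s + 1) ≤ 2 ^ (st t + 1) :=
      Nat.pow_le_pow_right (by norm_num) (by
        have := st_mono.monotone (Nat.not_lt.1 hcon)
        omega)
    omega
  exact qF_mono P (Nat.succ_le_of_lt h2) ht.1

theorem qagree_W {s N : ℕ} (hN : N < 2 ^ (st s + 1)) : Agree N (P.OF (P.F s)) P.O := by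
  intro x hx
  refine agree_clo P.hext (clo_isClo P.hext _ _) (clo_isClo P.hext _ _) (m := N) ?_ hx.le
  intro y hy
  show decide (y ∈ P.F s) = P.W y
  rw [Bool.eq_iff_iff, decide_eq_true_eq]
  exact ⟨qW_of_mem P, fun h => qmem_F_of_short P h (by omega)⟩

theorem qacc_W {s k J : ℕ} {S T : Th} (hk : S.2 = k) (hL : Large k J) (hJ : J ≤ s) :
    AccS (P.OF (P.F (s + 1))) S T s ↔ AccS P.O S T s := by
  subst hk
  refine acc_local (qagree_W P ?_)
  have h1 := (hL (s + 1) (by omega)).1
  have h2 : 2 ^ st (s + 1) ≤ 2 ^ (st (s + 1) + 1) := Nat.pow_le_pow_right (by norm_num) (by omega)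
  omega

/-- a pair that is never treated successfully -/
theorem qnot_acc {m s J : ℕ} (hm : ∀ y, P.W (P.pf m ++ y) = false) (hs : qks s = m)
    (hg : P.g m ≤ s) (hL : Large (P.cl m).1.2 J) (hJ : J ≤ s) :
    ¬ AccS P.O (P.cl m).1 (P.cl m).2 s := by
  classical
  intro hacc
  subst hs
  have hfr : ∀ z, P.pf (qks s) ++ z ∉ P.F s := fun z hz => by
    have h2 := qW_of_mem P hz
    rw [hm] at h2
    exact Bool.false_ne_true h2
  have hno : ¬ P.Go s (P.F s) := by
    intro hgo
    obtain ⟨⟨x, hx⟩, hform, -⟩ := hgo.2.2.choose_spec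
    obtain ⟨y, rfl, -⟩ := hform x hx
    have h1 : P.pf (qks s) ++ y ∈ P.F (s + 1) := by
      rw [qF_succ]
      unfold QPar.step
      rw [dif_pos hgo]
      exact Finset.mem_union_right _ hx
    have h2 := qW_of_mem P h1
    rw [hm] at h2
    exact Bool.false_ne_true h2
  have hF : P.F (s + 1) = P.F s := by
    rw [qF_succ]
    unfold QPar.step
    rw [dif_neg hno]
  rw [← qacc_W P rfl hL hJ, hF] at hacc
  obtain ⟨Q, hQ, hQ2⟩ := acc_touch hacc
  -- a set of strings that the questions do not see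
  have hcard : Q.card < 2 ^ (2 ^ (st s + 1) - 1) := by
    have h1 := (hL s hJ).2
    have h2 : tb (st (s + 1)) ^ ((P.cl (qks s)).1.2 + 1) ≤
        tb (st (s + 1)) ^ ((P.cl (qks s)).1.2 + 1) * 2 ^ (s + 2) :=
      Nat.le_mul_of_pos_right _ (by positivity)
    have h3 : 2 ^ 2 ^ st s < 2 ^ (2 ^ (st s + 1) - 1) := by
      refine Nat.pow_lt_pow_right (by norm_num) ?_
      have h4 : 2 ^ (st s + 1) = 2 * 2 ^ st s := by ring
      have h5 : 2 ^ 1 ≤ 2 ^ st s := Nat.pow_le_pow_right (by norm_num) (by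
        have := lt_st s
        omega)
      omega
    omega
  have hC : ((Finset.univ : Finset (Fin (2 ^ (st s + 1) - 1) → Bool)).image
      (fun f => P.pf (qks s) ++ List.ofFn f)).card = 2 ^ (2 ^ (st s + 1) - 1) := by
    rw [Finset.card_image_of_injective, Finset.card_univ, Fintype.card_fun, Fintype.card_bool,
      Fintype.card_fin]
    intro a b hab
    exact List.ofFn_injective (List.append_cancel_left hab)
  obtain ⟨Δ, hΔ, hne, -, hbl⟩ := exists_blind P.hext Q _ (by rw [hC]; exact hcard)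
  have hform : ∀ x ∈ Δ, ∃ y : List Bool, x = P.pf (qks s) ++ y ∧
      y.length + 1 = 2 ^ (st s + 1) := by
    intro x hx
    obtain ⟨f, -, rfl⟩ := Finset.mem_image.1 (hΔ hx)
    refine ⟨_, rfl, ?_⟩
    rw [List.length_ofFn]
    have := Nat.one_le_two_pow (n := st s + 1)
    omega
  refine hno ⟨hg, hfr, Δ, hne, hform, ?_⟩
  refine hQ2 _ (fun x hx => ?_)
  have h1 := xor_clo P.hext (clo_isClo P.hext P.R (LF (P.F s ∪ Δ)))
    (clo_isClo P.hext P.R (LF (P.F s))) (clo_isClo P.hext (fun _ => false) (LF Δ))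
    (m := x.length) (fun y _ => ?_) x.length x le_rfl le_rfl
  · rw [show Clo P.ext (fun _ => false) (LF Δ) x = false from hbl x hx] at h1
    unfold QPar.OF
    revert h1
    cases Clo P.ext P.R (LF (P.F s ∪ Δ)) x <;> cases Clo P.ext P.R (LF (P.F s)) x <;> decide
  · have h2 : y ∈ Δ → y ∉ P.F s := by
      intro hy
      obtain ⟨z, rfl, -⟩ := hform y hy
      exact hfr z
    unfold LF
    by_cases h3 : y ∈ P.F s <;> by_cases h4 : y ∈ Δ
    · exact absurd h3 (h2 h4)
    all_goals simp [Finset.mem_union, h3, h4]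

end Pool.Agent.TCA
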