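import Pool.Agent.Lib_helper94.TCA.QBuild
import Pool.Agent.Lib_helper78.RO.F.BAL
import Pool.Agent.Lib_helper87.RO.LargeK

/-!
# Q1 is true relative to some closed oracle
-/

set_option autoImplicit false

namespace Pool.Agent.TCA

open Pool.Agent.CK Pool.Agent.RF Pool.Agent.CKP Pool.Agent.RO Pool.Agent.AEC Pool.Agent.FS

/-- **Q1 is true relative to some oracle that is closed under the extension scheme.** -/
theorem clo_true {ext : List Bool → Finset (List Bool)} (hext : Adm ext) (R : Lang) :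
    ∃ H O : Lang, IsClo ext R H O ∧ (∃ B, BaseD O B ∧ ∀ σ, S12 σ → B σ) ∧
      ∀ B, BaseD O B → ∀ S, InT O B S → ∃ T, InT O B T ∧
        ¬ PolyBounded O S (RFN T) ∧ ¬ PolyBounded O S (Con T) ∧
        ∀ m, ∃ n, m ≤ n ∧ ∀ l : List Fm,
          (IsProof (Ax O S) (l ++ [RFN T n]) →
            n < (Nat.size (pEnc (l ++ [RFN T n])).length) ^ 7) ∧
          (IsProof (Ax O S) (l ++ [Con T n]) →
            n < (Nat.size (pEnc (l ++ [Con T n])).length) ^ 7) := by
  have hc : Countable Cmd := Function.Injective.countable cEnc_inj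
  obtain ⟨num, hnum⟩ := exists_injective_nat Th
  have : Nonempty (Th × Th) := ⟨((Cmd.skip, 0), (Cmd.skip, 0))⟩
  obtain ⟨cl, hcl⟩ := exists_surjective_nat (Th × Th)
  choose J hJ using large_all
  let P : QPar := ⟨ext, hext, R, num, cl, fun m => J (cl m).1.2 +
    (pfxT (cl m).2 (num (cl m).1)).length⟩
  have hgJ : ∀ m, J (cl m).1.2 ≤ P.g m := fun m => by
    show _ ≤ J (cl m).1.2 + (pfxT (cl m).2 (num (cl m).1)).length
    omega
  have hgp : ∀ m, (P.pf m).length ≤ P.g m := fun m => by
    show (pfxT (cl m).2 (num (cl m).1)).length ≤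
      J (cl m).1.2 + (pfxT (cl m).2 (num (cl m).1)).length
    omega
  refine ⟨P.W, P.O, clo_isClo hext R P.W, base_all _, fun B hB S hS => ?_⟩
  have hright : ∀ x, P.O (true :: x) = P.W x := (clo_isClo hext R P.W).right
  set O := P.O with hO
  obtain ⟨T, hTh, hax⟩ := exists_T hB (num S)
  obtain ⟨m, hm⟩ := hcl (S, T)
  have hpf : P.pf m = pfxT T (num S) := by
    show pfxT (cl m).2 (num (cl m).1) = _
    rw [hm]
  have hextT : ∀ σ, B σ → Ax O T σ := fun σ hσ => (hax σ).mpr (Or.inl hσ)
  -- the pair is never treated successfully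
  have hno : ∀ y, P.W (P.pf m ++ y) = false := by
    intro y
    by_contra hcon
    have hW : P.W (P.pf m ++ y) = true := by simpa using hcon
    obtain ⟨s, hs⟩ := qexists_add P hW
    obtain ⟨h1, -, Δ, h2, hx, -, hform, h4⟩ := qadd_spec P hs
    obtain ⟨y', hy', h3⟩ := hform _ hx
    have h5 : pfxT T (num S) ++ y = pfxT (cl (qks s)).2 (num (cl (qks s)).1) ++ y' := by
      rw [← hpf]; exact hy'
    obtain ⟨h6, h7, h8⟩ := pfxT_inj h5
    have h9 := hnum h7
    subst h8
    have hcl' : cl (qks s) = (S, T) := Prod.ext h9.symm h6.symm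
    have hL : Large S.2 (J S.2) := hJ _
    have hJs : J S.2 ≤ s := by
      have h10 := hgJ (qks s)
      have h11 : J (cl (qks s)).1.2 = J S.2 := by rw [hcl']
      omega
    rw [← h2] at h4
    have hacc : AccS (P.OF (P.F (s + 1))) S T s := by
      have h10 : AccS (P.OF (P.F (s + 1))) (cl (qks s)).1 (cl (qks s)).2 s := h4
      rwa [hcl'] at h10
    rw [qacc_W P rfl hL hJs] at hacc
    have h8' : 8 ≤ st s := by
      have := lt_st s
      omega
    refine fin_false1 (O := O) hB hS hextT ((hax _).2 (Or.inr ⟨st s, h8', rfl⟩)) ?_ h3 ?_ hacc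
    · have h10 := hgp (qks s)
      have h11 : P.pf (qks s) = pfxT T (num S) := by
        show pfxT (cl (qks s)).2 (num (cl (qks s)).1) = _
        rw [hcl']
      rw [h11] at h10
      have h12 := lt_st s
      omega
    · rw [← hpf, hright]
      exact hW
  have htrue : ∀ σ, Ax O T σ → σ.True O := by
    intro σ hσ
    rcases (hax σ).mp hσ with h | ⟨l, h8, rfl⟩
    · exact hB.isTrue σ h
    · refine t1F_true (fun y _ hy => ?_)
      rw [← hpf, hright, hno] at hy
      exact Bool.false_ne_true hy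
  have key : ∀ m', ∃ n, m' ≤ n ∧ ∀ l : List Fm,
      (IsProof (Ax O S) (l ++ [RFN T n]) →
        n < (Nat.size (pEnc (l ++ [RFN T n])).length) ^ 7) ∧
      (IsProof (Ax O S) (l ++ [Con T n]) →
        n < (Nat.size (pEnc (l ++ [Con T n])).length) ^ 7) := by
    intro m'
    obtain ⟨s0, hs0⟩ := growth_st
    obtain ⟨s, hs, hks⟩ : ∃ s, P.g m + J S.2 + s0 + m' ≤ s ∧ qks s = m := by
      refine ⟨Nat.pair m (P.g m + J S.2 + s0 + m'), Nat.right_le_pair _ _, ?_⟩
      unfold qks
      rw [Nat.unpair_pair]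
    have hL : Large (P.cl m).1.2 (J S.2) := by
      show Large (cl m).1.2 _
      rw [hm]; exact hJ _
    have hna : ¬ AccS O S T s := by
      have h1 := qnot_acc P (J := J S.2) hno hks (by omega) hL (by omega)
      have h2 : P.cl m = (S, T) := hm
      rwa [h2] at h1
    refine ⟨2 ^ (3 * st s + 13) - 2, ?_, fun l => ⟨fun h => ?_, fun h => ?_⟩⟩
    · have h1 := lt_st s
      have h2 : 3 * st s + 13 < 2 ^ (3 * st s + 13) := Nat.lt_two_pow_self
      omega
    · by_contra hcon
      exact hna (proof_acc (Or.inl rfl) h (hs0 s (by omega) _ (Nat.not_lt.1 hcon)))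
    · by_contra hcon
      exact hna (proof_acc (Or.inr rfl) h (hs0 s (by omega) _ (Nat.not_lt.1 hcon)))
  refine ⟨T, ⟨hTh, hextT, ?_, ?_⟩, ?_, ?_, key⟩
  · intro σ hσ
    rcases (hax σ).mp hσ with h | ⟨l, -, rfl⟩
    · exact hB.closed σ h
    · exact t1F_closed _ _
  · intro h
    have h1 := sound htrue h (fun _ => 0)
    exact h1 rfl
  · exact not_bounded fun m => by
      obtain ⟨n, hn, h⟩ := key m
      exact ⟨n, hn, fun l => (h l).1⟩
  · exact not_bounded fun m => by
      obtain ⟨n, hn, h⟩ := key m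
      exact ⟨n, hn, fun l => (h l).2⟩

end Pool.Agent.TCA
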