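import Pool.Agent.Lib_helper78.AEC.NumC
import Pool.Agent.Lib_helper78.AEC.Rd

/-!
# Trapdoor permutations relative to closed oracles with a sparse right part

As `Lib_helper78/AEC/SecG.lean`, with finite changes of the right part of the closed oracle.
-/

set_option autoImplicit false

namespace Pool.Agent.TCA

open Pool.Agent.CK Pool.Agent.TD Pool.Agent.TPR Pool.Agent.ADV Pool.Agent.CKP Pool.Agent.AEC

theorem sx_false (A : Lang) : sx A (fun _ => false) = A := by
  funext w
  exact Bool.xor_false _

section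

variable {ext : Str → Finset Str}

/-- Secrets and junk that defeat all adversaries up to a given level. -/
theorem horizonE (hext : Adm ext) (R Pt : Lang) (hP : AFF.GenP (TT ext) Pt) {T K : ℕ → ℕ}
    {n0 : ℕ} (hN : NumG T K n0) (N : ℕ) :
    ∃ (S : Sec) (J : Lang), ∀ n, n0 ≤ n → n ≤ N → ∀ p ∈ IX T K n, ∀ O : Lang,
      IsClo ext (join (AFF.emb Pt (pX S) J) R) (dl p.2) O →
      ∀ c : Cmd, Encodable.encode c ≤ n → ∀ w : Str, w.length ≤ T n → ∀ t ≤ T n,
        T n * succ5 S O n c w t < 4 ^ n := by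
  classical
  obtain ⟨L, hL⟩ : ∃ L, ∀ n ≤ N, mqG T n ≤ L :=
    ⟨(Finset.range (N + 1)).sup (mqG T), fun n hn =>
      Finset.le_sup (f := mqG T) (Finset.mem_range.2 (by omega))⟩
  have hex := fun p : Str × Finset Str =>
    exists_clo hext (join (fun _ => false) R) (dl p.2)
  choose oA hoA using hex
  obtain ⟨S, hS⟩ := baseG n0 (aqG' T K) (dqG T) kq (fun n => 2 * T n) (fun n _ => numq1 n)
    hN.num2 hN.num3 N
    (FG T K (AFF.ls (TT_short hext) Pt 0 L) oA N) (fun n _ => FG_ok T K _ oA N n)
    (fun n hn => by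
      rw [Set.eq_empty_iff_forall_notMem]
      rintro A ⟨h1, _⟩
      omega)
  have hX : ∀ n, Fintype.card (X (2 * n)) = 4 ^ n := by
    intro n
    rw [card_X_TD, pow_mul]
    norm_num
  have hmask : ∀ n, n0 ≤ n → n ≤ N → ∀ A ∈ FS T n, ∀ p ∈ IX T K n,
      2 ^ (aqG T K n + n + 2) * (Finset.univ.filter fun om : AFF.Cell 0 L → Bool =>
        4 ^ n ≤ T n * MSK.LS.hit (vv S n) A
          ((AFF.ls (TT_short hext) Pt 0 L).ans (join (pX S) (oA p)) om)).card <
        Fintype.card (AFF.Cell 0 L → Bool) := by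
    intro n hn hnN A hA p hp
    obtain ⟨c, hc, w, hw, t, ht, rfl⟩ := hA
    have h1 := (AFF.ls (TT_short hext) Pt 0 L).mask_lemma
      (AFF.gen_ls (TT_short hext) hP 0 L (lqG T n)) (join (pX S) (oA p)) (advT n c w t) (T n)
      (advT_ok T n c w hw t ht) (vv S n) (T n) (eqG T K n) (hN.pos n hn) (by
        intro A' hA'
        have h2 := hS n hn (fun x => TPR.hw (fun _ => false) (TPR.hw (oA p) (A' x)))
          ⟨hnN, p, hp, _, ⟨c, hc, w, hw, t, ht, rfl⟩, A', hA', rfl⟩
        rw [hX]
        refine lt_of_le_of_lt (le_of_eq ?_) h2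
        unfold MSK.LS.hit hits
        congr 2
        apply Finset.filter_congr
        intro x _
        rw [eval_hw, eval_hw]
        rfl)
    rw [hX] at h1
    exact h1
  obtain ⟨om, hom⟩ := MSK.exists_good (Γ := AFF.Cell 0 L → Bool) (N + 1)
    (ι := fun n => (X (2 * n) → DT Str) × (Str × Finset Str))
    (fun n => if n0 ≤ n then FS T n ×ˢ IX T K n else ∅) (aqG T K)
    (fun n _ => by
      by_cases hn : n0 ≤ n
      · simp only [if_pos hn]
        refine card_mono (card_prod (FS_card T n) (IX_card T K n)) (fun _ h => h) ?_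
        unfold aqG
        omega
      · simp only [if_neg hn]
        refine ⟨Set.finite_empty, ?_⟩
        rw [Set.ncard_empty]
        exact Nat.zero_le _)
    (fun n p => Finset.univ.filter fun om : AFF.Cell 0 L → Bool =>
        4 ^ n ≤ T n * MSK.LS.hit (vv S n) p.1
          ((AFF.ls (TT_short hext) Pt 0 L).ans (join (pX S) (oA p.2)) om))
    (fun n hn p hp => by
      by_cases hn' : n0 ≤ n
      · rw [if_pos hn'] at hp
        exact (hmask n hn' (by omega) p.1 hp.1 p.2 hp.2).le
      · rw [if_neg hn'] at hp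
        exact absurd hp (Set.notMem_empty _))
  refine ⟨S, AFF.ovr 0 L (fun _ => false) om, fun n hn hnN p hp O hO c hc w hw t ht => ?_⟩
  have h1 := hom n (by omega) (advT n c w t, p) (by
    rw [if_pos hn]
    exact ⟨⟨c, hc, w, hw, t, ht, rfl⟩, hp⟩)
  rw [Finset.mem_filter, not_and] at h1
  have h2 := not_le.1 (h1 (Finset.mem_univ _))
  refine lt_of_le_of_lt (le_of_eq ?_) h2
  congr 1
  unfold succ5 MSK.LS.hit
  congr 1
  apply Finset.filter_congr
  intro x _
  have e : (advT n c w t x).eval
      ((AFF.ls (TT_short hext) Pt 0 L).ans (join (pX S) (oA p)) om) =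
      (run O c x.1 w t).2 0 := by
    unfold advT
    rw [AFF.eval_ren, DT.eval_map]
    have e2 : (runTree t ([c], init x.1 w)).eval (fun s =>
        (AFF.ls (TT_short hext) Pt 0 L).ans (join (pX S) (oA p)) om (true :: s)) =
        (runTree t ([c], init x.1 w)).eval O := by
      refine DT.eval_congr _ _ (init_tree_q T n c x w hw t ht) fun q hq => ?_
      refine ans_true hext Pt (pX S) (fun _ => false) R _ (oA p) O (fun _ => false) L om (hoA p)
        (by rw [sx_false]; exact hO) q ?_
      exact hq.le.trans (hL n hnN)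
    rw [e2, mach_eval_runTree]
    rfl
  rw [e]

/-- Secrets and junk that defeat all adversaries. -/
theorem secretsE (hext : Adm ext) (R Pt : Lang) (hP : AFF.GenP (TT ext) Pt) {T K : ℕ → ℕ}
    {n0 : ℕ} (hNum : NumG T K n0) :
    ∃ (S : Sec) (J : Lang), ∀ n, n0 ≤ n → ∀ p ∈ IX T K n, ∀ O : Lang,
      IsClo ext (join (AFF.emb Pt (pX S) J) R) (dl p.2) O →
      ∀ c : Cmd, Encodable.encode c ≤ n → ∀ w : Str, w.length ≤ T n → ∀ t ≤ T n,
        T n * succ5 S O n c w t < 4 ^ n := by
  choose Ss Js hSs using horizonE hext R Pt hP hNum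
  obtain ⟨S, Tab, -, hag⟩ := compactness Ss (fun N _ z => [Js N z])
    (fun N e z => Nat.one_le_pow _ _ (by omega))
  refine ⟨S, fun z => (Tab 0 z).headD false, fun n hn p hp O hO c hc u hu t ht => ?_⟩
  obtain ⟨N, hbN, hN, hT⟩ := hag (mqG T n)
  have hnN : n ≤ N := by
    have : n ≤ mqG T n := by unfold mqG; omega
    omega
  obtain ⟨O', hO'⟩ := exists_clo hext (join (AFF.emb Pt (pX (Ss N)) (Js N)) R) (dl p.2)
  have h1 := hSs N n hn hnN p hp O' hO' c hc u hu t ht
  have hag' : Agree (mqG T n) S (Ss N) (fun _ _ => []) (fun _ _ => []) :=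
    ⟨hN, fun _ _ _ _ => rfl⟩
  have hXX : ∀ q : Str, q.length ≤ mqG T n → pX S q = pX (Ss N) q := by
    intro q hq
    match q with
    | [] => rfl
    | true :: q => rfl
    | false :: q =>
      simp only [List.length_cons] at hq
      exact orc_agree hag' q (by omega)
  have hOO : ∀ s : Str, s.length ≤ mqG T n → O s = O' s := by
    refine clo_congr hext hO hO' (mqG T n) (fun s hs => ?_) (fun s _ => rfl)
    match s with
    | [] => rfl
    | true :: q => rfl
    | [false] => rfl
    | false :: true :: q => rfl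
    | [false, false] => rfl
    | false :: false :: b :: q =>
      simp only [List.length_cons] at hs
      show (if b = Pt q then pX S q else (Tab 0 q).headD false) =
        (if b = Pt q then pX (Ss N) q else Js N q)
      have e1 : pX S q = pX (Ss N) q := hXX q (by omega)
      have e2 : (Tab 0 q).headD false = Js N q := by
        rw [hT 0 (Nat.zero_le _) q (by omega)]
        rfl
      rw [e1, e2]
  have e : succ5 S O n c u t = succ5 (Ss N) O' n c u t := by
    unfold succ5
    have hv : vv S n = vv (Ss N) n := agr_vv (hN n (by unfold mqG; omega)).2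
    congr 1
    apply Finset.filter_congr
    intro x _
    rw [hv, run_congrG T c x u hu t ht hOO]
  rw [e]
  exact h1

/-- Security relative to closed oracles whose right part has few short strings. -/
theorem secureE (hext : Adm ext) {R Pt : Lang} {T K : ℕ → ℕ} {n0 : ℕ}
    {S : Sec} {J : Lang} (hS : ∀ n, n0 ≤ n → ∀ p ∈ IX T K n, ∀ O : Lang,
      IsClo ext (join (AFF.emb Pt (pX S) J) R) (dl p.2) O →
      ∀ c : Cmd, Encodable.encode c ≤ n → ∀ w : Str, w.length ≤ T n → ∀ t ≤ T n,
        T n * succ5 S O n c w t < 4 ^ n)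
    {H O : Lang} (hH : ∀ᶠ n in Filter.atTop, {x : Str | x.length ≤ mqG T n ∧ H x = true}.ncard ≤
      K n)
    (hO : IsClo ext (join (AFF.emb Pt (pX S) J) R) H O) : Secure O (GG S) (FF S) T := by
  classical
  intro c
  filter_upwards [hH, Filter.eventually_ge_atTop n0,
    Filter.eventually_ge_atTop (Encodable.encode c)] with n hD hn hc u hu t ht
  have hfin : {x : Str | x.length ≤ mqG T n ∧ H x = true}.Finite :=
    (List.finite_length_le Bool (mqG T n)).subset fun x hx => hx.1
  obtain ⟨O', hO'⟩ := exists_clo hext (join (AFF.emb Pt (pX S) J) R) (dl hfin.toFinset)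
  have h1 := hS n hn ([], hfin.toFinset) ⟨Nat.zero_le _, by
      show hfin.toFinset.card ≤ K n
      rw [← Set.ncard_eq_toFinset_card _ hfin]
      exact hD, fun w hw => (hfin.mem_toFinset.1 hw).1⟩ O' hO' c hc u hu t ht
  have hOO : ∀ s : Str, s.length ≤ mqG T n → O s = O' s := by
    refine clo_congr hext hO hO' (mqG T n) (fun s hs => rfl) (fun s hs => ?_)
    unfold dl
    rw [Bool.eq_iff_iff, decide_eq_true_iff, hfin.mem_toFinset]
    exact ⟨fun h => ⟨by omega, h⟩, fun h => h.2⟩
  have e : succ5 S O n c u t = succ5 S O' n c u t := by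
    unfold succ5
    congr 1
    apply Finset.filter_congr
    intro x _
    rw [run_congrG T c x u hu t ht hOO]
  rw [← e] at h1
  unfold succ5 at h1
  rw [← inversions_eq] at h1
  exact h1

end

/-- superpolynomial -/
def SuperPoly (α : ℕ → ℕ) : Prop := ∀ d : ℕ, ∀ᶠ n : ℕ in Filter.atTop, n ^ d ≤ α n

end Pool.Agent.TCA
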