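import Pool.Agent.Lib_helper94.TCA.SecE
import Pool.Agent.Lib_helper78.AEC.TdpNP
import Pool.Agent.Lib_helper78.FS.True

/-!
# Trapdoor permutations relative to all closed oracles with a sparse right part
-/

set_option autoImplicit false

namespace Pool.Agent.TCA

open Pool.Agent.CK Pool.Agent.TD Pool.Agent.TPR Pool.Agent.ADV Pool.Agent.CKP Pool.Agent.AEC

theorem exists_alpha {b : ℕ → ℕ} (hb : Slow b) {n0 : ℕ} (hn0 : 2 ^ 40 ≤ n0)
    (h40 : ∀ n, n0 ≤ n → 40 ≤ b n) : ∃ α : ℕ → ℕ, SuperPoly α ∧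
      ∀ n, n0 ≤ n → α (mqG (fun n => 2 ^ (n / b n)) n) ≤ 2 ^ (n / 4) := by
  classical
  set M : ℕ → ℕ := mqG (fun n => 2 ^ (n / b n)) with hM
  have hMge : ∀ n, n ≤ M n := fun n => by
    show n ≤ 2 * n + 2 * 2 ^ (n / b n)
    omega
  let α : ℕ → ℕ := fun N => sInf ((fun n => 2 ^ (n / 4)) '' {n | n0 ≤ n ∧ N ≤ M n})
  have hmem : ∀ N, ∃ n, n0 ≤ n ∧ N ≤ M n ∧ α N = 2 ^ (n / 4) := by
    intro N
    have hne : ((fun n => 2 ^ (n / 4)) '' {n | n0 ≤ n ∧ N ≤ M n}).Nonempty :=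
      ⟨_, Set.mem_image_of_mem _ (show n0 ≤ max n0 N ∧ N ≤ M (max n0 N) from
        ⟨le_max_left _ _, (le_max_right _ _).trans (hMge _)⟩)⟩
    obtain ⟨n, ⟨h1, h2⟩, h3⟩ := Nat.sInf_mem hne
    exact ⟨n, h1, h2, h3.symm⟩
  refine ⟨α, fun d => ?_, fun n hn => Nat.sInf_le (Set.mem_image_of_mem _
    (show n0 ≤ n ∧ M n ≤ M n from ⟨hn, le_rfl⟩))⟩
  obtain ⟨n1, hn1⟩ := Filter.eventually_atTop.1 (Filter.tendsto_atTop.1 hb.tends (8 * d))
  set n2 := n1 + 16 * d + 16 with hn2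
  filter_upwards [Filter.eventually_gt_atTop (∑ i ∈ Finset.range n2, M i)] with N hN
  obtain ⟨n, h1, h2, h3⟩ := hmem N
  have h4 : n2 ≤ n := by
    by_contra hcon
    have h5 : M n ≤ ∑ i ∈ Finset.range n2, M i :=
      Finset.single_le_sum (f := M) (fun i _ => Nat.zero_le _)
        (Finset.mem_range.2 (Nat.not_le.1 hcon))
    omega
  obtain ⟨f1, f2, f3, f4⟩ := slow_facts hb (hn0.trans h1) (h40 n h1)
  have h5 : N ≤ 2 ^ (n / b n + 2) := by
    refine h2.trans ?_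
    show 2 * n + 2 * 2 ^ (n / b n) ≤ _
    rw [pow_add]
    omega
  have h6 := hn1 n (by omega)
  have h7 : 8 * (d * (n / b n)) ≤ n := by
    calc 8 * (d * (n / b n)) = 8 * d * (n / b n) := by ring
      _ ≤ b n * (n / b n) := Nat.mul_le_mul_right _ h6
      _ = n / b n * b n := by ring
      _ ≤ n := f3
  rw [h3]
  calc N ^ d ≤ (2 ^ (n / b n + 2)) ^ d := Nat.pow_le_pow_left h5 d
    _ = 2 ^ (d * (n / b n) + 2 * d) := by
      rw [← pow_mul]
      congr 1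
      ring
    _ ≤ 2 ^ (n / 4) := Nat.pow_le_pow_right (by norm_num) (by omega)

/-- Trapdoor permutations relative to all closed oracles whose right part is sparse. -/
theorem tdpE {ext : Str → Finset Str} (hext : Adm ext) (R : Lang) (β : ℕ → ℕ)
    (hβ : Filter.Tendsto β Filter.atTop Filter.atTop) :
    ∃ (P : Lang) (G F K : Str → Str) (α : ℕ → ℕ), SuperPoly α ∧
      ∀ H O : Lang, Pool.Agent.FS.Few α H → IsClo ext (join P R) H O →
        TrapdoorPermutations O G F K ∧ Secure O G F (fun n => 2 ^ (n / β n)) := by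
  obtain ⟨b, hb, hbβ⟩ := exists_slow β hβ
  obtain ⟨n0, hn0, h40, hNum⟩ := numSlow hb
  obtain ⟨Pt, hP⟩ := AFF.exists_genP (TT ext)
  obtain ⟨S, J, hS⟩ := secretsE hext R Pt hP hNum
  obtain ⟨α, hα1, hα2⟩ := exists_alpha hb hn0 h40
  refine ⟨AFF.emb Pt (pX S) J, GG S, FF S, HH S, α, hα1, fun H O hH hO => ⟨tdp_clo hO, ?_⟩⟩
  refine secure_mono ?_ (secureE hext hS ?_ hO)
  · filter_upwards [Filter.eventually_ge_atTop n0] with n hn
    have h3 := h40 n hn
    exact Nat.pow_le_pow_right (by norm_num) (Nat.div_le_div_left (hbβ n) (by omega))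
  · filter_upwards [Filter.eventually_ge_atTop n0] with n hn
    exact (hH _).trans (hα2 n hn)

end Pool.Agent.TCA
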