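import Pool.Agent.Lib_helper94.TCA.TStage
import Pool.Agent.Lib_helper78.TC.Seq
import Pool.Agent.Lib_helper78.TC.Dec
import Pool.Agent.Lib_helper94.TCA.Tdp

/-!
# The construction in a closed oracle
-/

set_option autoImplicit false

namespace Pool.Agent.TCA

open Pool.Agent.CK Pool.Agent.RF Pool.Agent.CKP Pool.Agent.RO Pool.Agent.ADV Filter
open Pool.Agent.AEC (Adm IsClo par par_congr Loc fixO fixO_eq)
open Pool.Agent.TC (Dead Mark Act Ref pv pv_lt dig ad ad_len ad_inj ins addD ins_inj exists_certs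
  LLn two_lev)
open Pool.Agent.FS (cod pfxT pfxT_inj)

/-- there is a short proof in `S` of `φ` -/
def ShF (S : Th) (M : ℕ) (φ : Fm) (O : Lang) : Prop :=
  ∃ l : List Fm, IsProof (Ax O S) (l ++ [φ]) ∧ (pEnc (l ++ [φ])).length ≤ M

/-- the bound for the lengths of the questions -/
def LLm (S : Th) (M : ℕ) : ℕ := M + (M + 2) ^ S.2 + 1

theorem shF_q {S : Th} {M : ℕ} {φ : Fm} {O : Lang} (h : ShF S M φ O) :
    ∃ Q : Finset (List Bool), Q.card ≤ LLm S M * LLm S M ∧
      (∀ x ∈ Q, x.length < LLm S M) ∧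
      ∀ O' : Lang, (∀ x ∈ Q, O' x = O x) → ShF S M φ O' := by
  obtain ⟨l, hp, hl⟩ := h
  have h2 := QRY_lines (l ++ [φ])
  have key : ∀ σ ∈ l ++ [φ], (σ.enc.length + 2) ^ S.2 ≤ (M + 2) ^ S.2 := by
    intro σ hσ
    have h6 := QRY_mem_len hσ
    exact Nat.pow_le_pow_left (by omega) _
  obtain ⟨Q, hQ1, hQ2, hQ3⟩ := proof_queries O S.1 (fun σ => (σ.enc.length + 2) ^ S.2)
    (l ++ [φ]) (LLm S M) (LLm S M) (fun σ hσ => by
      have h6 := QRY_mem_len hσ
      have h7 := key σ hσ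
      change (σ.enc.length + 2) ^ S.2 ≤ LLm S M ∧
        σ.enc.length + (σ.enc.length + 2) ^ S.2 ≤ LLm S M
      unfold LLm
      constructor <;> omega) hp
  refine ⟨Q.toFinset, (List.toFinset_card_le Q).trans (hQ1.trans (Nat.mul_le_mul_right _ ?_)),
    fun x hx => hQ2 x (List.mem_toFinset.1 hx), fun O' hO' => ?_⟩
  · unfold LLm; omega
  · exact ⟨l, hQ3 O' (fun q hq => hO' q (List.mem_toFinset.2 hq)), hl⟩

/-- the size condition of a stage: with `q + c` questions and `r` rounds, the candidates suffice and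
at most `e` strings are added -/
def Sz (q c r n e : ℕ) : Prop :=
  (q + c + 1) * r < 2 ^ n ∧ 2 * (r * ((q + c + 1) * (q + c + 1))) + (q + c + 1) ≤ e

theorem xexists_k (S : Th) (a c b A : ℕ) : ∃ k E : ℕ, ∀ᶠ n : ℕ in atTop, 2 ≤ n ∧
    LLn S a (NN c (n + b)) ≤ 2 ^ 2 ^ (ix n + 1 + k + 1) ∧
    Sz (LLn S a (NN c (n + b)) * LLn S a (NN c (n + b)))
      (A * (2 ^ 2 ^ (ix n + 1 + k) * 2 ^ 2 ^ (ix n + 1 + k))) (2 ^ (A * (k + 1))) n
      ((n + 2) ^ E) := by
  have hNN : SEQ_PB (fun m => NN c (m + b)) :=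
    SEQ_mul (SEQ_const c) (SEQ_pow (SEQ_add (SEQ_add SEQ_id (SEQ_const b)) (SEQ_const 2)) 5)
  have h1 : SEQ_PB (fun m => NN c (m + b) ^ a + a) := SEQ_add (SEQ_pow hNN _) (SEQ_const _)
  have hL : SEQ_PB (fun m => LLn S a (NN c (m + b))) :=
    SEQ_add (SEQ_add h1 (SEQ_pow (SEQ_add h1 (SEQ_const 2)) _)) (SEQ_const 1)
  obtain ⟨E, hE⟩ := id hL
  set k := 2 * E with hk
  have hX : SEQ_PB (fun n => LLn S a (NN c (n + b)) * LLn S a (NN c (n + b)) +
      A * (n ^ 2 ^ (k + 1) * n ^ 2 ^ (k + 1)) + 1) :=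
    SEQ_add (SEQ_add (SEQ_mul hL hL) (SEQ_mul (SEQ_const A)
      (SEQ_mul (SEQ_pow SEQ_id _) (SEQ_pow SEQ_id _)))) (SEQ_const _)
  have hbig : SEQ_PB (fun n => (LLn S a (NN c (n + b)) * LLn S a (NN c (n + b)) +
      A * (n ^ 2 ^ (k + 1) * n ^ 2 ^ (k + 1)) + 1) * 2 ^ (A * (k + 1))) :=
    SEQ_mul hX (SEQ_const _)
  obtain ⟨E', hE'⟩ := SEQ_add (SEQ_mul (SEQ_const 2) (SEQ_mul (SEQ_const (2 ^ (A * (k + 1))))
    (SEQ_mul hX hX))) hX
  refine ⟨k, E', ?_⟩
  filter_upwards [SEQ_lt hbig, eventually_ge_atTop 2] with n hn h2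
  have g1 : 2 ^ 2 ^ (ix n + 1 + k) ≤ n ^ 2 ^ (k + 1) := by
    have g2 : (2 ^ 2 ^ ix n) ^ 2 ^ (k + 1) = 2 ^ 2 ^ (ix n + 1 + k) := by
      rw [← pow_mul, ← pow_add]
      congr 2
      omega
    rw [← g2]
    exact Nat.pow_le_pow_left (lev_le h2) _
  have g3 : LLn S a (NN c (n + b)) * LLn S a (NN c (n + b)) +
      A * (2 ^ 2 ^ (ix n + 1 + k) * 2 ^ 2 ^ (ix n + 1 + k)) + 1 ≤
      LLn S a (NN c (n + b)) * LLn S a (NN c (n + b)) +
      A * (n ^ 2 ^ (k + 1) * n ^ 2 ^ (k + 1)) + 1 :=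
    Nat.add_le_add_right (Nat.add_le_add_left
      (Nat.mul_le_mul_left _ (Nat.mul_le_mul g1 g1)) _) _
  refine ⟨h2, ?_, lt_of_le_of_lt (Nat.mul_le_mul_right _ g3) hn,
    le_trans (Nat.add_le_add (Nat.mul_le_mul_left _ (Nat.mul_le_mul_left _
      (Nat.mul_le_mul g3 g3))) g3) (hE' n)⟩
  · clear g1 g3
    refine (hE n).trans ?_
    have g1 : n + 2 ≤ n ^ 2 := by nlinarith
    have g2 : (n + 2) ^ E ≤ n ^ (2 * E) := by
      rw [pow_mul]
      exact Nat.pow_le_pow_left g1 E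
    have g3 : n ^ (2 * E) ≤ n ^ 2 ^ (k + 1) := by
      refine Nat.pow_le_pow_right (by omega) ?_
      have : k + 1 < 2 ^ (k + 1) := Nat.lt_two_pow_self
      omega
    have g4 : n ^ 2 ^ (k + 1) ≤ (2 ^ 2 ^ (ix n + 1)) ^ 2 ^ (k + 1) :=
      Nat.pow_le_pow_left two_lev.le _
    have g5 : (2 ^ 2 ^ (ix n + 1)) ^ 2 ^ (k + 1) = 2 ^ 2 ^ (ix n + 1 + k + 1) := by
      rw [← pow_mul, ← pow_add]
      congr 2
    rw [g5] at g4
    exact g2.trans (g3.trans g4)

/-- local families with short certificates of falsity -/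
def GF (e : Fam) : Prop := e.Good ∧ Ref e

/-- the parameters of the construction -/
structure TPar where
  /-- the extension scheme -/
  ext : List Bool → Finset (List Bool)
  /-- the scheme is admissible -/
  hext : Adm ext
  /-- the given oracle -/
  R : Lang
  /-- the numbers of the theories -/
  num : Th → ℕ
  /-- the numbers are different -/
  hnum : Function.Injective num
  /-- the enumeration of the pairs -/
  cl : ℕ → Th × Th
  /-- the constant -/
  c : ℕ
  /-- the number of levels of a stage -/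
  k : ℕ → ℕ
  /-- the exponents of the numbers of new strings -/
  E : ℕ → ℕ
  /-- the lengths -/
  nn : ℕ → ℕ
  /-- the bounds for the lengths of the proofs -/
  M : ℕ → ℕ

namespace TPar

variable (P : TPar)

/-- the theory `S` of the stage -/
def S (s : ℕ) : Th := (P.cl (Nat.unpair s).1).1

/-- the theory `T` of the stage -/
def T (s : ℕ) : Th := (P.cl (Nat.unpair s).1).2

/-- the prefix of the stage -/
def pf (s : ℕ) : List Bool := pfxT (P.T s) (P.num (P.S s))

/-- the number of the sentence of the stage -/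
def N (s : ℕ) : ℕ := NN P.c (P.nn s + ((P.pf s).length + 1))

/-- the goal of the stage -/
def Sh (s : ℕ) (O : Lang) : Prop := ShF (P.S s) (P.M s) (RFN (P.T s) (P.N s)) O

/-- the levels of activation -/
def g (u : ℕ) : ℕ := ix (P.nn u) + 2 * u + 2

/-- the oracle with the set `Y` -/
noncomputable def O (Y : Lang) : Lang := OX P.ext GF P.g Y P.R

/-- the number of questions of a stage, plus one -/
def X (s : ℕ) : ℕ :=
  LLm (P.S s) (P.M s) * LLm (P.S s) (P.M s) +
    (s + 1) * (2 ^ 2 ^ (ix (P.nn s) + 1 + P.k s) * 2 ^ 2 ^ (ix (P.nn s) + 1 + P.k s)) + 1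

/-- the bound for the number of strings of the first stages of length at most `n` -/
def tot (E : ℕ → ℕ) (s n : ℕ) : ℕ := ∑ i ∈ Finset.range s, (n + 2) ^ E i

/-- the conditions -/
structure Ok : Prop where
  mono : StrictMono P.nn
  two : ∀ s, 2 ≤ P.nn s
  len : ∀ s, LLm (P.S s) (P.M s) ≤ 2 ^ 2 ^ (ix (P.nn s) + 1 + P.k s + 1)
  size : ∀ s, P.X s * 2 ^ ((s + 1) * (P.k s + 1)) < 2 ^ P.nn s
  next : ∀ s, 2 ^ 2 ^ (ix (P.nn s) + 1 + P.k s + 1) < P.nn (s + 1)

/-- the conditions for a sparse set -/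
structure Spa (α : ℕ → ℕ) : Prop where
  card : ∀ s, 2 * (2 ^ ((s + 1) * (P.k s + 1)) * (P.X s * P.X s)) + P.X s ≤
    (P.nn s + 2) ^ P.E s
  few : ∀ s n, P.nn s ≤ n → 2 * (s + 1) + tot P.E (s + 1) n ≤ α n

/-- the strings of the set are addresses of instances of earlier stages -/
def Inv (s : ℕ) (F : Finset (List Bool)) : Prop :=
  ∀ x ∈ F, ∃ t < s, ∃ u y : List Bool, x = ad (ins (P.pf t) u) y ∧ u.length = P.nn t

/-- the outcome of a stage -/
def Out (s : ℕ) (F F' : Finset (List Bool)) (D : Finset (List Bool × List Bool)) : Prop :=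
  D.card ≤ 2 ^ ((s + 1) * (P.k s + 1)) * (P.X s * P.X s) ∧
  (∀ d ∈ D, d.1.length = P.nn s ∧ d.2.length = P.nn s) ∧
  ((F' = F ∪ addD (P.pf s) D ∧ ¬ P.Sh s (P.O (LF F'))) ∨
    ∃ U : Finset (List Bool), U.Nonempty ∧ U.card ≤ P.X s ∧
      (∀ u ∈ U, u.length = P.nn s ∧ ∀ d ∈ D, d.1 ≠ u) ∧
      F' = (F ∪ addD (P.pf s) D) ∪ flg (P.pf s) U ∧ P.Sh s (P.O (LF F')))

end TPar

theorem superPoly_seq {α : ℕ → ℕ} (hα : SuperPoly α) {f : ℕ → ℕ} (hf : SEQ_PB f) :
    ∀ᶠ m : ℕ in atTop, ∀ n, m ≤ n → f n ≤ α n := by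
  obtain ⟨e, he⟩ := hf
  have h1 : ∀ᶠ n : ℕ in atTop, f n ≤ α n := by
    filter_upwards [hα (2 * e), eventually_ge_atTop 2] with n hn h2
    refine ((he n).trans ?_).trans hn
    rw [pow_mul]
    exact Nat.pow_le_pow_left (by nlinarith) e
  obtain ⟨N, hN⟩ := h1.exists_forall_of_atTop
  filter_upwards [eventually_ge_atTop N] with m hm n hn
  exact hN n (hm.trans hn)

theorem seq_tot (E : ℕ → ℕ) (s : ℕ) : SEQ_PB (fun n => TPar.tot E s n) := by
  induction s with
  | zero => exact SEQ_const 0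
  | succ s ih =>
    have h : (fun n => TPar.tot E (s + 1) n) = fun n => TPar.tot E s n + (n + 2) ^ E s := by
      funext n
      unfold TPar.tot
      rw [Finset.sum_range_succ]
    rw [h]
    exact SEQ_add ih (SEQ_pow (SEQ_add SEQ_id (SEQ_const 2)) _)

theorem xexists_par {ext : List Bool → Finset (List Bool)} (hext : Adm ext) (R : Lang)
    (num : Th → ℕ) (hnum : Function.Injective num) (cl : ℕ → Th × Th) (c : ℕ) {α : ℕ → ℕ}
    (hα : SuperPoly α) :
    ∃ P : TPar, P.Ok ∧ P.Spa α ∧ P.ext = ext ∧ P.R = R ∧ P.num = num ∧ P.cl = cl ∧ P.c = c ∧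
      ∀ s, P.M s = P.N s ^ (Nat.unpair s).2 + (Nat.unpair s).2 := by
  have h0 := fun s : ℕ => xexists_k (cl (Nat.unpair s).1).1 (Nat.unpair s).2 c
    ((pfxT (cl (Nat.unpair s).1).2 (num (cl (Nat.unpair s).1).1)).length + 1) (s + 1)
  choose k E hk using h0
  obtain ⟨nn, h1, h2⟩ := SEQ_gen (P := fun s m => (2 ≤ m ∧
    LLn (cl (Nat.unpair s).1).1 (Nat.unpair s).2 (NN c (m +
      ((pfxT (cl (Nat.unpair s).1).2 (num (cl (Nat.unpair s).1).1)).length + 1))) ≤
      2 ^ 2 ^ (ix m + 1 + k s + 1) ∧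
    Sz (LLn (cl (Nat.unpair s).1).1 (Nat.unpair s).2 (NN c (m +
      ((pfxT (cl (Nat.unpair s).1).2 (num (cl (Nat.unpair s).1).1)).length + 1))) *
    LLn (cl (Nat.unpair s).1).1 (Nat.unpair s).2 (NN c (m +
      ((pfxT (cl (Nat.unpair s).1).2 (num (cl (Nat.unpair s).1).1)).length + 1))))
      ((s + 1) * (2 ^ 2 ^ (ix m + 1 + k s) * 2 ^ 2 ^ (ix m + 1 + k s)))
      (2 ^ ((s + 1) * (k s + 1))) m ((m + 2) ^ E s)) ∧
      ∀ n, m ≤ n → 2 * (s + 1) + TPar.tot E (s + 1) n ≤ α n)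
    (fun s => (hk s).and (superPoly_seq hα (SEQ_add (SEQ_const (2 * (s + 1)))
      (seq_tot E (s + 1)))))
    (fun s m => 2 ^ 2 ^ (ix m + 1 + k s + 1))
  refine ⟨⟨ext, hext, R, num, hnum, cl, c, k, E, nn, fun s => NN c (nn s +
      ((pfxT (cl (Nat.unpair s).1).2 (num (cl (Nat.unpair s).1).1)).length + 1)) ^
        (Nat.unpair s).2 + (Nat.unpair s).2⟩,
    ⟨h1, fun s => (h2 s).1.1.1, fun s => (h2 s).1.1.2.1, fun s => (h2 s).1.1.2.2.1,
      fun s => (h2 s).2⟩, ⟨fun s => (h2 s).1.1.2.2.2, fun s => (h2 s).1.2⟩,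
    rfl, rfl, rfl, rfl, rfl, fun s => rfl⟩

section

variable {P : TPar} (hP : P.Ok)

include hP

theorem xg_act (s u : ℕ) (hu : s + 1 ≤ u) : ix (P.nn s) + 1 + P.k s < P.g u := by
  have h1 := hP.next s
  have h2 := hP.mono.monotone hu
  have h3 : ix (P.nn s) + 1 + P.k s + 1 ≤ ix (P.nn u) := ix_lev (h1.le.trans h2)
  show _ < ix (P.nn u) + 2 * u + 2
  omega

theorem xg_big (u : ℕ) : 2 * u + 1 < 2 ^ P.g u := by
  have h1 : P.g u < 2 ^ P.g u := Nat.lt_two_pow_self
  have h2 : 2 * u + 2 ≤ P.g u := by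
    show _ ≤ ix (P.nn u) + 2 * u + 2
    omega
  omega

theorem xexists_out (s : ℕ) (F : Finset (List Bool)) (hF : P.Inv s F) :
    ∃ F' D, P.Out s F F' D := by
  have hF0 : ∀ u y : List Bool, u.length = P.nn s → ad (ins (P.pf s) u) y ∉ F := by
    intro u y hu h
    obtain ⟨t, ht, u', y', h1, h2⟩ := hF _ h
    obtain ⟨h3, h4, h5⟩ := pfxT_inj (List.cons.inj (ad_inj h1).1).2
    have h6 := hP.mono ht
    rw [h5, h2] at hu
    omega
  obtain ⟨D, h1, h2, h3⟩ := xstage (ext := P.ext) (G := GF) (g := P.g) P.hext (fun e he => he.1)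
    (fun e he => he.2) P.R (P.pf s) (n := P.nn s) (a := s + 1) (k := P.k s)
    (q := LLm (P.S s) (P.M s) * LLm (P.S s) (P.M s)) F hF0
    (hP.two s) (Nat.succ_pos s) (xg_act hP s) (P.Sh s) (fun O hO => by
      obtain ⟨Q, h1, h2, h3⟩ := shF_q hO
      exact ⟨Q, h1, fun x hx => (h2 x hx).le.trans (hP.len s), h3⟩) (hP.size s)
  rcases h3 with h3 | ⟨U, h4, h4', h5, h6⟩
  · exact ⟨F ∪ addD (P.pf s) D, D, h1, h2, Or.inl ⟨rfl, h3⟩⟩
  · exact ⟨_, D, h1, h2, Or.inr ⟨U, h4, h4', h5, rfl, h6⟩⟩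

end

/-! ## The limit -/

open Classical in
/-- the union of the finite sets -/
noncomputable def YF (F : ℕ → Finset (List Bool)) : Lang := fun x => decide (∃ s, x ∈ F s)

theorem YF_iff {F : ℕ → Finset (List Bool)} {x : List Bool} : YF F x = true ↔ ∃ s, x ∈ F s := by
  classical
  simp [YF]

section

variable {P : TPar} {α : ℕ → ℕ} {F : ℕ → Finset (List Bool)}
  {D : ℕ → Finset (List Bool × List Bool)}

theorem xout_sub {s : ℕ} {F F' : Finset (List Bool)} {D : Finset (List Bool × List Bool)}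
    (h : P.Out s F F' D) : F ∪ addD (P.pf s) D ⊆ F' := by
  obtain ⟨-, -, ⟨h3, -⟩ | ⟨U, -, -, -, h4, -⟩⟩ := h
  · rw [h3]
  · rw [h4]
    exact Finset.subset_union_left

/-- the strings added at a stage -/
theorem xout_new {s : ℕ} {F F' : Finset (List Bool)} {D : Finset (List Bool × List Bool)}
    (h : P.Out s F F' D) {x : List Bool} (hx : x ∈ F') (hx' : x ∉ F) :
    (∃ d ∈ D, x = ad (ins (P.pf s) d.1) [] ∨ x = ad (ins (P.pf s) d.1) d.2) ∨
      ∃ u : List Bool, u.length = P.nn s ∧ x = ad (ins (P.pf s) u) [] ∧ (∀ d ∈ D, d.1 ≠ u) ∧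
        P.Sh s (P.O (LF F')) := by
  have key : x ∈ F ∪ addD (P.pf s) D →
      ∃ d ∈ D, x = ad (ins (P.pf s) d.1) [] ∨ x = ad (ins (P.pf s) d.1) d.2 := by
    intro h1
    rcases Finset.mem_union.1 h1 with h2 | h2
    · exact absurd h2 hx'
    · unfold addD at h2
      rcases Finset.mem_union.1 h2 with h3 | h3
      · obtain ⟨d, hd, rfl⟩ := Finset.mem_image.1 h3
        exact ⟨d, hd, Or.inl rfl⟩
      · obtain ⟨d, hd, rfl⟩ := Finset.mem_image.1 h3
        exact ⟨d, hd, Or.inr rfl⟩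
  obtain ⟨-, h2, ⟨h3, -⟩ | ⟨U, -, -, h4, h5, h6⟩⟩ := h
  · rw [h3] at hx
    exact Or.inl (key hx)
  · rw [h5] at hx
    rcases Finset.mem_union.1 hx with h7 | h7
    · exact Or.inl (key h7)
    · obtain ⟨u, hu, h8⟩ := Finset.mem_image.1 h7
      exact Or.inr ⟨u, (h4 u hu).1, h8.symm, (h4 u hu).2, h6⟩

/-- the new strings are addresses of instances of the stage -/
theorem xout_ad {s : ℕ} {F F' : Finset (List Bool)} {D : Finset (List Bool × List Bool)}
    (h : P.Out s F F' D) {x : List Bool} (hx : x ∈ F') (hx' : x ∉ F) :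
    ∃ u y : List Bool, x = ad (ins (P.pf s) u) y ∧ u.length = P.nn s := by
  rcases xout_new h hx hx' with ⟨d, hd, h1 | h1⟩ | ⟨u, h1, h2, -⟩
  · exact ⟨d.1, [], h1, (h.2.1 d hd).1⟩
  · exact ⟨d.1, d.2, h1, (h.2.1 d hd).1⟩
  · exact ⟨u, [], h2, h1⟩

theorem xout_len {s : ℕ} {F F' : Finset (List Bool)} {D : Finset (List Bool × List Bool)}
    (h : P.Out s F F' D) {x : List Bool} (hx : x ∈ F') (hx' : x ∉ F) : P.nn s < x.length := by
  obtain ⟨u, y, h1, h2⟩ := xout_ad h hx hx'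
  rw [h1, ad_len]
  unfold ins
  rw [List.length_cons, List.length_append]
  omega

theorem xout_inv {s : ℕ} {F F' : Finset (List Bool)} {D : Finset (List Bool × List Bool)}
    (hF : P.Inv s F) (h : P.Out s F F' D) : P.Inv (s + 1) F' := by
  intro x hx
  by_cases hx' : x ∈ F
  · obtain ⟨t, ht, h1⟩ := hF x hx'
    exact ⟨t, by omega, h1⟩
  · obtain ⟨u, y, h1, h2⟩ := xout_ad h hx hx'
    exact ⟨s, Nat.lt_succ_self s, u, y, h1, h2⟩

/-- the finite sets -/
theorem xexists_F (hP : P.Ok) :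
    ∃ (F : ℕ → Finset (List Bool)) (D : ℕ → Finset (List Bool × List Bool)),
      F 0 = ∅ ∧ ∀ s, P.Out s (F s) (F (s + 1)) (D s) := by
  have h0 : ∀ (s : ℕ) (F : Finset (List Bool)), ∃ F' D, P.Inv s F → P.Out s F F' D := by
    intro s F
    by_cases h : P.Inv s F
    · obtain ⟨F', D, h1⟩ := xexists_out hP s F h
      exact ⟨F', D, fun _ => h1⟩
    · exact ⟨∅, ∅, fun h' => absurd h' h⟩
  choose nx dd hnx using h0
  let F : ℕ → Finset (List Bool) := fun s => Nat.rec ∅ (fun s F => nx s F) s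
  have hinv : ∀ s, P.Inv s (F s) := by
    intro s
    induction s with
    | zero => exact fun x hx => absurd hx (Finset.notMem_empty x)
    | succ s ih => exact xout_inv ih (hnx s (F s) ih)
  exact ⟨F, fun s => dd s (F s), rfl, fun s => hnx s (F s) (hinv s)⟩

variable (hP : P.Ok) (hF0 : F 0 = ∅) (hF : ∀ s, P.Out s (F s) (F (s + 1)) (D s))

include hF in
theorem xF_mono {s t : ℕ} (h : s ≤ t) : F s ⊆ F t := by
  induction t, h using Nat.le_induction with
  | base => exact Finset.Subset.refl _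
  | succ t _ ih => exact ih.trans (Finset.subset_union_left.trans (xout_sub (hF t)))

include hF0 in
/-- the stage of a string -/
theorem xexists_stage {x : List Bool} (h : YF F x = true) : ∃ s, x ∈ F (s + 1) ∧ x ∉ F s := by
  classical
  have h1 := YF_iff.1 h
  have h2 := Nat.find_spec h1
  rcases hk : Nat.find h1 with _ | k
  · rw [hk, hF0] at h2
    exact absurd h2 (Finset.notMem_empty x)
  · rw [hk] at h2
    exact ⟨k, h2, Nat.find_min h1 (by omega)⟩

include hP hF0 hF in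
theorem xYF_short {s : ℕ} {x : List Bool} (hx : x.length ≤ P.nn s) : YF F x = LF (F s) x := by
  unfold LF
  rw [Bool.eq_iff_iff, decide_eq_true_eq]
  constructor
  · intro h
    obtain ⟨t, h1, h2⟩ := xexists_stage hF0 h
    have h3 := xout_len (hF t) h1 h2
    have h4 : t < s := by
      by_contra hcon
      have := hP.mono.monotone (Nat.not_lt.1 hcon)
      omega
    exact xF_mono hF h4 h1
  · intro h
    exact YF_iff.2 ⟨s, h⟩

include hP hF0 hF in
/-- the goal of a stage in the limit -/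
theorem xsh_iff (s : ℕ) : P.Sh s (P.O (YF F)) ↔ P.Sh s (P.O (LF (F (s + 1)))) := by
  have hag : ∀ x : List Bool, x.length ≤ P.nn (s + 1) →
      P.O (YF F) x = P.O (LF (F (s + 1))) x := by
    refine OX_agree P.hext (fun e he => he.1) (fun x hx => ?_)
    exact xYF_short hP hF0 hF hx.le
  have key : ∀ O O' : Lang, (∀ x : List Bool, x.length ≤ P.nn (s + 1) → O x = O' x) →
      P.Sh s O → P.Sh s O' := by
    intro O O' h hO
    obtain ⟨Q, -, h1, h2⟩ := shF_q hO
    refine h2 O' (fun x hx => (h x ?_).symm)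
    have h3 := h1 x hx
    have h4 := hP.len s
    have h5 := hP.next s
    omega
  exact ⟨key _ _ hag, key _ _ (fun x hx => (hag x hx).symm)⟩

theorem xout_card (hα : P.Spa α) {s : ℕ} {F F' : Finset (List Bool)}
    {D : Finset (List Bool × List Bool)} (h : P.Out s F F' D) :
    F'.card ≤ F.card + (P.nn s + 2) ^ P.E s := by
  obtain ⟨h1, -, h2⟩ := h
  have hsz := hα.card s
  have h3 : (F ∪ addD (P.pf s) D).card ≤ F.card + 2 * D.card := by
    refine (Finset.card_union_le _ _).trans (Nat.add_le_add_left ?_ _)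
    unfold addD
    refine (Finset.card_union_le _ _).trans ?_
    have h4 := Finset.card_image_le (s := D) (f := fun d => ad (ins (P.pf s) d.1) [])
    have h5 := Finset.card_image_le (s := D) (f := fun d => ad (ins (P.pf s) d.1) d.2)
    omega
  rcases h2 with ⟨h4, -⟩ | ⟨U, -, h5, -, h4, -⟩
  · rw [h4]; omega
  · rw [h4]
    have h6 := Finset.card_union_le (F ∪ addD (P.pf s) D) (flg (P.pf s) U)
    have h7 : (flg (P.pf s) U).card ≤ U.card := Finset.card_image_le
    omega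

include hP hF0 hF in
theorem xfew_Y (hα : P.Spa α) (s n : ℕ) (hn : n ≤ P.nn s) (hs : ∀ i, i < s → P.nn i ≤ n) :
    {x : List Bool | x.length ≤ n ∧ YF F x = true}.ncard ≤ TPar.tot P.E s n := by
  classical
  have h1 : {x : List Bool | x.length ≤ n ∧ YF F x = true} ⊆ ((F s : Finset (List Bool)) :
      Set (List Bool)) := by
    rintro x ⟨hx, h⟩
    rw [xYF_short hP hF0 hF (hx.trans hn)] at h
    unfold LF at h
    exact Finset.mem_coe.2 (by simpa using h)
  refine (Set.ncard_le_ncard h1 (Finset.finite_toSet _)).trans ?_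
  rw [Set.ncard_coe_finset]
  clear h1 hn
  induction s with
  | zero => rw [hF0]; exact Nat.zero_le _
  | succ s ih =>
    refine (xout_card hα (hF s)).trans ?_
    have h2 := ih (fun i hi => hs i (by omega))
    have h3 : (P.nn s + 2) ^ P.E s ≤ (n + 2) ^ P.E s :=
      Nat.pow_le_pow_left (by have := hs s (Nat.lt_succ_self s); omega) _
    unfold TPar.tot at h2 ⊢
    rw [Finset.sum_range_succ]
    omega

include hP hF0 hF in
theorem xfew_all (hα : P.Spa α) : Pool.Agent.FS.Few α (fun x => P.O (YF F) (true :: x)) := by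
  classical
  have hG : ∀ e, GF e → e.Good := fun e he => he.1
  have hex : ∀ n, ∃ s, n < P.nn s := fun n => ⟨n + 1, hP.mono.id_le (n + 1)⟩
  intro n
  show {x : List Bool | x.length ≤ n ∧ P.O (YF F) (true :: x) = true}.ncard ≤ α n
  have h0 := Nat.find_spec (hex n)
  have h1 : ∀ s, s < Nat.find (hex n) → P.nn s ≤ n := fun s hs =>
    Nat.not_lt.1 (Nat.find_min (hex n) hs)
  -- the marks
  have h2 := TC.few_marks (G := GF) (g := P.g) (α := fun n => 2 * Nat.find (hex n))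
    (P.O (YF F)) (fun u m hm => by
      have h3 : P.nn u ≤ m := by
        refine (two_lev (n := P.nn u)).le.trans (le_trans ?_ hm)
        refine Nat.pow_le_pow_right (by norm_num) (Nat.pow_le_pow_right (by norm_num) ?_)
        show _ ≤ ix (P.nn u) + 2 * u + 2
        omega
      have h4 : u < Nat.find (hex m) := by
        by_contra hcon
        have h5 := hP.mono.monotone (Nat.not_lt.1 hcon)
        have h6 := Nat.find_spec (hex m)
        omega
      show 2 * u + 2 ≤ 2 * Nat.find (hex m)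
      omega) n
  have h3 := xfew_Y hP hF0 hF hα (Nat.find (hex n)) n h0.le h1
  have hfin : {x : List Bool | x.length ≤ n}.Finite := List.finite_length_le Bool n
  have h4 : {x : List Bool | x.length ≤ n ∧ P.O (YF F) (true :: x) = true} ⊆
      {x : List Bool | x.length ≤ n ∧ Mark GF P.g (P.O (YF F)) x} ∪
        {x : List Bool | x.length ≤ n ∧ YF F x = true} := by
    rintro x ⟨hx, hW⟩
    by_cases ht : x = List.replicate x.length false
    · rw [ht] at hW
      have hW' := (OX_tally P.hext hG (YF F) P.R x.length).1 hW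
      rw [← ht] at hW'
      exact Or.inl ⟨hx, hW'⟩
    · rw [show P.O (YF F) (true :: x) = YF F x from OX_Y P.hext hG _ _ ht] at hW
      exact Or.inr ⟨hx, hW⟩
  have h5 := Set.ncard_le_ncard h4 ((hfin.subset (fun x hx => hx.1)).union
    (hfin.subset (fun x hx => hx.1)))
  have h6 := Set.ncard_union_le
    {x : List Bool | x.length ≤ n ∧ Mark GF P.g (P.O (YF F)) x}
    {x : List Bool | x.length ≤ n ∧ YF F x = true}
  rcases Nat.eq_zero_or_pos (Nat.find (hex n)) with h7 | h7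
  · have h8 : TPar.tot P.E (Nat.find (hex n)) n = 0 := by
      rw [h7]
      rfl
    have h9 : {x : List Bool | x.length ≤ n ∧ Mark GF P.g (P.O (YF F)) x}.ncard ≤
      2 * Nat.find (hex n) := h2
    omega
  · have h8 := hα.few (Nat.find (hex n) - 1) n (h1 _ (by omega))
    have h9 : {x : List Bool | x.length ≤ n ∧ Mark GF P.g (P.O (YF F)) x}.ncard ≤
      2 * Nat.find (hex n) := h2
    have h10 : Nat.find (hex n) - 1 + 1 = Nat.find (hex n) := by omega
    rw [h10] at h8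
    omega

theorem xO_ad {Y : Lang} {p u y : List Bool} :
    P.O Y (true :: ad (ins p u) y) = Y (ad (ins p u) y) :=
  OX_Y P.hext (fun e he => he.1) _ _ ad_tally

end

end Pool.Agent.TCA
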