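import Pool.Agent.Lib_helper94.TCA.TTal
import Pool.Agent.Lib_helper78.TC.Pot

/-!
# The marks and the potential in a closed oracle
-/

set_option autoImplicit false

namespace Pool.Agent.TCA

open Pool.Agent.CK Pool.Agent.RF Pool.Agent.CKP Pool.Agent.RO Pool.Agent.ADV
open Pool.Agent.AEC (Adm IsClo par par_congr Loc fixO fixO_eq)
open Pool.Agent.TC (Dead Mark Act Ref pv pv_lt pv_cmp dig dig_iff dead_iff dead_congr mark_congr)
open Pool.Agent.FS (cod cod_inj)

/-! ## Blind questions -/

section

variable {ext : List Bool → Finset (List Bool)}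

theorem blind_empty (hext : Adm ext) (x : List Bool) : Blind ext ∅ x := by
  have h := xor_clo hext (clo_isClo hext (fun _ => false) (LF ∅))
    (clo_isClo hext (fun _ => false) (LF ∅)) (clo_isClo hext (fun _ => false) (LF ∅))
    (m := x.length) (fun y _ => by simp [LF]) x.length x le_rfl le_rfl
  rw [Bool.xor_self] at h
  exact h.symm

theorem LF_union {A B : Finset (List Bool)} (h : Disjoint A B) (x : List Bool) :
    xor (LF (A ∪ B) x) (LF A x) = LF B x := by
  have h2 : x ∈ B → x ∉ A := fun hB hA => (Finset.disjoint_left.1 h) hA hB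
  unfold LF
  by_cases h3 : x ∈ A <;> by_cases h4 : x ∈ B
  · exact absurd h3 (h2 h4)
  all_goals simp [Finset.mem_union, h3, h4]

theorem blind_union (hext : Adm ext) {A B : Finset (List Bool)} (h : Disjoint A B)
    {x : List Bool} (hA : Blind ext A x) (hB : Blind ext B x) : Blind ext (A ∪ B) x := by
  have h1 := xor_clo hext (clo_isClo hext (fun _ => false) (LF (A ∪ B)))
    (clo_isClo hext (fun _ => false) (LF A)) (clo_isClo hext (fun _ => false) (LF B))
    (m := x.length) (fun y _ => LF_union h y) x.length x le_rfl le_rfl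
  unfold Blind at hA hB ⊢
  rw [hA, hB] at h1
  revert h1
  cases Clo ext (fun _ => false) (LF (A ∪ B)) x <;> decide

/-- the kernel lemma for an indexed family of candidates -/
theorem exists_blind_image (hext : Adm ext) (Q C : Finset (List Bool)) (f : List Bool → List Bool)
    (hf : Function.Injective f) (h : Q.card < C.card) :
    ∃ U ⊆ C, U.Nonempty ∧ U.card ≤ Q.card + 1 ∧ ∀ x ∈ Q, Blind ext (U.image f) x := by
  classical
  obtain ⟨Δ, h1, h2, h3, h4⟩ := exists_blind hext Q (C.image f) (by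
    rwa [Finset.card_image_of_injective _ hf])
  have h5 : (C.filter fun u => f u ∈ Δ).image f = Δ := by
    ext z
    rw [Finset.mem_image]
    constructor
    · rintro ⟨u, hu, rfl⟩
      exact (Finset.mem_filter.1 hu).2
    · intro hz
      obtain ⟨u, hu, rfl⟩ := Finset.mem_image.1 (h1 hz)
      exact ⟨u, Finset.mem_filter.2 ⟨hu, hz⟩, rfl⟩
  refine ⟨C.filter fun u => f u ∈ Δ, Finset.filter_subset _ _, ?_, ?_, ?_⟩
  · rw [← Finset.image_nonempty (f := f), h5]
    exact h2
  · rw [← Finset.card_image_of_injective _ hf, h5]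
    exact h3
  · rw [h5]
    exact h4

end

/-! ## The marks depend on the lower part of the oracle -/

section

variable {ext : List Bool → Finset (List Bool)} {G : Fam → Prop} {g : ℕ → ℕ}

/-- `Y'` is `Y` changed at the strings of `Δ`, none of which is a tally string -/
structure Chg (Y Y' : Lang) (Δ : Finset (List Bool)) : Prop where
  xor : ∀ x : List Bool, Bool.xor (Y x) (Y' x) = LF Δ x
  tly : ∀ x ∈ Δ, x ≠ List.replicate x.length false

theorem xagree_low (hext : Adm ext) (hG : ∀ e, G e → e.Good) {Y Y' R : Lang} {l : ℕ}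
    {Δ : Finset (List Bool)}
    (hlow : ∀ l' < l, ∀ u, Dead G g (OX ext G g Y R) u l' ↔ Dead G g (OX ext G g Y' R) u l')
    (hY : ∀ x : List Bool, x.length < 2 ^ 2 ^ l → Bool.xor (Y x) (Y' x) = LF Δ x)
    (hΔ : ∀ x ∈ Δ, x ≠ List.replicate x.length false)
    (x : List Bool) (hx : x.length ≤ 2 ^ 2 ^ l) :
    Bool.xor (OX ext G g Y R x) (OX ext G g Y' R x) = Clo ext (fun _ => false) (LF Δ) x := by
  refine xor_clo hext (OX_clo hext hG Y R) (OX_clo hext hG Y' R)
    (clo_isClo hext (fun _ => false) (LF Δ)) (m := 2 ^ 2 ^ l) (fun x hx => ?_) _ x hx hx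
  by_cases ht : x = List.replicate x.length false
  · have h1 : Mark G g (OX ext G g Y R) x ↔ Mark G g (OX ext G g Y' R) x := by
      have key : ∀ {Y Y' : Lang}, (∀ l' < l, ∀ u, Dead G g (OX ext G g Y R) u l' →
          Dead G g (OX ext G g Y' R) u l') → Mark G g (OX ext G g Y R) x →
          Mark G g (OX ext G g Y' R) x := by
        rintro Y Y' hl ⟨l', u, b, h2, h3, h4⟩
        refine ⟨l', u, b, h2, h3, h4.imp id (fun h5 => ⟨h5.1, hl l' ?_ u h5.2⟩)⟩
        have h6 := congrArg List.length h2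
        rw [List.length_replicate] at h6
        have h7 : 2 ^ (2 ^ l' + 2 * u + b) < 2 ^ 2 ^ l := by omega
        have h8 := (Nat.pow_lt_pow_iff_right (by norm_num : 1 < 2)).1 h7
        have h9 : 2 ^ l' < 2 ^ l := by omega
        exact (Nat.pow_lt_pow_iff_right (by norm_num : 1 < 2)).1 h9
      exact ⟨key (fun l' hl u => (hlow l' hl u).1), key (fun l' hl u => (hlow l' hl u).2)⟩
    have h2 : OX ext G g Y R (true :: x) = OX ext G g Y' R (true :: x) := by
      rw [ht, Bool.eq_iff_iff, OX_tally hext hG Y R _, OX_tally hext hG Y' R _, ← ht]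
      exact h1
    have h3 : LF Δ x = false := by
      unfold LF
      exact decide_eq_false (fun h => hΔ x h ht)
    show Bool.xor (OX ext G g Y R (true :: x)) (OX ext G g Y' R (true :: x)) = _
    rw [h2, Bool.xor_self, h3]
  · show Bool.xor (OX ext G g Y R (true :: x)) (OX ext G g Y' R (true :: x)) = _
    rw [OX_Y hext hG _ _ ht, OX_Y hext hG _ _ ht]
    exact hY x hx

theorem eq_of_xor_false {a b : Bool} (h : Bool.xor a b = false) : a = b := by
  revert h
  cases a <;> cases b <;> decide

/-- if the lower marks agree, falsity is inherited -/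
theorem xfalse_step (hext : Adm ext) (hG : ∀ e, G e → e.Good) {Y Y' R : Lang} {l : ℕ}
    {Δ : Finset (List Bool)}
    (hlow : ∀ l' < l, ∀ u, Dead G g (OX ext G g Y R) u l' ↔ Dead G g (OX ext G g Y' R) u l')
    (hY : ∀ x : List Bool, x.length < 2 ^ 2 ^ l → Bool.xor (Y x) (Y' x) = LF Δ x)
    (hΔ : ∀ x ∈ Δ, x ≠ List.replicate x.length false)
    {Q : Finset (List Bool)} (hQ : ∀ x ∈ Q, Blind ext Δ x) {e : Fam} (he : G e) {n : ℕ}
    (hn : e.dep n ≤ 2 ^ l)
    (hcert : ∀ O'' : Lang, (∀ x ∈ Q, O'' x = OX ext G g Y R x) → ¬ (e.at n).True O'') :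
    ¬ (e.at n).True (OX ext G g Y' R) := by
  classical
  let O'' : Lang := fun x =>
    if x.length ≤ 2 ^ 2 ^ l then OX ext G g Y' R x else OX ext G g Y R x
  have h1 : ¬ (e.at n).True O'' := by
    refine hcert O'' (fun x hx => ?_)
    show (if x.length ≤ 2 ^ 2 ^ l then OX ext G g Y' R x else OX ext G g Y R x) = _
    split_ifs with h
    · have h2 := xagree_low hext hG hlow hY hΔ x h
      rw [show Clo ext (fun _ => false) (LF Δ) x = false from hQ x hx] at h2
      exact (eq_of_xor_false h2).symm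
    · rfl
  intro h2
  refine h1 (((hG e he).2 n (OX ext G g Y' R) O'' (fun x hx => ?_)).1 h2)
  show _ = (if x.length ≤ 2 ^ 2 ^ l then OX ext G g Y' R x else OX ext G g Y R x)
  rw [if_pos (hx.trans (Nat.pow_le_pow_right (by norm_num) hn))]

theorem xdead_step (hext : Adm ext) (hG : ∀ e, G e → e.Good) {Y Y' R : Lang} {l u : ℕ}
    {Δ : Finset (List Bool)}
    (hlow : ∀ l' < l, ∀ u, Dead G g (OX ext G g Y R) u l' ↔ Dead G g (OX ext G g Y' R) u l')
    (hY : ∀ x : List Bool, x.length < 2 ^ 2 ^ l → Bool.xor (Y x) (Y' x) = LF Δ x)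
    (hΔ : ∀ x ∈ Δ, x ≠ List.replicate x.length false)
    {Q : Finset (List Bool)} (hQ : ∀ x ∈ Q, Blind ext Δ x)
    (hcert : ∀ e, G e → cod e = u → ∀ n, e.dep n ≤ 2 ^ l → ¬ (e.at n).True (OX ext G g Y R) →
      ∀ O'' : Lang, (∀ x ∈ Q, O'' x = OX ext G g Y R x) → ¬ (e.at n).True O'')
    (h : Dead G g (OX ext G g Y R) u l) : Dead G g (OX ext G g Y' R) u l := by
  obtain ⟨e, h1, h2, h3, h4, h5⟩ := h
  refine ⟨e, h1, h2, h3, ?_, fun l' h6 h7 => ?_⟩
  · unfold Alive at h4 ⊢
    push Not at h4 ⊢
    obtain ⟨n, hn, h6⟩ := h4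
    exact ⟨n, hn, xfalse_step hext hG hlow hY hΔ hQ h2 hn (hcert e h2 h1 n hn h6)⟩
  · by_contra h8
    subst h1
    obtain ⟨l'', h9, h10⟩ := (dead_iff (g := g) h2 h6).2 h8
    have h11 := (hlow l'' (by omega) _).2 h10
    obtain ⟨e', h12, -, h13, h14, -⟩ := h11
    have := cod_inj h12
    subst this
    exact h14 (h5 l'' h13 (by omega))

/-- the comparison of two worlds which differ in `Δ` -/
theorem xpot_step (hext : Adm ext) (hG : ∀ e, G e → e.Good) {Y Y' R : Lang} {a l0 d : ℕ}
    {Δ : Finset (List Bool)}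
    (ha : 0 < a) (hact : ∀ u, a ≤ u → l0 + d < g u)
    (hbase : ∀ l' < l0, ∀ u, Dead G g (OX ext G g Y R) u l' ↔ Dead G g (OX ext G g Y' R) u l')
    (hY : ∀ x : List Bool, Bool.xor (Y x) (Y' x) = LF Δ x)
    (hΔ : ∀ x ∈ Δ, x ≠ List.replicate x.length false)
    {Q : Finset (List Bool)} (hQ : ∀ x ∈ Q, Blind ext Δ x)
    (hcert : ∀ e, G e → cod e < a → ∀ n, e.dep n ≤ 2 ^ (l0 + d) →
      ¬ (e.at n).True (OX ext G g Y R) →
      ∀ O'' : Lang, (∀ x ∈ Q, O'' x = OX ext G g Y R x) → ¬ (e.at n).True O'') :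
    pv (dig G g a l0 (OX ext G g Y R)) (a * (d + 1)) ≤
      pv (dig G g a l0 (OX ext G g Y' R)) (a * (d + 1)) ∧
    (pv (dig G g a l0 (OX ext G g Y R)) (a * (d + 1)) =
      pv (dig G g a l0 (OX ext G g Y' R)) (a * (d + 1)) →
      ∀ l' < l0 + d + 1, ∀ u,
        Dead G g (OX ext G g Y R) u l' ↔ Dead G g (OX ext G g Y' R) u l') := by
  -- agreement of all digits below gives agreement of all lower marks
  have hconv : ∀ T : ℕ, (∀ s < T, dig G g a l0 (OX ext G g Y R) s =
      dig G g a l0 (OX ext G g Y' R) s) →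
      T ≤ a * (d + 1) → ∀ l', l' < l0 + T / a → ∀ u,
      (Dead G g (OX ext G g Y R) u l' ↔ Dead G g (OX ext G g Y' R) u l') := by
    intro T hT hTd l' hl' u
    rcases Nat.lt_or_ge l' l0 with h1 | h1
    · exact hbase l' h1 u
    · rcases Nat.lt_or_ge u a with h2 | h2
      · have h3 : a * (l' - l0) + u < T := by
          have h4 : l' - l0 + 1 ≤ T / a := by omega
          have h5 := (Nat.le_div_iff_mul_le ha).1 h4
          nlinarith
        have h4 := hT _ h3
        rw [Bool.eq_iff_iff, dig_iff, dig_iff, Nat.mul_add_mod, Nat.mod_eq_of_lt h2,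
          Nat.mul_add_div ha, Nat.div_eq_of_lt h2, Nat.add_zero, Nat.add_sub_cancel' h1] at h4
        exact h4
      · have h3 : T / a ≤ d + 1 := by
          have := Nat.div_le_div_right (c := a) hTd
          rwa [Nat.mul_div_cancel_left _ ha] at this
        have h4 := hact u h2
        constructor
        · rintro ⟨-, -, -, h5, -⟩
          omega
        · rintro ⟨-, -, -, h5, -⟩
          omega
  have hmain := pv_cmp (f := dig G g a l0 (OX ext G g Y R))
    (f' := dig G g a l0 (OX ext G g Y' R)) (V := a * (d + 1)) (fun t ht hlow h => ?_)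
  · refine ⟨hmain.1, fun h l' hl' u => ?_⟩
    refine hconv (a * (d + 1)) (hmain.2 h) le_rfl l' ?_ u
    rw [Nat.mul_div_cancel_left _ ha]
    omega
  · have h1 := hconv t hlow ht.le
    have h2 : t / a ≤ d := by
      have := (Nat.div_lt_iff_lt_mul ha).2 (show t < (d + 1) * a by rwa [mul_comm])
      omega
    have h3 : 2 ^ (l0 + t / a) ≤ 2 ^ (l0 + d) := Nat.pow_le_pow_right (by norm_num) (by omega)
    rw [dig_iff] at h ⊢
    refine xdead_step hext hG h1 (fun x _ => hY x) hΔ hQ (fun e he hc n hn => ?_) h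
    exact hcert e he (by rw [hc]; exact Nat.mod_lt _ ha) n (hn.trans h3)

/-- worlds which agree on the short strings -/
theorem OX_agree (hext : Adm ext) (hG : ∀ e, G e → e.Good) {Y Y' R : Lang} {N : ℕ}
    (hY : ∀ x : List Bool, x.length < N → Y x = Y' x) :
    ∀ x : List Bool, x.length ≤ N → OX ext G g Y R x = OX ext G g Y' R x := by
  intro x
  induction hn : x.length using Nat.strong_induction_on generalizing x with
  | _ n ih =>
    intro hN
    subst hn
    match x with
    | [] => rw [(OX_clo hext hG Y R).nil, (OX_clo hext hG Y' R).nil]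
    | [false] => rw [(OX_clo hext hG Y R).one, (OX_clo hext hG Y' R).one]
    | false :: false :: x => rw [(OX_clo hext hG Y R).left, (OX_clo hext hG Y' R).left]
    | false :: true :: w =>
      rw [(OX_clo hext hG Y R).mid, (OX_clo hext hG Y' R).mid]
      refine par_congr fun s hs => ?_
      have h1 := hext w s hs
      rw [List.length_cons, List.length_cons] at hN ih
      exact ih s.length (by omega) s rfl (by omega)
    | true :: x =>
      rw [List.length_cons] at hN ih
      by_cases ht : x = List.replicate x.length false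
      · have h1 : ∀ y : List Bool, y.length ≤ x.length →
            OX ext G g Y R y = OX ext G g Y' R y :=
          fun y hy => ih y.length (by omega) y rfl (by omega)
        rw [ht, Bool.eq_iff_iff, OX_tally hext hG Y R _, OX_tally hext hG Y' R _, ← ht]
        exact ⟨mark_congr hG h1, mark_congr hG (fun y hy => (h1 y hy).symm)⟩
      · rw [OX_Y hext hG _ _ ht, OX_Y hext hG _ _ ht]
        exact hY x (by omega)

/-- worlds which agree on the short strings have the same low marks -/
theorem xbase_agree (hext : Adm ext) (hG : ∀ e, G e → e.Good) {Y Y' R : Lang} (l : ℕ)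
    (hY : ∀ x : List Bool, x.length < 2 ^ 2 ^ l → Y x = Y' x) :
    ∀ l' ≤ l, ∀ u, Dead G g (OX ext G g Y R) u l' ↔ Dead G g (OX ext G g Y' R) u l' := by
  intro l' hl' u
  have h2 : 2 ^ 2 ^ l' ≤ 2 ^ 2 ^ l :=
    Nat.pow_le_pow_right (by norm_num) (Nat.pow_le_pow_right (by norm_num) hl')
  have h3 : ∀ y : List Bool, y.length ≤ 2 ^ 2 ^ l' →
      OX ext G g Y R y = OX ext G g Y' R y :=
    fun y hy => OX_agree hext hG hY y (hy.trans h2)
  exact ⟨dead_congr hG h3, dead_congr hG (fun y hy => (h3 y hy).symm)⟩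

end

end Pool.Agent.TCA
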