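import Pool.Agent.Lib_helper94.TCA.TPot
import Pool.Agent.Lib_helper78.TC.Stage

/-!
# One stage in a closed oracle
-/

set_option autoImplicit false

namespace Pool.Agent.TCA

open Pool.Agent.CK Pool.Agent.RF Pool.Agent.CKP Pool.Agent.RO Pool.Agent.ADV
open Pool.Agent.AEC (Adm IsClo par par_congr Loc fixO fixO_eq)
open Pool.Agent.TC (Dead Mark Act Ref pv pv_lt dig ad ad_len ad_inj ins addD ins_inj exists_certs)
open Pool.Agent.FS (cod)

/-- the strings of length `n` -/
def strs (n : ℕ) : Finset (List Bool) :=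
  (Finset.univ : Finset (Fin n → Bool)).image fun v => List.ofFn v

theorem mem_strs {n : ℕ} {u : List Bool} : u ∈ strs n ↔ u.length = n := by
  unfold strs
  rw [Finset.mem_image]
  constructor
  · rintro ⟨v, -, rfl⟩
    exact List.length_ofFn
  · rintro rfl
    exact ⟨fun i => u[i], Finset.mem_univ _, by simp⟩

theorem card_strs (n : ℕ) : (strs n).card = 2 ^ n := by
  unfold strs
  rw [Finset.card_image_of_injective _ List.ofFn_injective, Finset.card_univ, Fintype.card_fun,
    Fintype.card_bool, Fintype.card_fin]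

theorem ad_tally {p u y : List Bool} :
    ad (ins p u) y ≠ List.replicate (ad (ins p u) y).length false := by
  intro h
  have h1 : true ∈ ad (ins p u) y := by
    unfold ad
    exact List.mem_append_right _ (List.mem_cons_of_mem _ List.mem_cons_self)
  rw [h] at h1
  have := List.eq_of_mem_replicate h1
  exact Bool.noConfusion this

/-- the flags -/
def flg (p : List Bool) (U : Finset (List Bool)) : Finset (List Bool) :=
  U.image fun u => ad (ins p u) []

section

variable {ext : List Bool → Finset (List Bool)} {G : Fam → Prop} {g : ℕ → ℕ}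

/-- witnesses for all instances of `U` that the questions `Q` do not see -/
theorem exists_wits (hext : Adm ext) (p : List Bool) (n : ℕ) (Q U : Finset (List Bool))
    (h : Q.card < 2 ^ n) : ∃ D : Finset (List Bool × List Bool),
      D.card ≤ U.card * (Q.card + 1) ∧
      (∀ d ∈ D, d.1 ∈ U ∧ d.2.length = n) ∧ (∀ u ∈ U, ∃ y, (u, y) ∈ D) ∧
      ∀ x ∈ Q, Blind ext (D.image fun d => ad (ins p d.1) d.2) x := by
  classical
  induction U using Finset.induction_on with
  | empty => exact ⟨∅, by simp, by simp, by simp,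
      fun x _ => by rw [Finset.image_empty]; exact blind_empty hext x⟩
  | insert u U hu ih =>
    obtain ⟨D, h0, h1, h2, h3⟩ := ih
    obtain ⟨Y, g1, ⟨y, hy⟩, g3, g4⟩ := exists_blind_image hext Q (strs n)
      (fun y => ad (ins p u) y) (fun y y' h => (ad_inj h).2) (by rwa [card_strs])
    refine ⟨Y.image (fun y => (u, y)) ∪ D, ?_, ?_, ?_, fun x hx => ?_⟩
    · have h4 := Finset.card_union_le (Y.image fun y => (u, y)) D
      have h5 := Finset.card_image_le (s := Y) (f := fun y => (u, y))
      rw [Finset.card_insert_of_notMem hu]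
      have h6 : (U.card + 1) * (Q.card + 1) = U.card * (Q.card + 1) + (Q.card + 1) := by ring
      omega
    · intro d hd
      rcases Finset.mem_union.1 hd with hd | hd
      · obtain ⟨y, hy, rfl⟩ := Finset.mem_image.1 hd
        exact ⟨Finset.mem_insert_self _ _, mem_strs.1 (g1 hy)⟩
      · exact ⟨Finset.mem_insert_of_mem (h1 d hd).1, (h1 d hd).2⟩
    · intro v hv
      rcases Finset.mem_insert.1 hv with rfl | hv
      · exact ⟨y, Finset.mem_union_left _ (Finset.mem_image.2 ⟨y, hy, rfl⟩)⟩
      · obtain ⟨z, hz⟩ := h2 v hv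
        exact ⟨z, Finset.mem_union_right _ hz⟩
    · rw [Finset.image_union, Finset.image_image]
      refine blind_union hext ?_ (g4 x hx) (h3 x hx)
      rw [Finset.disjoint_left]
      intro w hw hw'
      obtain ⟨y, -, rfl⟩ := Finset.mem_image.1 hw
      obtain ⟨d, hd, h5⟩ := Finset.mem_image.1 hw'
      have h6 : d.1 = u := ins_inj (ad_inj h5).1
      exact hu (h6 ▸ (h1 d hd).1)

/-- **One stage.** -/
theorem xstage (hext : Adm ext) (hG : ∀ e, G e → e.Good) (hR : ∀ e, G e → Ref e) (R : Lang)
    (p : List Bool) {n a k q : ℕ} (F0 : Finset (List Bool))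
    (hF0 : ∀ u y : List Bool, u.length = n → ad (ins p u) y ∉ F0) (hn : 2 ≤ n) (ha : 0 < a)
    (hact : ∀ u, a ≤ u → ix n + 1 + k < g u) (P : Lang → Prop)
    (hP : ∀ O, P O → ∃ Q : Finset (List Bool), Q.card ≤ q ∧
      (∀ x ∈ Q, x.length ≤ 2 ^ 2 ^ (ix n + 1 + k + 1)) ∧
      ∀ O' : Lang, (∀ x ∈ Q, O' x = O x) → P O')
    (hsz : (q + a * (2 ^ 2 ^ (ix n + 1 + k) * 2 ^ 2 ^ (ix n + 1 + k)) + 1) *
      2 ^ (a * (k + 1)) < 2 ^ n) :
    ∃ D : Finset (List Bool × List Bool),
      D.card ≤ 2 ^ (a * (k + 1)) *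
        ((q + a * (2 ^ 2 ^ (ix n + 1 + k) * 2 ^ 2 ^ (ix n + 1 + k)) + 1) *
          (q + a * (2 ^ 2 ^ (ix n + 1 + k) * 2 ^ 2 ^ (ix n + 1 + k)) + 1)) ∧
      (∀ d ∈ D, d.1.length = n ∧ d.2.length = n) ∧
      (¬ P (OX ext G g (LF (F0 ∪ addD p D)) R) ∨ ∃ U : Finset (List Bool), U.Nonempty ∧
        U.card ≤ q + a * (2 ^ 2 ^ (ix n + 1 + k) * 2 ^ 2 ^ (ix n + 1 + k)) + 1 ∧
        (∀ u ∈ U, u.length = n ∧ ∀ d ∈ D, d.1 ≠ u) ∧
        P (OX ext G g (LF ((F0 ∪ addD p D) ∪ flg p U)) R)) := by
  classical
  by_contra hcon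
  push Not at hcon
  have hlev := lev_le hn
  set c := a * (2 ^ 2 ^ (ix n + 1 + k) * 2 ^ 2 ^ (ix n + 1 + k)) with hc
  -- the comparison of two worlds which differ in a set of long strings
  have cmp : ∀ (F Δ : Finset (List Bool)) (Q : Finset (List Bool)),
      Disjoint F Δ → (∀ x ∈ Δ, n ≤ x.length ∧ x ≠ List.replicate x.length false) →
      (∀ x ∈ Q, Blind ext Δ x) →
      (∀ e, G e → cod e < a → ∀ m, e.dep m ≤ 2 ^ (ix n + 1 + k) →
        ¬ (e.at m).True (OX ext G g (LF F) R) →
        ∀ O'' : Lang, (∀ x ∈ Q, O'' x = OX ext G g (LF F) R x) → ¬ (e.at m).True O'') →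
      pv (dig G g a (ix n + 1) (OX ext G g (LF F) R)) (a * (k + 1)) ≤
        pv (dig G g a (ix n + 1) (OX ext G g (LF (F ∪ Δ)) R)) (a * (k + 1)) ∧
      (pv (dig G g a (ix n + 1) (OX ext G g (LF F) R)) (a * (k + 1)) =
        pv (dig G g a (ix n + 1) (OX ext G g (LF (F ∪ Δ)) R)) (a * (k + 1)) →
        ∀ x : List Bool, x.length ≤ 2 ^ 2 ^ (ix n + 1 + k + 1) → Blind ext Δ x →
          OX ext G g (LF F) R x = OX ext G g (LF (F ∪ Δ)) R x) := by
    intro F Δ Q hdis hΔ hQ hcert
    have hY : ∀ x : List Bool, Bool.xor (LF F x) (LF (F ∪ Δ) x) = LF Δ x := by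
      intro x
      rw [Bool.xor_comm]
      exact LF_union hdis x
    have hbase : ∀ l' < ix n + 1, ∀ u, Dead G g (OX ext G g (LF F) R) u l' ↔
        Dead G g (OX ext G g (LF (F ∪ Δ)) R) u l' := by
      intro l' hl' u
      refine xbase_agree hext hG (ix n) (fun x hx => eq_of_xor_false ?_) l' (by omega) u
      rw [hY x]
      unfold LF
      exact decide_eq_false (fun h => by
        have := (hΔ x h).1
        omega)
    obtain ⟨h1, h2⟩ := xpot_step (Y := LF F) (Y' := LF (F ∪ Δ)) (R := R) (d := k)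
      (Δ := Δ) hext hG ha hact hbase hY (fun x hx => (hΔ x hx).2) (Q := Q) hQ hcert
    refine ⟨h1, fun heq x hx hxw => ?_⟩
    have h3 := xagree_low hext hG (h2 heq) (fun x _ => hY x) (fun x hx => (hΔ x hx).2) x hx
    rw [show Clo ext (fun _ => false) (LF Δ) x = false from hxw] at h3
    exact eq_of_xor_false h3
  have key : ∀ i : ℕ, ∃ D : Finset (List Bool × List Bool),
      (D.image Prod.fst).card ≤ i * (q + c + 1) ∧
      D.card ≤ i * ((q + c + 1) * (q + c + 1)) ∧
      (∀ d ∈ D, d.1.length = n ∧ d.2.length = n) ∧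
      i ≤ pv (dig G g a (ix n + 1) (OX ext G g (LF (F0 ∪ addD p D)) R)) (a * (k + 1)) := by
    intro i
    induction i with
    | zero =>
      exact ⟨∅, by simp, by simp, fun d hd => absurd hd (Finset.notMem_empty d), Nat.zero_le _⟩
    | succ i ih =>
      obtain ⟨D, hD1, hD0, hD2, hD3⟩ := ih
      have hi := pv_lt (dig G g a (ix n + 1) (OX ext G g (LF (F0 ∪ addD p D)) R)) (a * (k + 1))
      obtain ⟨hc1, hc2⟩ := hcon D (hD0.trans (Nat.mul_le_mul_right _ (by omega))) hD2
      set F := F0 ∪ addD p D with hF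
      obtain ⟨QC, hQC1, hQC2⟩ := exists_certs (G := G) hG hR (OX ext G g (LF F) R) a
        (ix n + 1 + k)
      obtain ⟨QP, hQP1, hQP2, hQP3⟩ := hP _ hc1
      have hsz2 : (i + 1) * (q + c + 1) < 2 ^ n := by
        refine lt_of_le_of_lt ?_ hsz
        rw [Nat.mul_comm]
        exact Nat.mul_le_mul_left _ (by omega)
      have hQcard : (QP ∪ QC).card ≤ q + c :=
        (Finset.card_union_le _ _).trans (Nat.add_le_add hQP1 hQC1)
      -- new instances
      obtain ⟨U, hU1, hU2, hU3, hU4⟩ := exists_blind_image hext (QP ∪ QC)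
        (strs n \ D.image Prod.fst) (fun u => ad (ins p u) [])
        (fun u u' h => ins_inj (ad_inj h).1) (by
          have h1 := Finset.le_card_sdiff (D.image Prod.fst) (strs n)
          rw [card_strs] at h1
          have h2 : (i + 1) * (q + c + 1) = i * (q + c + 1) + (q + c + 1) := by ring
          omega)
      have hUn : ∀ u ∈ U, u.length = n ∧ ∀ d ∈ D, d.1 ≠ u := by
        intro u hu
        have h1 := Finset.mem_sdiff.1 (hU1 hu)
        refine ⟨mem_strs.1 h1.1, ?_⟩
        rintro d hd rfl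
        exact h1.2 (Finset.mem_image.2 ⟨d, hd, rfl⟩)
      have hfl : ∀ u y : List Bool, u.length = n → n ≤ (ad (ins p u) y).length := by
        intro u y hu
        rw [ad_len]
        unfold ins
        rw [List.length_cons, List.length_append]
        omega
      -- the flags are new
      have hdis1 : Disjoint F (flg p U) := by
        rw [Finset.disjoint_right]
        intro w hw
        obtain ⟨u, hu, rfl⟩ := Finset.mem_image.1 hw
        obtain ⟨h1, h2⟩ := hUn u hu
        rw [hF, Finset.mem_union, not_or]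
        refine ⟨hF0 u [] h1, fun h3 => ?_⟩
        unfold addD at h3
        rcases Finset.mem_union.1 h3 with h4 | h4
        · obtain ⟨d, hd, h5⟩ := Finset.mem_image.1 h4
          exact h2 d hd (ins_inj (ad_inj h5).1)
        · obtain ⟨d, hd, h5⟩ := Finset.mem_image.1 h4
          exact h2 d hd (ins_inj (ad_inj h5).1)
      obtain ⟨hX1, hX2⟩ := cmp F (flg p U) QC hdis1 (fun x hx => by
        obtain ⟨u, hu, rfl⟩ := Finset.mem_image.1 hx
        exact ⟨hfl u [] (hUn u hu).1, ad_tally⟩)
        (fun x hx => hU4 x (Finset.mem_union_right _ hx)) hQC2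
      have hXne : pv (dig G g a (ix n + 1) (OX ext G g (LF F) R)) (a * (k + 1)) ≠
          pv (dig G g a (ix n + 1) (OX ext G g (LF (F ∪ flg p U)) R)) (a * (k + 1)) := by
        intro heq
        refine hc2 U hU2 (hU3.trans (by omega)) hUn (hQP3 _ (fun x hx => ?_))
        exact (hX2 heq x (hQP2 x hx) (hU4 x (Finset.mem_union_left _ hx))).symm
      -- witnesses
      obtain ⟨QX, hQX1, hQX2⟩ := exists_certs (G := G) hG hR
        (OX ext G g (LF (F ∪ flg p U)) R) a (ix n + 1 + k)
      obtain ⟨D', hD'0, hD'1, hD'2, hD'3⟩ := exists_wits hext p n QX U (by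
        have h2 : (i + 1) * (q + c + 1) = i * (q + c + 1) + (q + c + 1) := by ring
        omega)
      -- the witnesses are new
      have hdis2 : Disjoint (F ∪ flg p U) (D'.image fun d => ad (ins p d.1) d.2) := by
        rw [Finset.disjoint_right]
        intro w hw
        obtain ⟨d, hd, rfl⟩ := Finset.mem_image.1 hw
        obtain ⟨h1, h2⟩ := hD'1 d hd
        obtain ⟨h1', h2'⟩ := hUn _ h1
        rw [Finset.mem_union, not_or, hF, Finset.mem_union, not_or]
        refine ⟨⟨hF0 _ _ h1', fun h3 => ?_⟩, fun h3 => ?_⟩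
        · unfold addD at h3
          rcases Finset.mem_union.1 h3 with h4 | h4
          · obtain ⟨d', hd', h5⟩ := Finset.mem_image.1 h4
            exact h2' d' hd' (ins_inj (ad_inj h5).1)
          · obtain ⟨d', hd', h5⟩ := Finset.mem_image.1 h4
            exact h2' d' hd' (ins_inj (ad_inj h5).1)
        · obtain ⟨u, hu, h5⟩ := Finset.mem_image.1 h3
          have h6 := (ad_inj h5).2
          rw [← h6] at h2
          simp only [List.length_nil] at h2
          omega
      obtain ⟨hA1, -⟩ := cmp (F ∪ flg p U) _ QX hdis2 (fun x hx => by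
        obtain ⟨d, hd, rfl⟩ := Finset.mem_image.1 hx
        exact ⟨hfl _ _ (hUn _ (hD'1 d hd).1).1, ad_tally⟩) hD'3 hQX2
      have hset : (F ∪ flg p U) ∪ (D'.image fun d => ad (ins p d.1) d.2) =
          F0 ∪ addD p (D ∪ D') := by
        have h1 : flg p U = D'.image fun d => ad (ins p d.1) [] := by
          ext w
          unfold flg
          rw [Finset.mem_image, Finset.mem_image]
          constructor
          · rintro ⟨u, hu, rfl⟩
            obtain ⟨y, hy⟩ := hD'2 u hu
            exact ⟨(u, y), hy, rfl⟩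
          · rintro ⟨d, hd, rfl⟩
            exact ⟨d.1, (hD'1 d hd).1, rfl⟩
        rw [hF, h1]
        unfold addD
        rw [Finset.image_union, Finset.image_union]
        ext w
        simp only [Finset.mem_union]
        tauto
      rw [hset] at hA1
      refine ⟨D ∪ D', ?_, ?_, ?_, by omega⟩
      · have h1 : (D ∪ D').image Prod.fst ⊆ D.image Prod.fst ∪ U := by
          intro u hu
          obtain ⟨d, hd, rfl⟩ := Finset.mem_image.1 hu
          rcases Finset.mem_union.1 hd with hd | hd
          · exact Finset.mem_union_left _ (Finset.mem_image.2 ⟨d, hd, rfl⟩)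
          · exact Finset.mem_union_right _ (hD'1 d hd).1
        have h2 := (Finset.card_le_card h1).trans (Finset.card_union_le _ _)
        have h3 : (i + 1) * (q + c + 1) = i * (q + c + 1) + (q + c + 1) := by ring
        omega
      · have h1 := Finset.card_union_le D D'
        have h2 : U.card * (QX.card + 1) ≤ (q + c + 1) * (q + c + 1) :=
          Nat.mul_le_mul (by omega) (by omega)
        have h3 : (i + 1) * ((q + c + 1) * (q + c + 1)) =
          i * ((q + c + 1) * (q + c + 1)) + (q + c + 1) * (q + c + 1) := by ring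
        omega
      · intro d hd
        rcases Finset.mem_union.1 hd with hd | hd
        · exact hD2 d hd
        · exact ⟨(hUn _ (hD'1 d hd).1).1, (hD'1 d hd).2⟩
  obtain ⟨D, -, -, -, hD⟩ := key (2 ^ (a * (k + 1)))
  have hi := pv_lt (dig G g a (ix n + 1) (OX ext G g (LF (F0 ∪ addD p D)) R)) (a * (k + 1))
  omega

end

end Pool.Agent.TCA
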