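import Pool.Agent.Lib_helper94.TCA.Lin
import Pool.Agent.Lib_helper78.TC.Tal

/-!
# Tally marks in a closed oracle
-/

set_option autoImplicit false

namespace Pool.Agent.TCA

open Pool.Agent.CK Pool.Agent.RF Pool.Agent.CKP Pool.Agent.RO Pool.Agent.ADV Pool.Agent.FS
open Pool.Agent.AEC (Adm IsClo par par_congr Loc fixO fixO_eq)
open Pool.Agent.TC (mark_congr mark_iff dead_iff dead_unique dead_congr)

open Classical in
/-- the operator: marks at the tally strings of the right part, `Y` at its other strings -/
noncomputable def opT (ext : List Bool → Finset (List Bool)) (G : Fam → Prop) (g : ℕ → ℕ)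
    (Y R O : Lang) : Lang
  | [] => false
  | [false] => false
  | false :: false :: s => R s
  | false :: true :: w => par (ext w) O
  | true :: x => if x = List.replicate x.length false then decide (TC.Mark G g O x) else Y x

/-- the closed oracle -/
noncomputable def OX (ext : List Bool → Finset (List Bool)) (G : Fam → Prop) (g : ℕ → ℕ)
    (Y R : Lang) : Lang := fixO (opT ext G g Y R)

/-- the tally strings are the marks -/
def Tly (G : Fam → Prop) (g : ℕ → ℕ) (O : Lang) : Prop :=
  ∀ m : ℕ, O (true :: List.replicate m false) = true ↔ TC.Mark G g O (List.replicate m false)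

section

variable {ext : List Bool → Finset (List Bool)} {G : Fam → Prop} {g : ℕ → ℕ}

theorem opT_loc (hext : Adm ext) (hG : ∀ e, G e → e.Good) (Y R : Lang) :
    Loc (opT ext G g Y R) := by
  intro x O O' h
  match x with
  | [] => rfl
  | [false] => rfl
  | false :: false :: s => rfl
  | false :: true :: w =>
    refine par_congr fun s hs => h s ?_
    have := hext w s hs
    simp only [List.length_cons]
    omega
  | true :: x =>
    have h1 : ∀ y : List Bool, y.length ≤ x.length → O y = O' y := fun y hy =>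
      h y (by rw [List.length_cons]; omega)
    have h2 : TC.Mark G g O x ↔ TC.Mark G g O' x :=
      ⟨mark_congr hG h1, mark_congr hG (fun y hy => (h1 y hy).symm)⟩
    simp only [opT]
    rw [decide_eq_decide.2 h2]

theorem OX_clo (hext : Adm ext) (hG : ∀ e, G e → e.Good) (Y R : Lang) :
    IsClo ext R (fun x => OX ext G g Y R (true :: x)) (OX ext G g Y R) where
  nil := fixO_eq (opT_loc hext hG Y R) []
  one := fixO_eq (opT_loc hext hG Y R) [false]
  left s := fixO_eq (opT_loc hext hG Y R) (false :: false :: s)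
  mid w := fixO_eq (opT_loc hext hG Y R) (false :: true :: w)
  right _ := rfl

theorem OX_tally (hext : Adm ext) (hG : ∀ e, G e → e.Good) (Y R : Lang) :
    Tly G g (OX ext G g Y R) := by
  intro m
  have h : OX ext G g Y R (true :: List.replicate m false) =
      opT ext G g Y R (OX ext G g Y R) (true :: List.replicate m false) :=
    fixO_eq (opT_loc hext hG Y R) _
  rw [h]
  simp [opT]

theorem OX_Y (hext : Adm ext) (hG : ∀ e, G e → e.Good) (Y R : Lang) {x : List Bool}
    (hx : x ≠ List.replicate x.length false) : OX ext G g Y R (true :: x) = Y x := by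
  have h : OX ext G g Y R (true :: x) = opT ext G g Y R (OX ext G g Y R) (true :: x) :=
    fixO_eq (opT_loc hext hG Y R) _
  rw [h]
  simp [opT, hx]

end

section

variable {G : Fam → Prop} {g : ℕ → ℕ} {O : Lang}

/-! ## The test -/

theorem xhasM_iff (hO : Tly G g O) {x : List Bool} (hx : 2 ≤ x.length)
    {l u b : ℕ} (hl : l ≤ ix x.length) (hu : 2 * u + 1 < 2 ^ l) (hb : b ≤ 1) :
    hasM O x (List.replicate l ()) (List.replicate u ()) b = true ↔
      ((b = 0 ∧ TC.Act G g u l) ∨ (b = 1 ∧ TC.Dead G g O u l)) := by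
  have hW : ∀ i : ℕ, O (true :: (List.replicate i ()).map (fun _ => false)) = true ↔
      TC.Mark G g O (List.replicate i false) := by
    intro i
    rw [List.map_replicate]
    exact hO i
  have e1 : ushl (List.replicate l ()) 1 + ushl [()] u + b = 2 ^ l + 2 * u + b := by
    rw [ushl_eq, ushl_eq, List.length_replicate, List.length_singleton]
    ring
  unfold hasM
  rw [any_range, ← mark_iff (G := G) (g := g) (O := O) hu hb]
  simp only [Bool.and_eq_true, hW, decide_eq_true_eq, List.length_replicate, bits_tail_log, e1]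
  constructor
  · rintro ⟨m, -, h1, h2⟩
    obtain ⟨l', u', b', h3, h4, h5⟩ := h1
    have h6 := congrArg List.length h3
    rw [List.length_replicate, List.length_replicate] at h6
    rw [h6, Nat.log_pow (by norm_num)] at h2
    rw [← h2]
    exact ⟨l', u', b', rfl, h4, h5⟩
  · intro h
    refine ⟨2 ^ (2 ^ l + 2 * u + b), ?_, h, Nat.log_pow (by norm_num) _⟩
    have h1 : (umul (ulen x) (ulen x)).length = x.length * x.length := by
      rw [ulen_eq, umul_replicate, List.length_replicate]
    rw [List.length_cons, h1]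
    have h2 : 2 ^ 2 ^ l ≤ x.length :=
      (Nat.pow_le_pow_right (by norm_num) (Nat.pow_le_pow_right (by norm_num) hl)).trans
        (lev_le hx)
    have h3 : 2 ^ (2 ^ l + 2 * u + b) ≤ 2 ^ 2 ^ l * 2 ^ 2 ^ l := by
      rw [← pow_add]
      exact Nat.pow_le_pow_right (by norm_num) (by omega)
    have h4 := Nat.mul_le_mul h2 h2
    omega

theorem xtest_iff (hO : Tly G g O) (hg : ∀ u, 2 * u + 1 < 2 ^ g u)
    (x : List Bool) :
    test O x = true ↔ ∃ e : Fam, G e ∧ g (cod e) ≤ ix x.length ∧
      Alive O e (ix x.length) ∧ ∃ m n, x = false :: (pad m (e.at n)).enc ∧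
        e.dep n ≤ 2 ^ ix x.length := by
  have hle : ∀ l u : ℕ, decide (ushl [()] (List.replicate u ()).length + 2 ≤
      ushl (List.replicate l ()) 1) = true ↔ 2 * u + 1 < 2 ^ l := by
    intro l u
    rw [decide_eq_true_eq, ushl_eq, ushl_eq, List.length_replicate, List.length_replicate,
      List.length_singleton]
    omega
  have hixl : (() :: ixL x).length = ix x.length + 1 := by rw [List.length_cons, ixL_len]
  unfold test
  rw [any_range, hixl]
  constructor
  · rintro ⟨l, hl, h⟩
    rw [any_range] at h
    obtain ⟨u, hu, h⟩ := h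
    rw [Bool.and_eq_true, Bool.and_eq_true, Bool.and_eq_true, hle, Bool.not_eq_true'] at h
    obtain ⟨⟨h1, h2, h3⟩, h4⟩ := h
    have hx2 : 2 ≤ x.length := by
      by_contra hcon
      have h5 : look4 x (entU (List.replicate u ())) = true := h4
      unfold look4 at h5
      rw [any_range, ulen_eq, List.length_replicate] at h5
      obtain ⟨i, hi, h6⟩ := h5
      unfold look5 at h6
      rw [Bool.and_eq_true, decide_eq_true_eq, ushl_eq, ixL_len] at h6
      have h7 := h6.1
      have h8 : ix x.length = 0 := by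
        unfold ix
        interval_cases x.length <;> simp
      rw [h8] at h7
      rw [h8] at hl
      interval_cases l
      omega
    rw [xhasM_iff hO hx2 (by omega) h1 (by norm_num)] at h2
    have h5 : TC.Act G g u l := by
      rcases h2 with h | h
      · exact h.2
      · omega
    obtain ⟨e, he1, he2, he3⟩ := h5
    subst he1
    have h6 : entU (List.replicate (cod e) ()) =
        (fmT e.2.2, List.replicate e.1 (), List.replicate e.2.1 (), 0, 0) :=
      entU_cod (List.length_replicate)
    rw [h6, look4_iff] at h4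
    refine ⟨e, he2, by omega, ?_, h4⟩
    by_contra hcon
    obtain ⟨l', h7, h8⟩ := (dead_iff (g := g) he2 (by omega)).2 hcon
    have h9 : ((rangeU (() :: ixL x)).any (fun l' =>
        decide (ushl [()] (List.replicate (cod e) ()).length + 2 ≤ ushl l' 1) &&
          hasM O x l' (List.replicate (cod e) ()) 1)) = true := by
      rw [any_range, hixl]
      have h10 : 2 * cod e + 1 < 2 ^ l' := by
        obtain ⟨-, -, -, h11, -⟩ := h8
        exact (hg (cod e)).trans_le (Nat.pow_le_pow_right (by norm_num) h11)
      refine ⟨l', by omega, ?_⟩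
      rw [Bool.and_eq_true, hle, xhasM_iff hO hx2 h7 h10 (by norm_num)]
      exact ⟨h10, Or.inr ⟨rfl, h8⟩⟩
    rw [h9] at h3
    exact Bool.false_ne_true h3.symm
  · rintro ⟨e, he, h1, h2, h3⟩
    have hx2 : 2 ≤ x.length := by
      obtain ⟨m, n, h4, -⟩ := h3
      exact code_len h4
    refine ⟨g (cod e), by omega, ?_⟩
    rw [any_range, ulen_eq, List.length_replicate]
    have h4 : cod e < x.length := by
      have h5 := hg (cod e)
      have h6 : 2 ^ g (cod e) ≤ 2 ^ ix x.length := Nat.pow_le_pow_right (by norm_num) h1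
      have h7 : 2 ^ ix x.length < 2 ^ 2 ^ ix x.length := Nat.lt_two_pow_self
      have h8 := lev_le hx2
      omega
    refine ⟨cod e, h4, ?_⟩
    rw [Bool.and_eq_true, Bool.and_eq_true, Bool.and_eq_true, hle, Bool.not_eq_true',
      xhasM_iff hO hx2 h1 (hg _) (by norm_num), entU_cod (List.length_replicate), look4_iff]
    refine ⟨⟨hg _, Or.inl ⟨rfl, e, rfl, he, rfl⟩, ?_⟩, h3⟩
    by_contra hcon
    rw [Bool.not_eq_false, any_range, hixl] at hcon
    obtain ⟨l', h5, h6⟩ := hcon
    rw [Bool.and_eq_true, hle] at h6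
    rw [xhasM_iff hO hx2 (by omega) h6.1 (by norm_num)] at h6
    rcases h6.2 with h7 | h7
    · omega
    · exact (dead_iff (g := g) he h1).1 ⟨l', by omega, h7.2⟩ h2

theorem xtest_ok (hG : ∀ e, G e → e.Good) (hO : Tly G g O) (hg : ∀ u, 2 * u + 1 < 2 ^ g u) (σ : Fm)
    (h : test O (false :: σ.enc) = true) : σ.Closed ∧ σ.True O := by
  obtain ⟨e, he, h1, h2, m, n, h3, h4⟩ := (xtest_iff hO hg _).1 h
  have h7 : σ = pad m (e.at n) := by
    refine (enc_inj (a := []) (b := []) ?_).1
    rw [List.append_nil, List.append_nil]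
    exact (List.cons.inj h3).2
  subst h7
  refine ⟨(pad_closed m _).2 ?_, (pad_true _ m _).2 (h2 n h4)⟩
  intro i hi
  obtain ⟨h8, h9⟩ := fm_free_sb (num_has i n) _ hi
  exact h9 ((hG e he).1 i h8)

/-- the theory -/
theorem xexists_S (hG : ∀ e, G e → e.Good) (hO : Tly G g O) (hg : ∀ u, 2 * u + 1 < 2 ^ g u)
    {B : Fm → Prop} (hB : Base O B) : ∃ S, InT O B S ∧
      ∀ σ : Fm, test O (false :: σ.enc) = true → Ax O S σ := by
  obtain ⟨b, hbh, hb⟩ := hB.dec
  have hP : PTime O (fun x : List Bool =>
      accU O (cmdD b.1) x [] (List.replicate ((x.length + 2) ^ b.2) ()) ||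
        test O (false :: x)) := by
    have f0 : PTime O (fun x : List Bool => x) := PTime.id
    have hN : PTime O
        (fun x : List Bool => List.replicate ((x.length + 2) ^ b.2) ()) :=
      UPoly.comp (g := fun n => (n + 2) ^ b.2) (UPoly.tb b.2) f0
    exact (PTime.accU (PTime.const _) f0 (PTime.const []) hN).or
      (PTime_test (PTime.cons (PTime.const false) f0))
  obtain ⟨c, k, hS⟩ := inP_of hP
  have hAx : ∀ σ, Ax O (c, k) σ ↔ B σ ∨ test O (false :: σ.enc) = true := by
    intro σ
    unfold Ax
    rw [(hS σ.enc).2, Bool.or_eq_true, accU_iff, List.length_replicate]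
    exact or_congr (hb σ) Iff.rfl
  refine ⟨(c, k), ⟨fun x => (hS x).1, fun σ hσ => (hAx σ).mpr (Or.inl hσ), fun σ hσ => ?_, ?_⟩,
    fun σ h => (hAx σ).2 (Or.inr h)⟩
  · rcases (hAx σ).mp hσ with h | h
    · exact hB.closed σ h
    · exact (xtest_ok hG hO hg σ h).1
  · intro hp
    have h1 : falsum.True O := by
      refine sound (fun σ hσ => ?_) hp
      rcases (hAx σ).mp hσ with h | h
      · exact hB.isTrue σ h
      · exact (xtest_ok hG hO hg σ h).2
    exact h1 (fun _ => 0) rfl

theorem xeasy_test (hO : Tly G g O) (hg : ∀ u, 2 * u + 1 < 2 ^ g u) {S : Th}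
    (hS : ∀ σ : Fm, test O (false :: σ.enc) = true → Ax O S σ) (e : Fam)
    (he : G e) (ht : ∀ n, (e.at n).True O) : EasyProofs O S e.at := by
  refine easy_of e (g (cod e)) (fun n => hS _ ?_)
  have hx : padE e.2.1 (g (cod e)) n ≤
      (false :: (pad (padE e.2.1 (g (cod e)) n) (e.at n)).enc).length := by
    rw [List.length_cons, pad_len]; omega
  refine (xtest_iff hO hg _).2 ⟨e, he, ix_lev (le_trans ?_ hx), fun k _ => ht k,
    padE e.2.1 (g (cod e)) n, n, rfl, ix_dep ((padE_dep _ _ _).trans hx)⟩
  unfold padE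
  exact Nat.le_add_left _ _

end

end Pool.Agent.TCA
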